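import Pool.Agent.H6.Weil.Conv2

/-!
From lower bounds on two-bump functions to the zero-free half-plane.
-/

set_option autoImplicit false

open Complex Filter Topology MeasureTheory Set LSeries Metric

namespace Pool.Agent.H6.Weil

open Pool.Agent.H6

lemma ne_zero_local {Z D K q : ℂ → ℂ} {z₀ : ℂ} (hZ : AnalyticAt ℂ Z z₀)
    (hZne : ¬ ∀ᶠ z in 𝓝 z₀, Z z = 0) (hD : ContinuousAt D z₀) (hK : ContinuousAt K z₀)
    (hK0 : K z₀ ≠ 0) (hq : ContinuousAt q z₀)
    (heq : ∀ᶠ z in 𝓝 z₀, D z * Z z = K z * (q z * Z z + deriv Z z)) : Z z₀ ≠ 0 := by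
  intro hz0
  obtain ⟨n, g, hg, hg0, hgZ⟩ := hZ.exists_eventuallyEq_pow_smul_nonzero_iff.mpr hZne
  have hn : n ≠ 0 := by
    rintro rfl
    have := hgZ.self_of_nhds
    rw [hz0] at this
    simp at this
    exact hg0 this.symm
  obtain ⟨m, rfl⟩ := Nat.exists_eq_add_one_of_ne_zero hn
  -- the derivative
  have hder : ∀ᶠ z in 𝓝 z₀, deriv Z z = (m + 1) * (z - z₀) ^ m * g z +
      (z - z₀) ^ (m + 1) * deriv g z := by
    filter_upwards [hgZ.eventually_nhds, hg.eventually_analyticAt] with z h1 h2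
    have h3 : Z =ᶠ[𝓝 z] fun z ↦ (z - z₀) ^ (m + 1) * g z := by
      filter_upwards [h1] with w hw
      simpa using hw
    have h4 : HasDerivAt (fun z ↦ (z - z₀) ^ (m + 1) * g z)
        ((((m + 1 : ℕ) : ℂ) * (z - z₀) ^ m * 1) * g z + (z - z₀) ^ (m + 1) * deriv g z) z := by
      have h5 : HasDerivAt (fun z ↦ (z - z₀) ^ (m + 1)) (((m + 1 : ℕ) : ℂ) * (z - z₀) ^ m * 1) z := by
        have := ((hasDerivAt_id z).sub_const z₀).fun_pow (m + 1)
        simpa using this
      exact h5.mul h2.differentiableAt.hasDerivAt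
    rw [h3.deriv_eq, h4.deriv]
    push_cast
    ring
  have hpun : ∀ᶠ z in 𝓝[≠] z₀, D z * ((z - z₀) * g z) =
      K z * (q z * ((z - z₀) * g z) + ((m + 1) * g z + (z - z₀) * deriv g z)) := by
    filter_upwards [heq.filter_mono nhdsWithin_le_nhds, hder.filter_mono nhdsWithin_le_nhds,
      hgZ.filter_mono nhdsWithin_le_nhds, self_mem_nhdsWithin] with z h1 h2 h3 h4
    have h5 : (z - z₀) ^ m ≠ 0 := pow_ne_zero _ (sub_ne_zero.mpr h4)
    rw [h2, h3, smul_eq_mul] at h1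
    apply mul_left_cancel₀ h5
    linear_combination h1
  have hgc := hg.continuousAt
  have hgd : ContinuousAt (deriv g) z₀ := hg.deriv.continuousAt
  have hsub : ContinuousAt (fun z : ℂ ↦ z - z₀) z₀ := by fun_prop
  have l1 : Tendsto (fun z ↦ D z * ((z - z₀) * g z)) (𝓝[≠] z₀)
      (𝓝 (D z₀ * ((z₀ - z₀) * g z₀))) :=
    ((hD.mul (hsub.mul hgc)).tendsto).mono_left nhdsWithin_le_nhds
  have l2 : Tendsto (fun z ↦ K z * (q z * ((z - z₀) * g z) + ((m + 1) * g z +
      (z - z₀) * deriv g z))) (𝓝[≠] z₀) (𝓝 (K z₀ * (q z₀ * ((z₀ - z₀) * g z₀) +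
      ((m + 1) * g z₀ + (z₀ - z₀) * deriv g z₀)))) :=
    ((hK.mul ((hq.mul (hsub.mul hgc)).add ((continuousAt_const.mul hgc).add
      (hsub.mul hgd)))).tendsto).mono_left nhdsWithin_le_nhds
  have h6 := tendsto_nhds_unique (l1.congr' hpun) l2
  rw [sub_self, zero_mul, zero_mul, mul_zero, mul_zero, zero_add, add_zero] at h6
  have h7 : (m + 1 : ℂ) ≠ 0 := by exact_mod_cast Nat.succ_ne_zero m
  exact mul_ne_zero hK0 (mul_ne_zero h7 hg0) h6.symm

/-- the modulated bump -/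
noncomputable def modBump (φ : ℝ → ℝ) (γ : ℝ) (u : ℝ) : ℂ := cexp (γ * u * I) * φ u

lemma acorr_modBump {φ : ℝ → ℝ} (γ w : ℝ) : acorr (modBump φ γ) w =
    cexp (γ * w * I) * ((∫ v : ℝ, φ (w + v) * φ v : ℝ) : ℂ) := by
  rw [acorr, ← integral_complex_ofReal, ← integral_const_mul]
  refine integral_congr_ae (Eventually.of_forall fun v ↦ ?_)
  simp only [modBump, map_mul, conj_ofReal]
  have h1 : (starRingEnd ℂ) (cexp (γ * v * I)) = cexp (-(γ * v * I)) := by
    rw [← Complex.exp_conj]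
    congr 1
    simp
  have h2 : cexp (γ * ((w + v : ℝ) : ℂ) * I) * cexp (-(γ * v * I)) = cexp (γ * w * I) := by
    rw [← Complex.exp_add]
    congr 1
    push_cast
    ring
  rw [h1]
  push_cast at h2 ⊢
  linear_combination (φ (w + v) : ℂ) * φ v * h2

lemma lap_modBump_ne_zero {φ : ℝ → ℝ} (hφ : Continuous φ) (hφs : HasCompactSupport φ)
    (hφ0 : ∀ u, 0 ≤ φ u) (hφ1 : φ 0 ≠ 0) (z : ℂ) : lap (modBump φ z.im) z ≠ 0 := by
  set k : ℝ → ℝ := fun w ↦ ∫ v : ℝ, φ (w + v) * φ v with hk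
  have hacorr : ∀ w : ℝ, acorr (fun v ↦ (φ v : ℂ)) w = ((k w : ℝ) : ℂ) := by
    intro w
    rw [acorr, hk, ← integral_complex_ofReal]
    refine integral_congr_ae (Eventually.of_forall fun v ↦ ?_)
    simp
  have hcφ : Continuous fun v ↦ (φ v : ℂ) := by fun_prop
  have hsφ : HasCompactSupport fun v ↦ (φ v : ℂ) := hφs.comp_left (g := fun x : ℝ ↦ (x : ℂ)) (by simp)
  have hkc : Continuous k := by
    have h1 := acorr_continuous hcφ hsφ
    have h2 : k = fun w ↦ (acorr (fun v ↦ (φ v : ℂ)) w).re := by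
      ext w
      rw [hacorr, ofReal_re]
    rw [h2]
    exact Complex.continuous_re.comp h1
  have hks : HasCompactSupport k := by
    have h1 := acorr_hasCompactSupport hsφ
    have h2 : k = fun w ↦ (acorr (fun v ↦ (φ v : ℂ)) w).re := by
      ext w
      rw [hacorr, ofReal_re]
    rw [h2]
    exact h1.comp_left (g := Complex.re) zero_re
  have hk0 : ∀ w, 0 ≤ k w := fun w ↦ integral_nonneg fun v ↦ mul_nonneg (hφ0 _) (hφ0 _)
  have hk1 : 0 < k 0 := by
    have h1 : k 0 = ∫ v, φ v * φ v := by simp [hk]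
    rw [h1]
    refine Continuous.integral_pos_of_hasCompactSupport_nonneg_nonzero (by fun_prop)
      hφs.mul_right (fun v ↦ mul_nonneg (hφ0 _) (hφ0 _)) (x := 0) ?_
    exact mul_ne_zero hφ1 hφ1
  have h1 : lap (modBump φ z.im) z = ((∫ w : ℝ, k w * Real.exp (-(z.re * w)) : ℝ) : ℂ) := by
    rw [lap, ← integral_complex_ofReal]
    refine integral_congr_ae (Eventually.of_forall fun w ↦ ?_)
    simp only
    rw [acorr_modBump]
    have h2 : cexp (z.im * w * I) * cexp (-(z * w)) = ((Real.exp (-(z.re * w)) : ℝ) : ℂ) := by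
      rw [← Complex.exp_add, ofReal_exp]
      congr 1
      push_cast
      linear_combination (w : ℂ) * re_add_im z
    push_cast at h2 ⊢
    linear_combination (k w : ℂ) * h2
  rw [h1]
  have h3 : 0 < ∫ w : ℝ, k w * Real.exp (-(z.re * w)) := by
    refine Continuous.integral_pos_of_hasCompactSupport_nonneg_nonzero (by fun_prop)
      hks.mul_right (fun v ↦ mul_nonneg (hk0 _) (Real.exp_pos _).le) (x := 0) ?_
    simp [hk1.ne']
  exact_mod_cast h3.ne'

/-- **Converse.** -/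
theorem zero_free_of_twoBump {b a : ℝ} (hb : 0 ≤ b) (hb1 : b < 1 / 2) (ha : 0 ≤ a)
    (H : ∀ g : ℝ → ℂ, ContDiff ℝ (⊤ : ℕ∞) g → HasCompactSupport g → ∀ ε : ℝ, 0 < ε → ∃ C : ℝ,
      ∀ (V : ℝ) (ω : ℂ), 0 ≤ V → ‖ω‖ = 1 →
        -(C * Real.exp ((2 * a + ε) * V)) ≤ weil b (twoBump g V ω)) :
    ∀ s : ℂ, 1 / 2 + b + a < s.re → riemannZeta s ≠ 0 := by
  intro s₀ hs₀
  set z₀ : ℂ := s₀ - 1 / 2 - b with hz₀
  have hz₀re : a < z₀.re := by
    have : z₀.re = s₀.re - 1 / 2 - b := by simp [hz₀]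
    rw [this]; linarith
  let φ : ContDiffBump (0 : ℝ) := ⟨1 / 2, 1, by norm_num, by norm_num⟩
  have hφc : Continuous (φ : ℝ → ℝ) := φ.continuous
  have hφs : HasCompactSupport (φ : ℝ → ℝ) := φ.hasCompactSupport
  set g : ℝ → ℂ := modBump φ z₀.im with hg
  have hgsm : ContDiff ℝ (⊤ : ℕ∞) g := by
    have h1 : ContDiff ℝ (⊤ : ℕ∞) (φ : ℝ → ℝ) := φ.contDiff
    have h2 : ContDiff ℝ (⊤ : ℕ∞) fun u : ℝ ↦ (φ u : ℂ) := ofRealCLM.contDiff.comp h1
    have h3 : ContDiff ℝ (⊤ : ℕ∞) fun u : ℝ ↦ cexp (z₀.im * u * I) := by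
      have h4 : ContDiff ℝ (⊤ : ℕ∞) fun u : ℝ ↦ (u : ℂ) := ofRealCLM.contDiff
      exact ((contDiff_const.mul h4).mul contDiff_const).cexp
    exact h3.mul h2
  have hgs : HasCompactSupport g := by
    have h2 : HasCompactSupport fun u : ℝ ↦ (φ u : ℂ) :=
      hφs.comp_left (g := fun x : ℝ ↦ (x : ℂ)) (by simp)
    exact h2.mul_left
  have hgc : Continuous g := hgsm.continuous
  have hg1 : ContDiff ℝ 1 g := hgsm.of_le (by exact_mod_cast le_top)
  obtain ⟨M, hM0, hM⟩ := exists_radius hgs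
  -- the global bound of the discrepancy
  have hglob : ∀ ε : ℝ, a < ε → ∃ C : ℝ, 0 ≤ C ∧ ∀ U : ℝ, -(2 * M + 1) < U →
      ‖disc b g U‖ ≤ C * Real.exp (ε * U) := by
    intro ε hε
    obtain ⟨C, hC⟩ := H g hgsm hgs (2 * (ε - a)) (by linarith)
    obtain ⟨C', U₀, hC', -, hbd⟩ := disc_bound hg1 hgs hb (by linarith) (by linarith) hC
    refine disc_global (U₀ := U₀) hgc hgs hC' (by linarith) fun U hU ↦ ?_
    have := hbd U hU
    rwa [show (2 * a + 2 * (ε - a)) / 2 = ε by ring] at this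
  have hKne : lap g z₀ ≠ 0 := by
    refine lap_modBump_ne_zero hφc hφs (fun u ↦ φ.nonneg) ?_ z₀
    have : φ (0 : ℝ) = 1 := φ.one_of_mem_closedBall (by simp [φ])
    rw [this]
    exact one_ne_zero
  -- the identity
  have hdL : ∀ z : ℂ, a < z.re → DifferentiableAt ℂ (discLap b g) z := by
    intro z hz
    obtain ⟨C, hC, hbd⟩ := hglob ((a + z.re) / 2) (by linarith)
    exact discLap_differentiableAt hgc hgs hM0 hM hC (by linarith) hbd (by linarith)
  have hlapd := lap_differentiable hgc hgs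
  have hZd : Differentiable ℂ fun z : ℂ ↦ zetaPole (1 / 2 + b + z) :=
    zetaPole_differentiable.comp (by fun_prop)
  have hZd' : Differentiable ℂ fun z : ℂ ↦ deriv zetaPole (1 / 2 + b + z) := by
    intro z
    have h1 : DifferentiableAt ℂ (deriv zetaPole) (1 / 2 + b + z) :=
      ((zetaPole_differentiable.analyticAt _).deriv).differentiableAt
    exact DifferentiableAt.comp z h1 (by fun_prop)
  have hne : ∀ z : ℂ, a < z.re → (1 / 2 + (b : ℂ) + z) ≠ 0 := by
    intro z hz h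
    have := congrArg Complex.re h
    simp at this
    linarith
  have hopen : IsOpen {z : ℂ | a < z.re} := isOpen_re_gt a
  have ha1 : AnalyticOnNhd ℂ (fun z ↦ discLap b g z * zetaPole (1 / 2 + b + z))
      {z : ℂ | a < z.re} := by
    refine DifferentiableOn.analyticOnNhd (fun z hz ↦ ?_) hopen
    exact ((hdL z hz).mul (hZd z)).differentiableWithinAt
  have ha2 : AnalyticOnNhd ℂ (fun z ↦ lap g z * (1 / (1 / 2 + b + z) * zetaPole (1 / 2 + b + z) +
      deriv zetaPole (1 / 2 + b + z))) {z : ℂ | a < z.re} := by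
    refine DifferentiableOn.analyticOnNhd (fun z hz ↦ ?_) hopen
    have h1 : DifferentiableAt ℂ (fun z : ℂ ↦ 1 / (1 / 2 + (b : ℂ) + z)) z :=
      (differentiableAt_const _).div (by fun_prop) (hne z hz)
    exact ((hlapd z).mul ((h1.mul (hZd z)).add (hZd' z))).differentiableWithinAt
  have hev : (fun z ↦ discLap b g z * zetaPole (1 / 2 + b + z)) =ᶠ[𝓝 (⟨a + 1, 0⟩ : ℂ)]
      (fun z ↦ lap g z * (1 / (1 / 2 + b + z) * zetaPole (1 / 2 + b + z) +
      deriv zetaPole (1 / 2 + b + z))) := by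
    obtain ⟨C, hC, hbd⟩ := hglob (a + 1 / 2) (by linarith)
    filter_upwards [(isOpen_re_gt (a + 1 / 2)).mem_nhds
      (show ((⟨a + 1, 0⟩ : ℂ)) ∈ {s : ℂ | a + 1 / 2 < s.re} by simp; norm_num)] with z hz
    have hz' : a + 1 / 2 < z.re := hz
    rw [discLap_eq hgc hgs hb hM0 hM hC (by linarith) hbd (by linarith) hz', Lf, Zld]
    have hs1 : 1 < (1 / 2 + (b : ℂ) + z).re := by
      simp; linarith
    have h1 : zetaPole (1 / 2 + b + z) ≠ 0 := by
      have h2 : (1 / 2 + (b : ℂ) + z) ≠ 1 := by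
        intro h; rw [h, one_re] at hs1; exact lt_irrefl _ hs1
      rw [zetaPole_of_ne h2]
      exact mul_ne_zero (sub_ne_zero.mpr h2) (riemannZeta_ne_zero_of_one_lt_re hs1)
    have h0 := hne z (by linarith)
    generalize (1 / 2 + (b : ℂ) + z) = X at h0 h1 ⊢
    field_simp
  have hid : EqOn (fun z ↦ discLap b g z * zetaPole (1 / 2 + b + z))
      (fun z ↦ lap g z * (1 / (1 / 2 + b + z) * zetaPole (1 / 2 + b + z) +
      deriv zetaPole (1 / 2 + b + z))) {z : ℂ | a < z.re} :=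
    ha1.eqOn_of_preconnected_of_eventuallyEq ha2 (convex_halfSpace_re_gt a).isPreconnected
      (show a < ((⟨a + 1, 0⟩ : ℂ)).re by simp) hev
  -- local argument
  set Z : ℂ → ℂ := fun z ↦ zetaPole (1 / 2 + b + z) with hZ
  have hZder : ∀ z, deriv Z z = deriv zetaPole (1 / 2 + b + z) := by
    intro z
    exact deriv_comp_const_add (f := zetaPole) (1 / 2 + (b : ℂ)) z
  have hZan : AnalyticAt ℂ Z z₀ := hZd.analyticAt z₀
  have hZne : ¬ ∀ᶠ z in 𝓝 z₀, Z z = 0 := by
    intro h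
    have h1 : AnalyticOnNhd ℂ Z univ := fun z _ ↦ hZd.analyticAt z
    have h2 := h1.eqOn_zero_of_preconnected_of_eventuallyEq_zero isPreconnected_univ
      (mem_univ z₀) h (mem_univ (1 / 2 - b : ℂ))
    simp only [hZ, Pi.zero_apply] at h2
    have h3 : (1 / 2 + (b : ℂ) + (1 / 2 - b)) = 1 := by ring
    rw [h3, zetaPole_one] at h2
    exact one_ne_zero h2
  have hfin : Z z₀ ≠ 0 := by
    refine ne_zero_local (D := discLap b g) (K := lap g) (q := fun z ↦ 1 / (1 / 2 + b + z)) hZan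
      hZne (hdL z₀ hz₀re).continuousAt (hlapd z₀).continuousAt hKne ?_ ?_
    · exact ((differentiableAt_const _).div (by fun_prop) (hne z₀ hz₀re)).continuousAt
    · filter_upwards [hopen.mem_nhds hz₀re] with z hz
      have := hid hz
      simp only at this
      rw [hZder, hZ]
      exact this
  have h1 : (1 / 2 + (b : ℂ) + z₀) = s₀ := by rw [hz₀]; ring
  simp only [hZ] at hfin
  rw [h1] at hfin
  intro hzero
  apply hfin
  have hs1 : s₀ ≠ 1 := by
    rintro rfl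
    exact riemannZeta_one_ne_zero hzero
  rw [zetaPole_of_ne hs1, hzero, mul_zero]

end Pool.Agent.H6.Weil
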