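import Pool.Agent.H6.Weil.Growth2
import Pool.Agent.H6.Weil.Conv3

/-!
The Sobolev norm of a two-bump function.
-/

set_option autoImplicit false

open Complex Filter Topology MeasureTheory Set

namespace Pool.Agent.H6.Weil

open Pool.Agent.H6

variable {g : ℝ → ℂ}

lemma twoBump_contDiff {n : WithTop ℕ∞} (hg : ContDiff ℝ n g) (V : ℝ) (ω : ℂ) :
    ContDiff ℝ n (twoBump g V ω) := by
  unfold twoBump
  exact (hg.comp (contDiff_id.sub contDiff_const)).add
    (contDiff_const.mul (hg.comp (contDiff_id.add contDiff_const)))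

lemma iteratedDeriv_twoBump (hg : ContDiff ℝ (⊤ : ℕ∞) g) (V : ℝ) (ω : ℂ) (j : ℕ) (u : ℝ) :
    iteratedDeriv j (twoBump g V ω) u =
      iteratedDeriv j g (u - V) + ω * iteratedDeriv j g (u + V) := by
  have h1 : ContDiff ℝ j fun u ↦ g (u - V) :=
    (hg.of_le (by exact_mod_cast le_top)).comp (contDiff_id.sub contDiff_const)
  have h2 : ContDiff ℝ j fun u ↦ g (u + V) :=
    (hg.of_le (by exact_mod_cast le_top)).comp (contDiff_id.add contDiff_const)
  have h3 : twoBump g V ω = (fun u ↦ g (u - V)) + fun u ↦ ω * g (u + V) := by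
    funext u
    simp [twoBump]
  rw [h3, iteratedDeriv_add h1.contDiffAt (contDiffAt_const.mul h2.contDiffAt),
    iteratedDeriv_const_mul _ h2.contDiffAt, iteratedDeriv_comp_sub_const,
    iteratedDeriv_comp_add_const]

lemma sob_twoBump_le (hg : ContDiff ℝ (⊤ : ℕ∞) g) (hgs : HasCompactSupport g) (k : ℕ) (V : ℝ)
    {ω : ℂ} (hω : ‖ω‖ = 1) : sob k (twoBump g V ω) ≤ 4 * sob k g := by
  unfold sob
  rw [Finset.mul_sum]
  refine Finset.sum_le_sum fun j _ ↦ ?_
  have hc : Continuous (iteratedDeriv j g) := hg.continuous_iteratedDeriv j (by exact_mod_cast le_top)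
  have hcs : HasCompactSupport (iteratedDeriv j g) := by
    rw [iteratedDeriv_eq_equiv_comp]
    exact (hgs.iteratedFDeriv (𝕜 := ℝ) j).comp_left (by simp)
  have i0 : Integrable fun u ↦ ‖iteratedDeriv j g u‖ ^ 2 := sq_integrable hc hcs
  have i1 : Integrable fun u ↦ ‖iteratedDeriv j g (u - V)‖ ^ 2 := i0.comp_sub_right V
  have i2 : Integrable fun u ↦ ‖iteratedDeriv j g (u + V)‖ ^ 2 := i0.comp_add_right V
  have e1 : ∫ u, ‖iteratedDeriv j g (u - V)‖ ^ 2 = ∫ u, ‖iteratedDeriv j g u‖ ^ 2 :=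
    integral_sub_right_eq_self (fun u ↦ ‖iteratedDeriv j g u‖ ^ 2) V
  have e2 : ∫ u, ‖iteratedDeriv j g (u + V)‖ ^ 2 = ∫ u, ‖iteratedDeriv j g u‖ ^ 2 :=
    integral_add_right_eq_self (fun u ↦ ‖iteratedDeriv j g u‖ ^ 2) V
  calc ∫ u, ‖iteratedDeriv j (twoBump g V ω) u‖ ^ 2
      ≤ ∫ u, (2 * ‖iteratedDeriv j g (u - V)‖ ^ 2 + 2 * ‖iteratedDeriv j g (u + V)‖ ^ 2) := by
        refine integral_mono_of_nonneg (Eventually.of_forall fun u ↦ by positivity)
          ((i1.const_mul 2).add (i2.const_mul 2)) (Eventually.of_forall fun u ↦ ?_)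
        simp only
        rw [iteratedDeriv_twoBump hg]
        have h1 : ‖iteratedDeriv j g (u - V) + ω * iteratedDeriv j g (u + V)‖ ≤
            ‖iteratedDeriv j g (u - V)‖ + ‖iteratedDeriv j g (u + V)‖ := by
          refine (norm_add_le _ _).trans ?_
          rw [norm_mul, hω, one_mul]
        have h2 := norm_nonneg (iteratedDeriv j g (u - V) + ω * iteratedDeriv j g (u + V))
        nlinarith [sq_nonneg (‖iteratedDeriv j g (u - V)‖ - ‖iteratedDeriv j g (u + V)‖)]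
    _ = 4 * ∫ u, ‖iteratedDeriv j g u‖ ^ 2 := by
        rw [integral_add (i1.const_mul 2) (i2.const_mul 2), integral_const_mul,
          integral_const_mul, e1, e2]
        ring

lemma twoBump_eq_zero {M : ℝ} (hM : ∀ u, M < |u| → g u = 0) {V : ℝ} (hV : 0 ≤ V) (ω : ℂ) {u : ℝ}
    (hu : M + V < |u|) : twoBump g V ω u = 0 := by
  have h1 : M < |u - V| := by
    have := abs_sub_abs_le_abs_sub u V
    rw [abs_of_nonneg hV] at this
    linarith
  have h2 : M < |u + V| := by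
    have := abs_sub_abs_le_abs_sub u (-V)
    rw [abs_neg, abs_of_nonneg hV, sub_neg_eq_add] at this
    linarith
  rw [twoBump, hM _ h1, hM _ h2]
  simp

/-- A lower bound on compactly supported functions implies one on two-bump functions. -/
lemma twoBump_bound {a b : ℝ} (k : ℕ)
    (H : ∀ ε : ℝ, 0 < ε → ∃ C : ℝ, ∀ (T : ℝ) (f : ℝ → ℂ), 0 ≤ T → ContDiff ℝ (⊤ : ℕ∞) f →
      HasCompactSupport f → (∀ u, T < |u| → f u = 0) →
      -(C * Real.exp ((2 * a + ε) * T) * sob k f) ≤ weil b f)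
    (hg : ContDiff ℝ (⊤ : ℕ∞) g) (hgs : HasCompactSupport g) {ε : ℝ} (hε : 0 < ε) :
    ∃ C : ℝ, ∀ (V : ℝ) (ω : ℂ), 0 ≤ V → ‖ω‖ = 1 →
      -(C * Real.exp ((2 * a + ε) * V)) ≤ weil b (twoBump g V ω) := by
  obtain ⟨C, hC⟩ := H ε hε
  obtain ⟨M, hM0, hM⟩ := exists_radius hgs
  refine ⟨|C| * Real.exp ((2 * a + ε) * M) * (4 * sob k g), fun V ω hV hω ↦ ?_⟩
  have h1 := hC (M + V) (twoBump g V ω) (by positivity) (twoBump_contDiff hg V ω)
    (twoBump_hasCompactSupport hgs V ω) fun u hu ↦ twoBump_eq_zero hM hV ω hu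
  refine le_trans (neg_le_neg ?_) h1
  have h2 := sob_twoBump_le hg hgs k V hω
  have h3 := sob_nonneg k (twoBump g V ω)
  have h4 : Real.exp ((2 * a + ε) * (M + V)) =
      Real.exp ((2 * a + ε) * M) * Real.exp ((2 * a + ε) * V) := by
    rw [← Real.exp_add]
    congr 1
    ring
  rw [h4]
  have h5 := Real.exp_pos ((2 * a + ε) * M)
  have h6 := Real.exp_pos ((2 * a + ε) * V)
  calc C * (Real.exp ((2 * a + ε) * M) * Real.exp ((2 * a + ε) * V)) * sob k (twoBump g V ω)
      ≤ |C| * (Real.exp ((2 * a + ε) * M) * Real.exp ((2 * a + ε) * V)) * (4 * sob k g) := by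
        gcongr
        exact le_abs_self C
    _ = |C| * Real.exp ((2 * a + ε) * M) * (4 * sob k g) * Real.exp ((2 * a + ε) * V) := by ring

end Pool.Agent.H6.Weil
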