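import Pool.Agent.H6.Weil.Formula

/-!
Analytic continuation of the explicit formula in the damping parameter.
-/

set_option autoImplicit false

open Complex Filter Topology MeasureTheory Set LSeries Metric
open scoped ArithmeticFunction.vonMangoldt

namespace Pool.Agent.H6.Weil

open Pool.Agent.H6

variable {f : ℝ → ℂ}

lemma laplace_differentiable {g : ℝ → ℂ} (hg : Continuous g) {M : ℝ} (hM : ∀ u, M < |u| → g u = 0)
    (hgs : HasCompactSupport g) (c : ℂ) :
    Differentiable ℂ fun z ↦ ∫ u in Ioi (0 : ℝ), cexp (-((c + z) * u)) * g u := by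
  intro z₀
  have hgi : Integrable g := hg.integrable_of_hasCompactSupport hgs
  refine differentiableAt_integral (r := 1) one_pos (g := fun u ↦
    Real.exp ((‖c‖ + ‖z₀‖ + 1) * |M|) * ‖g u‖) (fun z _ ↦ ?_) (Eventually.of_forall fun u ↦ ?_) ?_ ?_
  · exact (by fun_prop : Continuous _).aestronglyMeasurable
  · fun_prop
  · exact (hgi.norm.const_mul _).integrableOn
  · filter_upwards [ae_restrict_mem measurableSet_Ioi] with u hu z hz
    have hu0 : (0 : ℝ) < u := hu
    rcases lt_or_ge M |u| with h | h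
    · rw [hM u h]
      simp
    · rw [norm_mul]
      gcongr
      rw [Complex.norm_exp]
      apply Real.exp_le_exp.mpr
      have h1 : (-((c + z) * u)).re = -((c + z).re * u) := by simp
      rw [h1]
      have h2 : -(c + z).re ≤ ‖c‖ + ‖z₀‖ + 1 := by
        have h3 : |(c + z).re| ≤ ‖c + z‖ := abs_re_le_norm _
        have h4 : ‖z‖ ≤ ‖z₀‖ + 1 := by
          rw [mem_ball, dist_eq_norm] at hz
          have := norm_add_le z₀ (z - z₀)
          rw [add_sub_cancel] at this
          linarith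
        have h5 := norm_add_le c z
        have := neg_abs_le (c + z).re
        linarith
      have h6 : u ≤ |M| := by
        rw [abs_of_pos hu0] at h
        exact h.trans (le_abs_self M)
      have h7 : 0 ≤ ‖c‖ + ‖z₀‖ + 1 := by positivity
      calc -((c + z).re * u) = (-(c + z).re) * u := by ring
        _ ≤ (‖c‖ + ‖z₀‖ + 1) * u := by gcongr
        _ ≤ (‖c‖ + ‖z₀‖ + 1) * |M| := by gcongr

lemma exists_log_bound (M : ℝ) : ∃ N : ℕ, ∀ n : ℕ, N ≤ n → M < Real.log n := by
  obtain ⟨N, hN⟩ := exists_nat_gt (Real.exp M)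
  refine ⟨N, fun n hn ↦ ?_⟩
  rw [Real.lt_log_iff_exp_lt]
  · exact lt_of_lt_of_le hN (by exact_mod_cast hn)
  · exact lt_of_lt_of_le ((Real.exp_pos M).trans hN) (by exact_mod_cast hn)

lemma primeSide_differentiable (hf : Continuous f) (hs : HasCompactSupport f) :
    Differentiable ℂ (primeSide f) := by
  obtain ⟨M, hM0, hM⟩ := exists_radius hs
  have hA : ∀ u, 2 * M < |u| → acorr f (-u) = 0 := by
    intro u hu
    refine acorr_eq_zero hM ?_
    rwa [abs_neg]
  have hAc : Continuous fun u ↦ acorr f (-u) := (acorr_continuous hf hs).comp continuous_neg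
  have hAs : HasCompactSupport fun u ↦ acorr f (-u) :=
    (acorr_hasCompactSupport hs).comp_homeomorph (Homeomorph.neg ℝ)
  have h1 := laplace_differentiable hAc hA hAs (1 / 2)
  have h2 := laplace_differentiable hAc hA hAs (-(1 / 2))
  have h2' : (fun z : ℂ ↦ ∫ u in Ioi (0 : ℝ), cexp (-((-(1 / 2) + z) * u)) * acorr f (-u)) =
      fun z : ℂ ↦ ∫ u in Ioi (0 : ℝ), cexp (-((z - 1 / 2) * u)) * acorr f (-u) := by
    ext z
    have : (-(1 / 2) + z : ℂ) = z - 1 / 2 := by ring
    rw [this]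
  rw [h2'] at h2
  obtain ⟨N, hN⟩ := exists_log_bound (2 * M)
  have h3 : Differentiable ℂ fun z : ℂ ↦
      ∑' n : ℕ, Λ n / (n : ℂ) ^ (1 / 2 + z) * acorr f (-Real.log n) := by
    have h4 : (fun z : ℂ ↦ ∑' n : ℕ, Λ n / (n : ℂ) ^ (1 / 2 + z) * acorr f (-Real.log n)) =
        fun z : ℂ ↦ ∑ n ∈ Finset.range N, Λ n / (n : ℂ) ^ (1 / 2 + z) * acorr f (-Real.log n) := by
      ext z
      refine tsum_eq_sum fun n hn ↦ ?_
      rw [Finset.mem_range, not_lt] at hn
      rw [hA _ ((hN n hn).trans_le (le_abs_self _)), mul_zero]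
    rw [h4]
    refine Differentiable.fun_sum fun n _ ↦ ?_
    rcases eq_or_ne n 0 with rfl | hn
    · simp
    · have hnc : (n : ℂ) ≠ 0 := by exact_mod_cast hn
      refine Differentiable.mul_const ?_ _
      intro z
      refine (differentiableAt_const _).div ?_ ?_
      · exact DifferentiableAt.const_cpow (by fun_prop) (Or.inl hnc)
      · simp [cpow_eq_zero_iff, hnc]
  exact (h1.add h2).sub h3

lemma specSide_differentiableAt (hf : ContDiff ℝ 1 f) (hs : HasCompactSupport f) {θ : ℝ}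
    (hθ : 1 / 2 ≤ θ) (hθ1 : θ < 1) (hZ : ∀ s : ℂ, θ < s.re → riemannZeta s ≠ 0) {z₀ : ℂ}
    (h1 : θ < 1 / 2 + z₀.re) (h2 : 1 / 2 + z₀.re < 2) : DifferentiableAt ℂ (specSide f) z₀ := by
  obtain ⟨r, hr, hr1, hr2⟩ : ∃ r : ℝ, 0 < r ∧ θ + r < 1 / 2 + z₀.re - r ∧ 1 / 2 + z₀.re + r < 2 := by
    refine ⟨min (1 / 2 + z₀.re - θ) (2 - (1 / 2 + z₀.re)) / 3, ?_, ?_, ?_⟩
    · have : 0 < min (1 / 2 + z₀.re - θ) (2 - (1 / 2 + z₀.re)) := lt_min (by linarith) (by linarith)
      positivity
    · have := min_le_left (1 / 2 + z₀.re - θ) (2 - (1 / 2 + z₀.re))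
      linarith
    · have := min_le_right (1 / 2 + z₀.re - θ) (2 - (1 / 2 + z₀.re))
      linarith
  obtain ⟨C, hC, hb⟩ := Lf_bound hθ hθ1 hZ (σ := θ + r) (by linarith) (η := 1 / 2) (by norm_num)
  have hre : ∀ z ∈ ball z₀ r, ∀ t : ℝ, θ + r ≤ (1 / 2 + z + t * I).re ∧ (1 / 2 + z + t * I).re ≤ 2 := by
    intro z hz t
    rw [mem_ball, dist_eq_norm] at hz
    have h3 : |(z - z₀).re| ≤ ‖z - z₀‖ := abs_re_le_norm _
    rw [sub_re] at h3
    have h4 := abs_le.mp (h3.trans hz.le)
    have h5 : (1 / 2 + z + t * I).re = 1 / 2 + z.re := by simp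
    rw [h5]
    constructor <;> linarith
  have hd : ∀ z ∈ ball z₀ r, ∀ t : ℝ, DifferentiableAt ℂ Lf (1 / 2 + z + t * I) :=
    fun z hz t ↦ Lf_differentiableAt hθ hZ (by have := (hre z hz t).1; linarith)
  have hcont : ∀ z ∈ ball z₀ r, Continuous fun t : ℝ ↦ Lf (1 / 2 + z + t * I) := by
    intro z hz
    rw [continuous_iff_continuousAt]
    intro t
    exact ContinuousAt.comp (f := fun t : ℝ ↦ (1 / 2 + z + t * I : ℂ)) (hd z hz t).continuousAt
      (by fun_prop)
  have hc := four_continuous hf.continuous hs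
  have hbound : ∀ z ∈ ball z₀ r, ∀ t : ℝ, ‖Lf (1 / 2 + z + t * I)‖ ≤
      C * (1 + |z₀.im| + r) ^ (1 / 2 : ℝ) * (1 + |t|) ^ (1 / 2 : ℝ) := by
    intro z hz t
    obtain ⟨h3, h4⟩ := hre z hz t
    refine (hb _ h3 h4).trans ?_
    rw [mul_assoc, ← Real.mul_rpow (by positivity) (by positivity)]
    gcongr
    have h5 : (1 / 2 + z + t * I).im = z.im + t := by simp
    rw [h5]
    have h6 : |z.im| ≤ |z₀.im| + r := by
      rw [mem_ball, dist_eq_norm] at hz
      have h7 : |(z - z₀).im| ≤ ‖z - z₀‖ := abs_im_le_norm _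
      rw [sub_im] at h7
      have h8 := abs_add_le z₀.im (z.im - z₀.im)
      rw [add_sub_cancel] at h8
      linarith
    have h9 := abs_add_le z.im t
    nlinarith [abs_nonneg t, abs_nonneg z₀.im]
  have key : DifferentiableAt ℂ (fun z ↦ ∫ t : ℝ, ((‖four f t‖ ^ 2 : ℝ) : ℂ) *
      Lf (1 / 2 + z + t * I)) z₀ := by
    have hint := (integrable_four_mul hf hs (g := fun t ↦ (((1 + |t|) ^ (1 / 2 : ℝ) : ℝ) : ℂ))
      (C := 1) (η := 1 / 2) ?_ (by norm_num) fun t ↦ ?_).norm
    · refine differentiableAt_integral hr (g := fun t ↦ C * (1 + |z₀.im| + r) ^ (1 / 2 : ℝ) *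
        ‖((‖four f t‖ ^ 2 : ℝ) : ℂ) * (((1 + |t|) ^ (1 / 2 : ℝ) : ℝ) : ℂ)‖) (fun z hz ↦ ?_)
        (Eventually.of_forall fun t z hz ↦ ?_) (hint.const_mul _)
        (Eventually.of_forall fun t z hz ↦ ?_)
      · have := hcont z hz
        exact (by fun_prop : Continuous _).aestronglyMeasurable
      · refine DifferentiableAt.differentiableWithinAt ?_
        refine DifferentiableAt.const_mul ?_ _
        exact DifferentiableAt.comp (f := fun z : ℂ ↦ (1 / 2 + z + t * I : ℂ)) z (hd z hz t)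
          (by fun_prop)
      · rw [norm_mul, norm_mul]
        have h3 := hbound z hz t
        have h4 : ‖(((1 + |t|) ^ (1 / 2 : ℝ) : ℝ) : ℂ)‖ = (1 + |t|) ^ (1 / 2 : ℝ) := by
          rw [norm_real, Real.norm_of_nonneg (by positivity)]
        rw [h4]
        calc ‖((‖four f t‖ ^ 2 : ℝ) : ℂ)‖ * ‖Lf (1 / 2 + z + t * I)‖
            ≤ ‖((‖four f t‖ ^ 2 : ℝ) : ℂ)‖ *
              (C * (1 + |z₀.im| + r) ^ (1 / 2 : ℝ) * (1 + |t|) ^ (1 / 2 : ℝ)) := by gcongr
          _ = _ := by ring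
    · refine Continuous.aestronglyMeasurable ?_
      refine continuous_ofReal.comp ?_
      refine Continuous.rpow_const (by fun_prop) fun t ↦ Or.inl ?_
      have := abs_nonneg t
      linarith
    · rw [norm_real, Real.norm_of_nonneg (by positivity), one_mul]
  exact key.const_mul _

/-- The explicit formula in a zero-free half-plane. -/
theorem primeSide_eq_specSide (hf : ContDiff ℝ 1 f) (hs : HasCompactSupport f) {θ : ℝ}
    (hθ : 1 / 2 ≤ θ) (hθ1 : θ < 1) (hZ : ∀ s : ℂ, θ < s.re → riemannZeta s ≠ 0) {z : ℂ}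
    (h1 : θ < 1 / 2 + z.re) (h2 : 1 / 2 + z.re < 2) : primeSide f z = specSide f z := by
  set U : Set ℂ := {z : ℂ | θ < 1 / 2 + z.re} ∩ {z : ℂ | 1 / 2 + z.re < 2} with hU
  have hopen : IsOpen U := by
    refine IsOpen.inter ?_ ?_
    · exact isOpen_lt continuous_const (by fun_prop)
    · exact isOpen_lt (by fun_prop) continuous_const
  have hconv : Convex ℝ U := by
    have e1 : {z : ℂ | θ < 1 / 2 + z.re} = {z : ℂ | θ - 1 / 2 < z.re} := by
      ext z; simp only [mem_ofPred_eq]; constructor <;> intro h <;> linarith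
    have e2 : {z : ℂ | 1 / 2 + z.re < 2} = {z : ℂ | z.re < 3 / 2} := by
      ext z; simp only [mem_ofPred_eq]; constructor <;> intro h <;> linarith
    rw [hU, e1, e2]
    exact (convex_halfSpace_re_gt _).inter (convex_halfSpace_re_lt _)
  have ha1 : AnalyticOnNhd ℂ (primeSide f) U :=
    (primeSide_differentiable hf.continuous hs).differentiableOn.analyticOnNhd hopen
  have ha2 : AnalyticOnNhd ℂ (specSide f) U := by
    refine DifferentiableOn.analyticOnNhd (fun z hz ↦ ?_) hopen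
    exact (specSide_differentiableAt hf hs hθ hθ1 hZ hz.1 hz.2).differentiableWithinAt
  have hev : primeSide f =ᶠ[𝓝 1] specSide f := by
    filter_upwards [(isOpen_re_gt (1 / 2)).mem_nhds (show (1 : ℂ) ∈ {s : ℂ | 1 / 2 < s.re} by
      simp; norm_num)] with z hz
    exact primeSide_eq_specSide_of_half_lt hf hs hz
  exact ha1.eqOn_of_preconnected_of_eventuallyEq ha2 hconv.isPreconnected
    (show (1 : ℂ) ∈ U by constructor <;> simp <;> linarith) hev ⟨h1, h2⟩

end Pool.Agent.H6.Weil
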