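import Pool.Agent.H6.Weil.Forward

/-!
Test functions made of two distant translates of one bump.
-/

set_option autoImplicit false

open Complex Filter Topology MeasureTheory Set LSeries Metric
open scoped ArithmeticFunction.vonMangoldt

namespace Pool.Agent.H6.Weil

open Pool.Agent.H6

/-- two translated copies of `g` -/
noncomputable def twoBump (g : ℝ → ℂ) (V : ℝ) (ω : ℂ) (u : ℝ) : ℂ := g (u - V) + ω * g (u + V)

variable {g : ℝ → ℂ}

lemma twoBump_continuous (hg : Continuous g) (V : ℝ) (ω : ℂ) : Continuous (twoBump g V ω) := by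
  unfold twoBump
  fun_prop

lemma translate_hasCompactSupport (hgs : HasCompactSupport g) (V : ℝ) :
    HasCompactSupport fun u ↦ g (u + V) :=
  hgs.comp_homeomorph (Homeomorph.addRight V)

lemma twoBump_hasCompactSupport (hgs : HasCompactSupport g) (V : ℝ) (ω : ℂ) :
    HasCompactSupport (twoBump g V ω) := by
  unfold twoBump
  refine HasCompactSupport.add ?_ ?_
  · simpa [sub_eq_add_neg] using translate_hasCompactSupport hgs (-V)
  · exact (translate_hasCompactSupport hgs V).mul_left

lemma acorr_twoBump (hg : Continuous g) (hgs : HasCompactSupport g) {ω : ℂ} (hω : ‖ω‖ = 1)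
    (V u : ℝ) : acorr (twoBump g V ω) u = 2 * acorr g u +
      (starRingEnd ℂ) ω * acorr g (u - 2 * V) + ω * acorr g (u + 2 * V) := by
  have hint : ∀ a b : ℝ, Integrable fun v ↦ g (v + a) * (starRingEnd ℂ) (g (v + b)) := by
    intro a b
    refine Continuous.integrable_of_hasCompactSupport (by fun_prop) ?_
    exact (translate_hasCompactSupport hgs a).mul_right
  have hval : ∀ a b : ℝ, ∫ v, g (v + a) * (starRingEnd ℂ) (g (v + b)) = acorr g (a - b) := by
    intro a b
    rw [acorr, ← integral_add_right_eq_self (fun v ↦ g (a - b + v) * (starRingEnd ℂ) (g v)) b]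
    refine integral_congr_ae (Eventually.of_forall fun v ↦ ?_)
    have : a - b + (v + b) = v + a := by ring
    simp only [this]
  have hωω : ω * (starRingEnd ℂ) ω = 1 := by
    rw [mul_conj, normSq_eq_norm_sq, hω]
    simp
  have h1 : ∀ v, twoBump g V ω (u + v) * (starRingEnd ℂ) (twoBump g V ω v) =
      g (v + (u - V)) * (starRingEnd ℂ) (g (v + (-V))) +
      (g (v + (u + V)) * (starRingEnd ℂ) (g (v + V)) +
      ((starRingEnd ℂ) ω * (g (v + (u - V)) * (starRingEnd ℂ) (g (v + V))) +
      ω * (g (v + (u + V)) * (starRingEnd ℂ) (g (v + (-V)))))) := by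
    intro v
    unfold twoBump
    have e1 : u + v - V = v + (u - V) := by ring
    have e2 : u + v + V = v + (u + V) := by ring
    have e3 : v - V = v + -V := by ring
    rw [e1, e2, e3, map_add, map_mul]
    linear_combination (g (v + (u + V)) * (starRingEnd ℂ) (g (v + V))) * hωω
  have i1 := hint (u - V) (-V)
  have i2 := hint (u + V) V
  have i3 := (hint (u - V) V).const_mul ((starRingEnd ℂ) ω)
  have i4 := (hint (u + V) (-V)).const_mul ω
  have i34 : Integrable fun v ↦ (starRingEnd ℂ) ω * (g (v + (u - V)) * (starRingEnd ℂ) (g (v + V))) +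
      ω * (g (v + (u + V)) * (starRingEnd ℂ) (g (v + (-V)))) := i3.add i4
  have i234 : Integrable fun v ↦ g (v + (u + V)) * (starRingEnd ℂ) (g (v + V)) +
      ((starRingEnd ℂ) ω * (g (v + (u - V)) * (starRingEnd ℂ) (g (v + V))) +
      ω * (g (v + (u + V)) * (starRingEnd ℂ) (g (v + (-V))))) := i2.add i34
  rw [acorr]
  simp_rw [h1]
  rw [integral_add i1 i234, integral_add i2 i34, integral_add i3 i4, integral_const_mul,
    integral_const_mul, hval, hval, hval, hval]
  have e1 : u - V - -V = u := by ring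
  have e2 : u + V - V = u := by ring
  have e3 : u - V - V = u - 2 * V := by ring
  have e4 : u + V - -V = u + 2 * V := by ring
  rw [e1, e2, e3, e4]
  ring

lemma norm_four_twoBump_le (hg : Continuous g) (hgs : HasCompactSupport g) {ω : ℂ} (hω : ‖ω‖ = 1)
    (V t : ℝ) : ‖four (twoBump g V ω) t‖ ≤ 2 * ‖four g t‖ := by
  have hshift : ∀ a : ℝ, ∫ u : ℝ, g (u + a) * cexp (-(t * u * I)) =
      cexp (t * a * I) * four g t := by
    intro a
    rw [four, ← integral_const_mul, ← integral_add_right_eq_self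
      (fun u : ℝ ↦ cexp (t * a * I) * (g u * cexp (-(t * u * I)))) a]
    refine integral_congr_ae (Eventually.of_forall fun u ↦ ?_)
    simp only
    have : cexp (-(t * u * I)) = cexp (t * a * I) * cexp (-(t * ((u + a : ℝ) : ℂ) * I)) := by
      rw [← Complex.exp_add]
      congr 1
      push_cast
      ring
    rw [this]
    ring
  have hint : ∀ a : ℝ, Integrable fun u : ℝ ↦ g (u + a) * cexp (-(t * u * I)) := by
    intro a
    refine Continuous.integrable_of_hasCompactSupport (by fun_prop) ?_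
    exact (translate_hasCompactSupport hgs a).mul_right
  have h1 : four (twoBump g V ω) t = cexp (t * ((-V : ℝ) : ℂ) * I) * four g t +
      ω * (cexp (t * V * I) * four g t) := by
    rw [← hshift, ← hshift, ← integral_const_mul, ← integral_add (hint _) ((hint _).const_mul _),
      four]
    refine integral_congr_ae (Eventually.of_forall fun u ↦ ?_)
    simp only [twoBump]
    rw [sub_eq_add_neg]
    ring
  have hn : ∀ a : ℝ, ‖cexp (t * a * I)‖ = 1 := by
    intro a
    have : (t * a * I : ℂ) = ((t * a : ℝ) : ℂ) * I := by push_cast; ring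
    rw [this, norm_exp_ofReal_mul_I]
  rw [h1]
  refine (norm_add_le _ _).trans ?_
  rw [norm_mul, norm_mul, norm_mul, hn, hn, hω]
  linarith

/-- upper bound for the archimedean part, uniform in the translation -/
lemma arch_twoBump_le (hg : ContDiff ℝ 1 g) (hgs : HasCompactSupport g) {b : ℝ} (hb : 0 ≤ b)
    (hb1 : b ≤ 1) : ∃ C : ℝ, ∀ (V : ℝ) (ω : ℂ), ‖ω‖ = 1 → arch b (twoBump g V ω) ≤ C := by
  obtain ⟨C, hC, h⟩ := digamma_arg_growth
  have hlp : 0 ≤ Real.log Real.pi := Real.log_nonneg (by linarith [Real.pi_gt_three])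
  have hint := (integrable_four_mul hg hgs
    (g := fun t ↦ (((C + Real.log Real.pi) * (1 + |t|) ^ (1 / 2 : ℝ) : ℝ) : ℂ))
    (C := C + Real.log Real.pi) (η := 1 / 2) ?_ (by norm_num) fun t ↦ ?_).norm
  · refine ⟨1 / (2 * Real.pi) * ∫ t, 4 * ‖((‖four g t‖ ^ 2 : ℝ) : ℂ) *
      (((C + Real.log Real.pi) * (1 + |t|) ^ (1 / 2 : ℝ) : ℝ) : ℂ)‖, fun V ω hω ↦ ?_⟩
    unfold arch
    have hpi := Real.pi_pos
    refine mul_le_mul_of_nonneg_left ?_ (by positivity)
    refine le_trans (Real.le_norm_self _) ?_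
    refine norm_integral_le_of_norm_le (hint.const_mul 4) (Eventually.of_forall fun t ↦ ?_)
    rw [norm_mul, norm_mul, norm_real, norm_real]
    have h3 : ‖(digamma (1 / 4 + b / 2 + t / 2 * I)).re - Real.log Real.pi‖ ≤
        ‖(C + Real.log Real.pi) * (1 + |t|) ^ (1 / 2 : ℝ)‖ := by
      rw [Real.norm_of_nonneg (r := (C + Real.log Real.pi) * _) (by positivity)]
      have h4 : ‖(digamma (1 / 4 + b / 2 + t / 2 * I)).re‖ ≤ C * (1 + |t|) ^ (1 / 2 : ℝ) :=
        (abs_re_le_norm _).trans (h b t hb hb1)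
      have h5 : (1 : ℝ) ≤ (1 + |t|) ^ (1 / 2 : ℝ) :=
        Real.one_le_rpow (by linarith [abs_nonneg t]) (by norm_num)
      refine (norm_sub_le _ _).trans ?_
      rw [Real.norm_of_nonneg hlp]
      nlinarith
    have h6 : ‖‖four (twoBump g V ω) t‖ ^ 2‖ ≤ 4 * ‖‖four g t‖ ^ 2‖ := by
      rw [Real.norm_of_nonneg (by positivity), Real.norm_of_nonneg (by positivity)]
      have h7 := norm_four_twoBump_le hg.continuous hgs hω V t
      have h8 := norm_nonneg (four (twoBump g V ω) t)
      nlinarith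
    calc ‖‖four (twoBump g V ω) t‖ ^ 2‖ *
        ‖(digamma (1 / 4 + b / 2 + t / 2 * I)).re - Real.log Real.pi‖
        ≤ (4 * ‖‖four g t‖ ^ 2‖) * ‖(C + Real.log Real.pi) * (1 + |t|) ^ (1 / 2 : ℝ)‖ := by
          gcongr
      _ = _ := by ring
  · refine Continuous.aestronglyMeasurable ?_
    refine continuous_ofReal.comp ?_
    refine Continuous.mul continuous_const ?_
    refine Continuous.rpow_const (by fun_prop) fun t ↦ Or.inl ?_
    have := abs_nonneg t
    linarith
  · rw [norm_real, Real.norm_of_nonneg (by positivity)]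

/-- the discrepancy seen by the translated bump -/
noncomputable def disc (b : ℝ) (g : ℝ → ℂ) (U : ℝ) : ℂ :=
  (∫ u in Ioi (0 : ℝ), cexp (-((1 / 2 + (b : ℂ)) * u)) * acorr g (U - u))
    + (∫ u in Ioi (0 : ℝ), cexp (-(((b : ℂ) - 1 / 2) * u)) * acorr g (U - u))
    - ∑' n : ℕ, Λ n / (n : ℂ) ^ (1 / 2 + (b : ℂ)) * acorr g (U - Real.log n)

lemma primeSide_twoBump (hg : Continuous g) (hgs : HasCompactSupport g) {M : ℝ} (hM0 : 0 < M)
    (hM : ∀ u, M < |u| → g u = 0) (b : ℝ) {V : ℝ} (hV : M < V) {ω : ℂ} (hω : ‖ω‖ = 1) :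
    primeSide (twoBump g V ω) b = 2 * primeSide g b + ω * disc b g (2 * V) := by
  have hAc : Continuous fun u ↦ acorr g u := acorr_continuous hg hgs
  have hAs : HasCompactSupport fun u ↦ acorr g u := acorr_hasCompactSupport hgs
  have h1 : ∀ u : ℝ, 0 ≤ u → acorr (twoBump g V ω) (-u) =
      2 * acorr g (-u) + ω * acorr g (2 * V - u) := by
    intro u hu
    rw [acorr_twoBump hg hgs hω]
    have h2 : acorr g (-u - 2 * V) = 0 := by
      refine acorr_eq_zero hM ?_
      have : |-u - 2 * V| = u + 2 * V := by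
        rw [abs_of_nonpos (by linarith)]
        ring
      rw [this]
      linarith
    rw [h2]
    have : -u + 2 * V = 2 * V - u := by ring
    rw [this]
    ring
  have hint1 : ∀ c : ℂ, IntegrableOn (fun u : ℝ ↦ cexp (-(c * u)) * acorr g (-u)) (Ioi 0) := by
    intro c
    have h1 : Continuous fun u : ℝ ↦ cexp (-(c * u)) * acorr g (-u) := by fun_prop
    have h2 : HasCompactSupport fun u : ℝ ↦ cexp (-(c * u)) * acorr g (-u) :=
      (hAs.comp_homeomorph (Homeomorph.neg ℝ)).mul_left
    exact (h1.integrable_of_hasCompactSupport h2).integrableOn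
  have hint2 : ∀ c : ℂ, IntegrableOn (fun u : ℝ ↦ cexp (-(c * u)) * acorr g (2 * V - u)) (Ioi 0) := by
    intro c
    have h1 : Continuous fun u : ℝ ↦ cexp (-(c * u)) * acorr g (2 * V - u) := by fun_prop
    have h2 : HasCompactSupport fun u : ℝ ↦ cexp (-(c * u)) * acorr g (2 * V - u) :=
      (hAs.comp_homeomorph (Homeomorph.subLeft (2 * V))).mul_left
    exact (h1.integrable_of_hasCompactSupport h2).integrableOn
  have hI : ∀ c : ℂ, ∫ u in Ioi (0 : ℝ), cexp (-(c * u)) * acorr (twoBump g V ω) (-u) =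
      2 * (∫ u in Ioi (0 : ℝ), cexp (-(c * u)) * acorr g (-u)) +
      ω * ∫ u in Ioi (0 : ℝ), cexp (-(c * u)) * acorr g (2 * V - u) := by
    intro c
    rw [← integral_const_mul, ← integral_const_mul, ← integral_add ((hint1 c).const_mul 2)
      ((hint2 c).const_mul ω)]
    refine setIntegral_congr_fun measurableSet_Ioi fun u hu ↦ ?_
    have hu0 : (0 : ℝ) ≤ u := le_of_lt hu
    rw [h1 u hu0]
    ring
  obtain ⟨N, hN⟩ := exists_log_bound (2 * M + 2 * V)
  have hz1 : ∀ n : ℕ, N ≤ n → acorr g (-Real.log n) = 0 := by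
    intro n hn
    refine acorr_eq_zero hM ?_
    rw [abs_neg]
    have := hN n hn
    exact lt_of_lt_of_le (by linarith) (le_abs_self _)
  have hz2 : ∀ n : ℕ, N ≤ n → acorr g (2 * V - Real.log n) = 0 := by
    intro n hn
    refine acorr_eq_zero hM ?_
    have h2 := hN n hn
    rw [abs_of_nonpos (by linarith)]
    linarith
  have hlog : ∀ n : ℕ, 0 ≤ Real.log n := fun n ↦ Real.log_natCast_nonneg n
  have hS : ∑' n : ℕ, Λ n / (n : ℂ) ^ (1 / 2 + (b : ℂ)) * acorr (twoBump g V ω) (-Real.log n) =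
      2 * (∑' n : ℕ, Λ n / (n : ℂ) ^ (1 / 2 + (b : ℂ)) * acorr g (-Real.log n)) +
      ω * ∑' n : ℕ, Λ n / (n : ℂ) ^ (1 / 2 + (b : ℂ)) * acorr g (2 * V - Real.log n) := by
    rw [tsum_eq_sum (s := Finset.range N), tsum_eq_sum (s := Finset.range N),
      tsum_eq_sum (s := Finset.range N), Finset.mul_sum, Finset.mul_sum, ← Finset.sum_add_distrib]
    · refine Finset.sum_congr rfl fun n _ ↦ ?_
      rw [h1 _ (hlog n)]
      ring
    · intro n hn
      rw [Finset.mem_range, not_lt] at hn
      rw [hz2 n hn, mul_zero]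
    · intro n hn
      rw [Finset.mem_range, not_lt] at hn
      rw [hz1 n hn, mul_zero]
    · intro n hn
      rw [Finset.mem_range, not_lt] at hn
      rw [h1 _ (hlog n), hz1 n hn, hz2 n hn]
      ring
  rw [primeSide, primeSide, disc, hI, hI, hS]
  ring

/-- **A lower bound on two-bump functions bounds the discrepancy.** -/
lemma disc_bound (hg : ContDiff ℝ 1 g) (hgs : HasCompactSupport g) {b : ℝ} (hb : 0 ≤ b)
    (hb1 : b ≤ 1) {C ε : ℝ} (hε : 0 ≤ ε)
    (h : ∀ (V : ℝ) (ω : ℂ), 0 ≤ V → ‖ω‖ = 1 → -(C * Real.exp (ε * V)) ≤ weil b (twoBump g V ω)) :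
    ∃ C' U₀ : ℝ, 0 ≤ C' ∧ 0 ≤ U₀ ∧ ∀ U : ℝ, U₀ < U → ‖disc b g U‖ ≤ C' * Real.exp (ε / 2 * U) := by
  obtain ⟨M, hM0, hM⟩ := exists_radius hgs
  obtain ⟨A, hA⟩ := arch_twoBump_le hg hgs hb hb1
  refine ⟨|C| / 2 + (|4 * (primeSide g b).re| + |A|) / 2, 2 * M, by positivity, by positivity,
    fun U hU ↦ ?_⟩
  set V : ℝ := U / 2 with hV
  have hMV : M < V := by rw [hV]; linarith
  have hV0 : 0 ≤ V := by linarith
  have e1 : 2 * V = U := by rw [hV]; ring
  have hone : 1 ≤ Real.exp (ε / 2 * U) := Real.one_le_exp (by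
    have : 0 ≤ U := by linarith
    positivity)
  rcases eq_or_ne (disc b g U) 0 with h0 | h0
  · rw [h0, norm_zero]
    positivity
  · have hn0 : (‖disc b g U‖ : ℂ) ≠ 0 := by exact_mod_cast norm_ne_zero_iff.mpr h0
    set ω : ℂ := -(starRingEnd ℂ) (disc b g U) / ‖disc b g U‖ with hω
    have hωn : ‖ω‖ = 1 := by
      rw [hω, norm_div, norm_neg, RCLike.norm_conj, norm_real, norm_norm]
      exact div_self (norm_ne_zero_iff.mpr h0)
    have hωd : ω * disc b g U = -(‖disc b g U‖ : ℂ) := by
      rw [hω]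
      have h1 : (starRingEnd ℂ) (disc b g U) * disc b g U = (‖disc b g U‖ : ℂ) ^ 2 := by
        rw [mul_comm, mul_conj, normSq_eq_norm_sq]
        push_cast
        rfl
      field_simp
      linear_combination -h1
    have h1 := h V ω hV0 hωn
    rw [weil_eq (twoBump_continuous hg.continuous V ω) (twoBump_hasCompactSupport hgs V ω),
      primeSide_twoBump hg.continuous hgs hM0 hM b hMV hωn, e1, hωd] at h1
    have h2 := hA V ω hωn
    have h3 : (2 * primeSide g b + -(‖disc b g U‖ : ℂ)).re =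
        2 * (primeSide g b).re - ‖disc b g U‖ := by
      simp [sub_eq_add_neg]
    rw [h3] at h1
    have h4 : ε * V = ε / 2 * U := by rw [hV]; ring
    rw [h4] at h1
    have h5 := le_abs_self (4 * (primeSide g b).re)
    have h6 := le_abs_self A
    have h7 : C * Real.exp (ε / 2 * U) ≤ |C| * Real.exp (ε / 2 * U) := by
      gcongr
      exact le_abs_self C
    have h8 : 0 ≤ |4 * (primeSide g b).re| + |A| := by positivity
    nlinarith

end Pool.Agent.H6.Weil
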