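import Pool.Agent.H6.Weil.Conv1

/-!
The Laplace transform of the discrepancy.
-/

set_option autoImplicit false

open Complex Filter Topology MeasureTheory Set LSeries Metric
open scoped ArithmeticFunction.vonMangoldt Convolution

namespace Pool.Agent.H6.Weil

open Pool.Agent.H6

variable {g : ℝ → ℂ}

/-- the exponential cut off at `0` -/
noncomputable def cutExp (c : ℂ) : ℝ → ℂ := indicator (Ioi 0) fun u ↦ cexp (-(c * u))

lemma cutExp_locallyIntegrable (c : ℂ) : LocallyIntegrable (cutExp c) := by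
  unfold cutExp
  have h : Continuous fun u : ℝ ↦ cexp (-(c * u)) := by fun_prop
  exact h.locallyIntegrable.indicator measurableSet_Ioi

lemma cutExp_integrable {c : ℂ} (hc : 0 < c.re) : Integrable (cutExp c) := by
  unfold cutExp
  rw [integrable_indicator_iff measurableSet_Ioi]
  have h0 : (-c).re < 0 := by simpa using hc
  have h := integrableOn_exp_mul_complex_Ioi h0 0
  refine h.congr (Eventually.of_forall fun u ↦ ?_)
  simp only [neg_mul]

lemma integral_cutExp {c : ℂ} (hc : 0 < c.re) : ∫ u, cutExp c u = 1 / c := by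
  unfold cutExp
  rw [integral_indicator measurableSet_Ioi]
  have h0 : (-c).re < 0 := by simpa using hc
  have h2 := integral_exp_mul_complex_Ioi h0 0
  simp only [neg_mul] at h2
  rw [h2]
  simp

lemma conv_cutExp (c : ℂ) (A : ℝ → ℂ) (U : ℝ) :
    ∫ u in Ioi (0 : ℝ), cexp (-(c * u)) * A (U - u) =
      (cutExp c ⋆[ContinuousLinearMap.mul ℝ ℂ, volume] A) U := by
  rw [MeasureTheory.convolution_def, ← integral_indicator measurableSet_Ioi]
  refine integral_congr_ae (Eventually.of_forall fun u ↦ ?_)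
  simp only [ContinuousLinearMap.mul_apply', cutExp]
  by_cases hu : u ∈ Ioi (0 : ℝ)
  · rw [indicator_of_mem hu, indicator_of_mem hu]
  · rw [indicator_of_notMem hu, indicator_of_notMem hu, zero_mul]

lemma disc_continuous (hg : Continuous g) (hgs : HasCompactSupport g) (b : ℝ) :
    Continuous (disc b g) := by
  have hA := acorr_continuous hg hgs
  have hAs := acorr_hasCompactSupport hgs
  obtain ⟨M, hM0, hM⟩ := exists_radius hgs
  have h1 : ∀ c : ℂ, Continuous fun U : ℝ ↦
      ∫ u in Ioi (0 : ℝ), cexp (-(c * u)) * acorr g (U - u) := by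
    intro c
    simp_rw [conv_cutExp]
    exact hAs.continuous_convolution_right _ (cutExp_locallyIntegrable c) hA
  have h2 : Continuous fun U : ℝ ↦
      ∑' n : ℕ, Λ n / (n : ℂ) ^ (1 / 2 + (b : ℂ)) * acorr g (U - Real.log n) := by
    rw [continuous_iff_continuousAt]
    intro U₀
    obtain ⟨N, hN⟩ := exists_log_bound (2 * M + U₀ + 1)
    have h3 : (fun U : ℝ ↦ ∑' n : ℕ, Λ n / (n : ℂ) ^ (1 / 2 + (b : ℂ)) *
        acorr g (U - Real.log n)) =ᶠ[𝓝 U₀] fun U : ℝ ↦ ∑ n ∈ Finset.range N,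
        Λ n / (n : ℂ) ^ (1 / 2 + (b : ℂ)) * acorr g (U - Real.log n) := by
      filter_upwards [Iio_mem_nhds (by linarith : U₀ < U₀ + 1)] with U hU
      refine tsum_eq_sum fun n hn ↦ ?_
      rw [Finset.mem_range, not_lt] at hn
      have h4 := hN n hn
      have h5 : U < U₀ + 1 := hU
      rw [acorr_eq_zero hM, mul_zero]
      have := neg_abs_le (U - Real.log n)
      linarith
    refine ContinuousAt.congr ?_ h3.symm
    fun_prop
  exact ((h1 _).add (h1 _)).sub h2

lemma disc_eq_zero {M : ℝ} (hM : ∀ u, M < |u| → g u = 0) (b : ℝ) {U : ℝ} (hU : U < -(2 * M)) :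
    disc b g U = 0 := by
  have h1 : ∀ u : ℝ, 0 ≤ u → acorr g (U - u) = 0 := by
    intro u hu
    refine acorr_eq_zero hM ?_
    have := neg_abs_le (U - u)
    linarith
  have h2 : ∀ c : ℂ, ∫ u in Ioi (0 : ℝ), cexp (-(c * u)) * acorr g (U - u) = 0 := by
    intro c
    rw [setIntegral_congr_fun (g := fun _ ↦ (0 : ℂ)) measurableSet_Ioi]
    · simp
    · intro u hu
      simp only
      rw [h1 u (le_of_lt hu), mul_zero]
  have h3 : ∑' n : ℕ, Λ n / (n : ℂ) ^ (1 / 2 + (b : ℂ)) * acorr g (U - Real.log n) = 0 := by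
    rw [← tsum_zero (α := ℂ) (β := ℕ)]
    refine tsum_congr fun n ↦ ?_
    rw [h1 _ (Real.log_natCast_nonneg n), mul_zero]
  rw [disc, h2, h2, h3]
  simp

/-- Global form of the discrepancy bound. -/
lemma disc_global (hg : Continuous g) (hgs : HasCompactSupport g) {b : ℝ} {M : ℝ} {C U₀ ε : ℝ}
    (hC : 0 ≤ C) (hε : 0 ≤ ε) (h : ∀ U : ℝ, U₀ < U → ‖disc b g U‖ ≤ C * Real.exp (ε * U)) :
    ∃ C' : ℝ, 0 ≤ C' ∧ ∀ U : ℝ, -(2 * M + 1) < U → ‖disc b g U‖ ≤ C' * Real.exp (ε * U) := by
  obtain ⟨B, hB⟩ := (isCompact_Icc (a := -(2 * M + 1)) (b := U₀)).exists_bound_of_continuousOn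
    (disc_continuous hg hgs b).continuousOn
  refine ⟨C + |B| * Real.exp (ε * |2 * M + 1|), by positivity, fun U hU ↦ ?_⟩
  have hexp : 1 ≤ Real.exp (ε * |2 * M + 1|) * Real.exp (ε * U) := by
    rw [← Real.exp_add]
    apply Real.one_le_exp
    have : -|2 * M + 1| ≤ U := by
      have := neg_abs_le (-(2 * M + 1))
      rw [abs_neg] at this
      linarith
    nlinarith
  rcases lt_or_ge U₀ U with h1 | h1
  · refine (h U h1).trans ?_
    gcongr
    have : 0 ≤ |B| * Real.exp (ε * |2 * M + 1|) := by positivity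
    linarith
  · refine (hB U ⟨hU.le, h1⟩).trans ?_
    have h2 := le_abs_self B
    have h3 := abs_nonneg B
    have h4 : 0 ≤ C * Real.exp (ε * U) := by positivity
    nlinarith

/-- the two-sided Laplace transform of the autocorrelation -/
noncomputable def lap (g : ℝ → ℂ) (z : ℂ) : ℂ := ∫ w : ℝ, acorr g w * cexp (-(z * w))

lemma lap_differentiable (hg : Continuous g) (hgs : HasCompactSupport g) :
    Differentiable ℂ (lap g) := by
  obtain ⟨M, hM0, hM⟩ := exists_radius hgs
  have hA := acorr_continuous hg hgs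
  have hAi : Integrable (acorr g) := hA.integrable_of_hasCompactSupport (acorr_hasCompactSupport hgs)
  intro z₀
  refine differentiableAt_integral (r := 1) one_pos (g := fun w ↦
    Real.exp ((‖z₀‖ + 1) * (2 * M)) * ‖acorr g w‖) (fun z _ ↦ ?_)
    (Eventually.of_forall fun u ↦ ?_) (hAi.norm.const_mul _) (Eventually.of_forall fun u z hz ↦ ?_)
  · exact (by fun_prop : Continuous _).aestronglyMeasurable
  · fun_prop
  · rcases lt_or_ge (2 * M) |u| with h | h
    · rw [acorr_eq_zero hM h]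
      simp
    · rw [norm_mul, mul_comm]
      gcongr
      rw [Complex.norm_exp]
      apply Real.exp_le_exp.mpr
      have h1 : (-(z * u)).re = -(z.re * u) := by simp
      rw [h1]
      have h2 : |z.re| ≤ ‖z₀‖ + 1 := by
        have h3 : |z.re| ≤ ‖z‖ := abs_re_le_norm _
        rw [mem_ball, dist_eq_norm] at hz
        have := norm_add_le z₀ (z - z₀)
        rw [add_sub_cancel] at this
        linarith
      calc -(z.re * u) ≤ |z.re * u| := neg_le_abs _
        _ = |z.re| * |u| := abs_mul _ _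
        _ ≤ (‖z₀‖ + 1) * (2 * M) := by gcongr

/-- the Laplace transform of the discrepancy -/
noncomputable def discLap (b : ℝ) (g : ℝ → ℂ) (z : ℂ) : ℂ := ∫ U : ℝ, disc b g U * cexp (-(z * U))

lemma disc_exp_bound (hg : Continuous g) {b : ℝ} {M : ℝ} (hM0 : 0 < M)
    (hM : ∀ u, M < |u| → g u = 0) {C ε : ℝ} (hC : 0 ≤ C)
    (h : ∀ U : ℝ, -(2 * M + 1) < U → ‖disc b g U‖ ≤ C * Real.exp (ε * U)) {z₀ : ℂ} {r : ℝ}
    (hr : 0 < r) {z : ℂ} (hz : ‖z - z₀‖ < r) (hz₀ : ε + 2 * r ≤ z₀.re) (hε : 0 ≤ ε) (U : ℝ) :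
    ‖disc b g U * cexp (-(z * U))‖ ≤ indicator (Ioi (-(2 * M + 1))) (fun U ↦
      C * Real.exp ((‖z₀‖ + r) * (2 * M + 1)) * Real.exp (-r * U)) U := by
  have hre : |(z - z₀).re| ≤ ‖z - z₀‖ := abs_re_le_norm _
  rw [sub_re] at hre
  have hre' := abs_lt.mp (lt_of_le_of_lt hre hz)
  have hzn : z.re ≤ ‖z₀‖ + r := by
    have := re_le_norm z₀
    linarith
  by_cases hU : U ∈ Ioi (-(2 * M + 1))
  · rw [indicator_of_mem hU, norm_mul, Complex.norm_exp]
    have h1 : (-(z * U)).re = -(z.re * U) := by simp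
    rw [h1]
    have hU' : -(2 * M + 1) < U := hU
    calc ‖disc b g U‖ * Real.exp (-(z.re * U))
        ≤ (C * Real.exp (ε * U)) * Real.exp (-(z.re * U)) := by
          gcongr
          exact h U hU'
      _ = C * (Real.exp (ε * U + -(z.re * U))) := by rw [mul_assoc, Real.exp_add]
      _ ≤ C * Real.exp ((‖z₀‖ + r) * (2 * M + 1) + -r * U) := by
          refine mul_le_mul_of_nonneg_left (Real.exp_le_exp.mpr ?_) hC
          rcases le_or_gt 0 U with h2 | h2
          · have h3 : 0 ≤ (‖z₀‖ + r) * (2 * M + 1) := by positivity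
            nlinarith
          · have h3 : (z.re - ε) * (-U) ≤ (‖z₀‖ + r) * (2 * M + 1) := by
              have h4 : 0 ≤ z.re - ε := by linarith
              have h5 : 0 < -U := by linarith
              have h6 : -U ≤ 2 * M + 1 := by linarith
              have h7 : z.re - ε ≤ ‖z₀‖ + r := by linarith
              gcongr
            have h8 : 0 ≤ r * (-U) := mul_nonneg hr.le (by linarith)
            nlinarith
      _ = _ := by rw [Real.exp_add]; ring
  · rw [indicator_of_notMem hU]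
    have h1 : U ≤ -(2 * M + 1) := not_lt.mp hU
    rw [disc_eq_zero hM b (by linarith), zero_mul, norm_zero]

lemma bound_integrable (M C r : ℝ) (hr : 0 < r) :
    Integrable (indicator (Ioi (-(2 * M + 1))) (fun U : ℝ ↦ C * Real.exp (-r * U))) := by
  rw [integrable_indicator_iff measurableSet_Ioi]
  exact (integrableOn_exp_mul_Ioi (a := -r) (by linarith) _).const_mul C

lemma discLap_differentiableAt (hg : Continuous g) (hgs : HasCompactSupport g) {b : ℝ} {M : ℝ}
    (hM0 : 0 < M) (hM : ∀ u, M < |u| → g u = 0) {C ε : ℝ} (hC : 0 ≤ C) (hε : 0 ≤ ε)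
    (h : ∀ U : ℝ, -(2 * M + 1) < U → ‖disc b g U‖ ≤ C * Real.exp (ε * U)) {z₀ : ℂ}
    (hz₀ : ε < z₀.re) : DifferentiableAt ℂ (discLap b g) z₀ := by
  set r : ℝ := (z₀.re - ε) / 2 with hr
  have hr0 : 0 < r := by rw [hr]; linarith
  have hc := disc_continuous hg hgs b
  refine differentiableAt_integral hr0 (fun z _ ↦ ?_) (Eventually.of_forall fun U ↦ ?_)
    (bound_integrable M (C * Real.exp ((‖z₀‖ + r) * (2 * M + 1))) r hr0)
    (Eventually.of_forall fun U z hz ↦ ?_)
  · exact (by fun_prop : Continuous _).aestronglyMeasurable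
  · fun_prop
  · rw [mem_ball, dist_eq_norm] at hz
    exact disc_exp_bound hg hM0 hM hC h hr0 hz (by rw [hr]; linarith) hε U

/-- The Laplace transform of the discrepancy in the region of absolute convergence. -/
lemma discLap_eq (hg : Continuous g) (hgs : HasCompactSupport g) {b : ℝ} (hb : 0 ≤ b) {M : ℝ}
    (hM0 : 0 < M) (hM : ∀ u, M < |u| → g u = 0) {C ε : ℝ} (hC : 0 ≤ C) (hε : 0 ≤ ε)
    (h : ∀ U : ℝ, -(2 * M + 1) < U → ‖disc b g U‖ ≤ C * Real.exp (ε * U)) {z : ℂ}
    (hz : 1 / 2 < z.re) (hzε : ε < z.re) : discLap b g z = lap g z * Lf (1 / 2 + b + z) := by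
  have hA := acorr_continuous hg hgs
  have hAs := acorr_hasCompactSupport hgs
  have hc := disc_continuous hg hgs b
  set k : ℝ → ℂ := fun w ↦ acorr g w * cexp (-(z * w)) with hk
  have hkc : Continuous k := by fun_prop
  have hks : HasCompactSupport k := hAs.mul_right
  have hki : Integrable k := hkc.integrable_of_hasCompactSupport hks
  have hlap : lap g z = ∫ w, k w := rfl
  -- the convolution parts
  have hconv : ∀ c : ℂ, ∀ U : ℝ, (∫ u in Ioi (0 : ℝ), cexp (-(c * u)) * acorr g (U - u)) *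
      cexp (-(z * U)) = (cutExp (c + z) ⋆[ContinuousLinearMap.mul ℝ ℂ, volume] k) U := by
    intro c U
    rw [← conv_cutExp, ← integral_mul_const]
    refine setIntegral_congr_fun measurableSet_Ioi fun u _ ↦ ?_
    simp only [hk]
    have h1 : cexp (-(c * u)) * cexp (-(z * U)) =
        cexp (-((c + z) * u)) * cexp (-(z * ((U - u : ℝ) : ℂ))) := by
      rw [← Complex.exp_add, ← Complex.exp_add]
      congr 1
      push_cast
      ring
    linear_combination acorr g (U - u) * h1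
  have hc1 : 0 < (1 / 2 + (b : ℂ) + z).re := by
    simp; linarith
  have hc2 : 0 < ((b : ℂ) - 1 / 2 + z).re := by
    simp; linarith
  have i1 : Integrable (cutExp (1 / 2 + (b : ℂ) + z) ⋆[ContinuousLinearMap.mul ℝ ℂ, volume] k) :=
    (cutExp_integrable hc1).integrable_convolution _ hki
  have i2 : Integrable (cutExp ((b : ℂ) - 1 / 2 + z) ⋆[ContinuousLinearMap.mul ℝ ℂ, volume] k) :=
    (cutExp_integrable hc2).integrable_convolution _ hki
  have v1 : ∫ U, (cutExp (1 / 2 + (b : ℂ) + z) ⋆[ContinuousLinearMap.mul ℝ ℂ, volume] k) U =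
      1 / (1 / 2 + (b : ℂ) + z) * lap g z := by
    rw [integral_convolution _ (cutExp_integrable hc1) hki, integral_cutExp hc1]
    rfl
  have v2 : ∫ U, (cutExp ((b : ℂ) - 1 / 2 + z) ⋆[ContinuousLinearMap.mul ℝ ℂ, volume] k) U =
      1 / ((b : ℂ) - 1 / 2 + z) * lap g z := by
    rw [integral_convolution _ (cutExp_integrable hc2) hki, integral_cutExp hc2]
    rfl
  -- the prime part
  have hs1 : 1 < (1 / 2 + (b : ℂ) + z).re := by
    simp; linarith
  set P : ℝ → ℂ := fun U ↦ ∑' n : ℕ, term (fun n ↦ ((Λ n : ℝ) : ℂ)) (1 / 2 + (b : ℂ) + z) n *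
    k (U - Real.log n) with hP
  have hterm : ∀ (n : ℕ) (U : ℝ), Λ n / (n : ℂ) ^ (1 / 2 + (b : ℂ)) * acorr g (U - Real.log n) *
      cexp (-(z * U)) = term (fun n ↦ ((Λ n : ℝ) : ℂ)) (1 / 2 + (b : ℂ) + z) n *
        k (U - Real.log n) := by
    intro n U
    rcases eq_or_ne n 0 with rfl | hn
    · simp
    · have hnc : (n : ℂ) ≠ 0 := by exact_mod_cast hn
      have h0 : (n : ℂ) ^ (1 / 2 + (b : ℂ) + z) = (n : ℂ) ^ (1 / 2 + (b : ℂ)) * (n : ℂ) ^ z :=
        cpow_add _ _ hnc
      rw [term_of_ne_zero hn, h0]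
      simp only [hk]
      have h1 : (n : ℂ) ^ z = cexp (z * Real.log n) := by
        rw [cpow_def_of_ne_zero hnc, natCast_log, mul_comm]
      have h2 : cexp (-(z * U)) = (cexp (z * Real.log n))⁻¹ *
          cexp (-(z * ((U - Real.log n : ℝ) : ℂ))) := by
        rw [← Complex.exp_neg, ← Complex.exp_add]
        congr 1
        push_cast
        ring
      rw [h1, h2]
      field_simp
  have hnt : Summable fun n : ℕ ↦ ‖term (fun n ↦ ((Λ n : ℝ) : ℂ)) (1 / 2 + (b : ℂ) + z) n‖ :=
    (ArithmeticFunction.LSeriesSummable_vonMangoldt hs1).norm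
  have hPi : ∀ n : ℕ, Integrable fun U : ℝ ↦
      term (fun n ↦ ((Λ n : ℝ) : ℂ)) (1 / 2 + (b : ℂ) + z) n * k (U - Real.log n) :=
    fun n ↦ (hki.comp_sub_right _).const_mul _
  have hPs : Summable fun n : ℕ ↦ ∫ U : ℝ,
      ‖term (fun n ↦ ((Λ n : ℝ) : ℂ)) (1 / 2 + (b : ℂ) + z) n * k (U - Real.log n)‖ := by
    simp_rw [norm_mul, integral_const_mul]
    have h1 : ∀ n : ℕ, ∫ U : ℝ, ‖k (U - Real.log n)‖ = ∫ U : ℝ, ‖k U‖ := fun n ↦
      integral_sub_right_eq_self (fun U ↦ ‖k U‖) _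
    simp_rw [h1]
    exact hnt.mul_right _
  have v3 : ∫ U, P U = LSeries (fun n ↦ ((Λ n : ℝ) : ℂ)) (1 / 2 + (b : ℂ) + z) * lap g z := by
    have key := hasSum_integral_of_summable_integral_norm hPi hPs
    rw [hP, ← key.tsum_eq, LSeries, ← tsum_mul_right]
    refine tsum_congr fun n ↦ ?_
    rw [integral_const_mul, integral_sub_right_eq_self, hlap]
  -- put together
  have hφ : ∀ U : ℝ, disc b g U * cexp (-(z * U)) =
      (cutExp (1 / 2 + (b : ℂ) + z) ⋆[ContinuousLinearMap.mul ℝ ℂ, volume] k) U +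
      (cutExp ((b : ℂ) - 1 / 2 + z) ⋆[ContinuousLinearMap.mul ℝ ℂ, volume] k) U - P U := by
    intro U
    rw [disc, sub_mul, add_mul, hconv, hconv]
    congr 1
    rw [← tsum_mul_right]
    exact tsum_congr fun n ↦ hterm n U
  have hφi : Integrable fun U : ℝ ↦ disc b g U * cexp (-(z * U)) := by
    set r : ℝ := (z.re - ε) / 2 with hr
    have hr0 : 0 < r := by rw [hr]; linarith
    refine (bound_integrable M (C * Real.exp ((‖z‖ + r) * (2 * M + 1))) r hr0).mono'
      (by fun_prop : Continuous _).aestronglyMeasurable (Eventually.of_forall fun U ↦ ?_)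
    exact disc_exp_bound hg hM0 hM hC h hr0 (by simpa using hr0) (by rw [hr]; linarith) hε U
  have i12 : Integrable fun U ↦
      (cutExp (1 / 2 + (b : ℂ) + z) ⋆[ContinuousLinearMap.mul ℝ ℂ, volume] k) U +
      (cutExp ((b : ℂ) - 1 / 2 + z) ⋆[ContinuousLinearMap.mul ℝ ℂ, volume] k) U := i1.add i2
  have i3 : Integrable P := by
    refine (i12.sub hφi).congr (Eventually.of_forall fun U ↦ ?_)
    simp only [Pi.sub_apply]
    rw [hφ U]
    ring
  rw [discLap]
  simp_rw [hφ]
  rw [integral_sub i12 i3, integral_add i1 i2, v1, v2, v3, Lf, Zld_eq_tsum hs1]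
  have : (1 / 2 + (b : ℂ) + z - 1 : ℂ) = (b : ℂ) - 1 / 2 + z := by ring
  rw [this]
  ring

end Pool.Agent.H6.Weil
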