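import Mathlib

/-!
Definitions: Weil's quadratic functional with damping `e^(-b|u|)`.
-/

set_option autoImplicit false

open Complex MeasureTheory Set
open scoped ArithmeticFunction.vonMangoldt

namespace Pool.Agent.H6.Weil

/-- The autocorrelation `u ↦ ∫ f (u + v) conj (f v) dv`. -/
noncomputable def acorr (f : ℝ → ℂ) (u : ℝ) : ℂ :=
  ∫ v : ℝ, f (u + v) * (starRingEnd ℂ) (f v)

/-- The Fourier transform `t ↦ ∫ f u exp (-i t u) du`. -/
noncomputable def four (f : ℝ → ℂ) (t : ℝ) : ℂ :=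
  ∫ u : ℝ, f u * cexp (-(t * u * I))

/-- Weil's quadratic functional with damping parameter `b`; `b = 0` is Weil's functional. -/
noncomputable def weil (b : ℝ) (f : ℝ → ℂ) : ℝ :=
  2 * (∫ u in Ioi (0 : ℝ), (Real.exp ((1 / 2 - b) * u) + Real.exp (-(1 / 2 + b) * u)) *
      (acorr f u).re)
    - 2 * ∑' n : ℕ, Λ n / (n : ℝ) ^ (1 / 2 + b) * (acorr f (Real.log n)).re
    + 1 / (2 * Real.pi) * ∫ t : ℝ, ‖four f t‖ ^ 2 *
        ((digamma (1 / 4 + b / 2 + t / 2 * I)).re - Real.log Real.pi)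

/-- The square of the Sobolev norm of order `k`. -/
noncomputable def sob (k : ℕ) (f : ℝ → ℂ) : ℝ :=
  ∑ j ∈ Finset.range (k + 1), ∫ u : ℝ, ‖iteratedDeriv j f u‖ ^ 2

end Pool.Agent.H6.Weil
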