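import Pool.Agent.H6.Digamma

/-!
The digamma function in a right half-plane.
-/

set_option autoImplicit false

open Complex Filter Topology MeasureTheory Set

namespace Pool.Agent.H6.Weil

open Pool.Agent.H6

/-- **The logarithmic derivative of Gamma** up to a bounded error. -/
theorem digamma_bound_re {δ : ℝ} (hδ : 0 < δ) : ∃ C : ℝ, 0 < C ∧ ∀ s : ℂ, δ ≤ s.re →
    ‖digamma s - Complex.log s‖ ≤ C := by
  set c : ℝ := min 1 (δ ^ 2) with hc
  have hc0 : 0 < c := lt_min one_pos (by positivity)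
  set S : ℝ := ∑' j : ℕ, 1 / (c * ((j : ℝ) ^ 2 + 1)) with hS
  refine ⟨S + 1, ?_, fun s hsδ ↦ ?_⟩
  · have : 0 ≤ S := tsum_nonneg fun j ↦ by positivity
    linarith
  have hs : 0 < s.re := by linarith
  rw [digamma_def, logDeriv_apply]
  have hs0 : s ≠ 0 := by intro h; rw [h, zero_re] at hs; exact lt_irrefl _ hs
  have hlim : Tendsto (fun n : ℕ ↦ deriv (fun z ↦ GammaSeq z n) s / GammaSeq s n) atTop
      (𝓝 (deriv Gamma s / Gamma s)) :=
    (deriv_GammaSeq_tendsto hs).div (GammaSeq_tendsto_Gamma s) (Gamma_ne_zero_of_re_pos hs)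
  -- the telescoping sum
  have htel : ∀ n : ℕ, ‖∑ j ∈ Finset.range n, 1 / (s + j) - (Complex.log (s + n) - Complex.log s)‖
      ≤ S := by
    intro n
    have h1 : ∑ j ∈ Finset.range n, 1 / (s + j) - (Complex.log (s + n) - Complex.log s) =
        ∑ j ∈ Finset.range n, (1 / (s + j) - (Complex.log (s + j + 1) - Complex.log (s + j))) := by
      rw [Finset.sum_sub_distrib]
      congr 1
      have := Finset.sum_range_sub (fun j : ℕ ↦ Complex.log (s + j)) n
      simp only [Nat.cast_zero, add_zero] at this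
      rw [← this]
      refine Finset.sum_congr rfl fun j _ ↦ ?_
      push_cast
      rw [add_assoc]
    rw [h1]
    refine (norm_sum_le _ _).trans ?_
    have h2 : ∑ j ∈ Finset.range n, ‖1 / (s + j) - (Complex.log (s + j + 1) - Complex.log (s + j))‖
        ≤ ∑ j ∈ Finset.range n, 1 / (c * ((j : ℝ) ^ 2 + 1)) := by
      refine Finset.sum_le_sum fun j _ ↦ ?_
      have hj : (0 : ℝ) ≤ j := Nat.cast_nonneg j
      refine (log_step (s := s + j) (by simp; linarith)).trans ?_
      have h3 : c * ((j : ℝ) ^ 2 + 1) ≤ ‖s + j‖ ^ 2 := by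
        rw [← normSq_eq_norm_sq, normSq_apply]
        simp only [add_re, natCast_re, add_im, natCast_im, add_zero]
        have h4 : c ≤ 1 := min_le_left _ _
        have h5 : c ≤ δ ^ 2 := min_le_right _ _
        have h6 : c * (j : ℝ) ^ 2 ≤ (j : ℝ) ^ 2 := by nlinarith [sq_nonneg (j : ℝ)]
        nlinarith [mul_self_nonneg s.im]
      gcongr
    refine h2.trans ?_
    have hsm : Summable fun j : ℕ ↦ 1 / (c * ((j : ℝ) ^ 2 + 1)) := by
      refine (summable_sq_one.mul_left (1 / c)).congr fun j ↦ ?_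
      field_simp
    exact hsm.sum_le_tsum _ fun j _ ↦ by positivity
  -- the limit of `log n - log (s + n + 1)`
  have hlog : Tendsto (fun n : ℕ ↦ ((Real.log n : ℝ) : ℂ) - Complex.log (s + ((n + 1 : ℕ) : ℂ)))
      atTop (𝓝 0) := by
    have h1 : Tendsto (fun n : ℕ ↦ 1 + (s + 1) / (n : ℂ)) atTop (𝓝 (1 + 0)) := by
      apply Tendsto.const_add
      exact tendsto_const_div_atTop_nhds_zero_nat (s + 1)
    rw [add_zero] at h1
    have h2 : Tendsto (fun n : ℕ ↦ Complex.log (1 + (s + 1) / (n : ℂ))) atTop (𝓝 0) := by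
      have := (continuousAt_clog (x := 1) (by simp)).tendsto.comp h1
      simpa [Function.comp_def] using this
    have h3 : Tendsto (fun n : ℕ ↦ - Complex.log (1 + (s + 1) / (n : ℂ))) atTop (𝓝 0) := by
      simpa using h2.neg
    refine h3.congr' ?_
    filter_upwards [eventually_ne_atTop 0] with n hn
    have hn0 : (0 : ℝ) < n := by exact_mod_cast Nat.pos_of_ne_zero hn
    have hnc : (n : ℂ) ≠ 0 := by exact_mod_cast hn
    have h4 : s + ((n + 1 : ℕ) : ℂ) = ((n : ℝ) : ℂ) * (1 + (s + 1) / (n : ℂ)) := by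
      push_cast
      field_simp
      ring
    have h5 : 1 + (s + 1) / (n : ℂ) ≠ 0 := by
      intro h
      have h6 := congrArg Complex.re h
      have e : (s + 1) / (n : ℂ) = (s + 1) / ((n : ℝ) : ℂ) := by push_cast; rfl
      rw [add_re, one_re, e, div_ofReal_re, add_re, one_re, zero_re] at h6
      have : 0 < (s.re + 1) / (n : ℝ) := by positivity
      linarith
    rw [h4, Complex.log_ofReal_mul hn0 h5]
    ring
  -- pass to the limit
  have hbound : ∀ᶠ n : ℕ in atTop,
      ‖deriv (fun z ↦ GammaSeq z n) s / GammaSeq s n - Complex.log s‖ ≤ S +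
        ‖((Real.log n : ℝ) : ℂ) - Complex.log (s + ((n + 1 : ℕ) : ℂ))‖ := by
    filter_upwards [eventually_ne_atTop 0] with n hn
    rw [logDeriv_GammaSeq hs hn]
    have h1 : ((Real.log n : ℝ) : ℂ) - ∑ j ∈ Finset.range (n + 1), 1 / (s + j) - Complex.log s =
        -(∑ j ∈ Finset.range (n + 1), 1 / (s + j) -
          (Complex.log (s + ((n + 1 : ℕ) : ℂ)) - Complex.log s)) +
        (((Real.log n : ℝ) : ℂ) - Complex.log (s + ((n + 1 : ℕ) : ℂ))) := by ring
    rw [h1]
    refine (norm_add_le _ _).trans ?_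
    rw [norm_neg]
    have := htel (n + 1)
    linarith
  have h1 : Tendsto (fun n : ℕ ↦ ‖deriv (fun z ↦ GammaSeq z n) s / GammaSeq s n - Complex.log s‖)
      atTop (𝓝 ‖deriv Gamma s / Gamma s - Complex.log s‖) := (hlim.sub_const _).norm
  have h2 : Tendsto (fun n : ℕ ↦ S +
        ‖((Real.log n : ℝ) : ℂ) - Complex.log (s + ((n + 1 : ℕ) : ℂ))‖) atTop (𝓝 (S + 0)) := by
    apply Tendsto.const_add
    simpa using hlog.norm
  have h3 := le_of_tendsto_of_tendsto h1 h2 hbound
  linarith


lemma digamma_differentiableAt {s : ℂ} (hs : 0 < s.re) : DifferentiableAt ℂ digamma s := by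
  have h1 : AnalyticAt ℂ Gamma s := by
    have hopen : IsOpen {s : ℂ | 0 < s.re} := isOpen_lt continuous_const continuous_re
    have hd : DifferentiableOn ℂ Gamma {s : ℂ | 0 < s.re} := by
      intro z hz
      refine (differentiableAt_Gamma z fun m h ↦ ?_).differentiableWithinAt
      have hz' : 0 < z.re := hz
      rw [h] at hz'
      simp at hz'
      have : (0 : ℝ) ≤ m := Nat.cast_nonneg m
      linarith
    exact hd.analyticAt (hopen.mem_nhds hs)
  rw [digamma_def]
  exact (h1.deriv.differentiableAt).div h1.differentiableAt (Gamma_ne_zero_of_re_pos hs)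

/-- growth of the digamma function -/
lemma digamma_growth {δ : ℝ} (hδ : 0 < δ) {η : ℝ} (hη : 0 < η) : ∃ C : ℝ, 0 ≤ C ∧
    ∀ s : ℂ, δ ≤ s.re → ‖digamma s‖ ≤ C * (1 + ‖s‖) ^ η := by
  obtain ⟨C, hC, h⟩ := digamma_bound_re hδ
  refine ⟨C + |Real.log δ| + 1 / η + Real.pi, by positivity, fun s hs ↦ ?_⟩
  have hs0 : 0 < ‖s‖ := lt_of_lt_of_le (by linarith) (re_le_norm s)
  have hone : (1 : ℝ) ≤ (1 + ‖s‖) ^ η := Real.one_le_rpow (by linarith) hη.le
  have h1 : ‖Complex.log s‖ ≤ |Real.log ‖s‖| + Real.pi := by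
    have h2 := norm_le_abs_re_add_abs_im (Complex.log s)
    rw [log_re, log_im] at h2
    exact h2.trans (by gcongr; exact abs_arg_le_pi s)
  have h3 : |Real.log ‖s‖| ≤ |Real.log δ| + (1 + ‖s‖) ^ η / η := by
    have h4 : Real.log δ ≤ Real.log ‖s‖ :=
      Real.log_le_log hδ (hs.trans (re_le_norm s))
    have h5 : Real.log ‖s‖ ≤ (1 + ‖s‖) ^ η / η :=
      (Real.log_le_log hs0 (by linarith)).trans (Real.log_le_rpow_div (by linarith) hη)
    rw [abs_le]
    have h6 : 0 ≤ (1 + ‖s‖) ^ η / η := by positivity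
    constructor
    · have := neg_abs_le (Real.log δ)
      linarith
    · have := abs_nonneg (Real.log δ)
      linarith
  have h7 : ‖digamma s‖ ≤ C + ‖Complex.log s‖ := by
    have := norm_add_le (digamma s - Complex.log s) (Complex.log s)
    rw [sub_add_cancel] at this
    linarith [h s hs]
  have hpi := Real.pi_pos
  have h8 := abs_nonneg (Real.log δ)
  calc ‖digamma s‖ ≤ C + |Real.log δ| + (1 + ‖s‖) ^ η / η + Real.pi := by linarith
    _ ≤ C * (1 + ‖s‖) ^ η + |Real.log δ| * (1 + ‖s‖) ^ η + (1 + ‖s‖) ^ η / η +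
        Real.pi * (1 + ‖s‖) ^ η := by
          gcongr
          · nlinarith
          · nlinarith
          · nlinarith
    _ = (C + |Real.log δ| + 1 / η + Real.pi) * (1 + ‖s‖) ^ η := by ring

end Pool.Agent.H6.Weil
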