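import Pool.Agent.H6.Weil.Defs

/-!
Fourier inversion for the autocorrelation of a `C^1` function of compact support.
-/

set_option autoImplicit false

open Complex MeasureTheory Set Filter Topology
open scoped FourierTransform

namespace Pool.Agent.H6.Weil

lemma four_eq (f : ℝ → ℂ) (t : ℝ) : four f t = 𝓕 f (t / (2 * Real.pi)) := by
  rw [Real.fourier_eq', four]
  refine integral_congr_ae (Eventually.of_forall fun u ↦ ?_)
  simp only [smul_eq_mul]
  rw [mul_comm]
  congr 2
  have : (Real.pi : ℂ) ≠ 0 := by exact_mod_cast Real.pi_ne_zero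
  simp only [RCLike.inner_apply, conj_trivial]
  push_cast
  field_simp

variable {f : ℝ → ℂ}

lemma four_continuous (hf : Continuous f) (hs : HasCompactSupport f) : Continuous (four f) := by
  have h : four f = fun t ↦ 𝓕 f (t / (2 * Real.pi)) := by
    ext t
    exact four_eq f t
  rw [h]
  have h1 : Continuous (𝓕 f) :=
    VectorFourier.fourierIntegral_continuous Real.continuous_fourierChar
      (by exact continuous_inner) (hf.integrable_of_hasCompactSupport hs)
  exact h1.comp (by fun_prop)

lemma norm_four_le (f : ℝ → ℂ) (t : ℝ) : ‖four f t‖ ≤ ∫ u, ‖f u‖ := by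
  rw [four]
  refine (norm_integral_le_integral_norm _).trans (le_of_eq ?_)
  refine integral_congr_ae (Eventually.of_forall fun u ↦ ?_)
  simp only [norm_mul]
  have : (-(t * u * I) : ℂ) = ((-(t * u) : ℝ) : ℂ) * I := by push_cast; ring
  rw [this, norm_exp_ofReal_mul_I, mul_one]

lemma four_deriv (hf : ContDiff ℝ 1 f) (hs : HasCompactSupport f) (t : ℝ) :
    four (deriv f) t = t * I * four f t := by
  rw [four_eq, four_eq]
  have hd : Differentiable ℝ f := hf.differentiable one_ne_zero
  have hi : Integrable f := hf.continuous.integrable_of_hasCompactSupport hs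
  have hi' : Integrable (deriv f) :=
    (hf.continuous_deriv le_rfl).integrable_of_hasCompactSupport hs.deriv
  rw [Real.fourier_deriv hi hd hi']
  have : (Real.pi : ℂ) ≠ 0 := by exact_mod_cast Real.pi_ne_zero
  simp only [smul_eq_mul]
  push_cast
  field_simp

/-- decay of the Fourier transform -/
lemma four_decay (hf : ContDiff ℝ 1 f) (hs : HasCompactSupport f) (t : ℝ) :
    ‖four f t‖ ≤ ((∫ u, ‖f u‖) + ∫ u, ‖deriv f u‖) / (1 + |t|) := by
  have h1 := norm_four_le f t
  have h2 := norm_four_le (deriv f) t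
  rw [four_deriv hf hs, norm_mul, norm_mul, norm_I, mul_one, norm_real, Real.norm_eq_abs] at h2
  rw [le_div_iff₀ (by positivity)]
  nlinarith

lemma acorr_neg (f : ℝ → ℂ) (u : ℝ) : acorr f (-u) = (starRingEnd ℂ) (acorr f u) := by
  rw [acorr, acorr, ← integral_conj]
  rw [← integral_add_left_eq_self (fun v ↦ f (-u + v) * (starRingEnd ℂ) (f v)) u]
  refine integral_congr_ae (Eventually.of_forall fun v ↦ ?_)
  simp only [map_mul, starRingEnd_self_apply]
  rw [neg_add_cancel_left, mul_comm]

lemma exists_radius (hs : HasCompactSupport f) : ∃ M : ℝ, 0 < M ∧ ∀ u, M < |u| → f u = 0 := by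
  obtain ⟨M, hM⟩ := hs.isCompact.isBounded.subset_closedBall 0
  refine ⟨max M 1, lt_of_lt_of_le one_pos (le_max_right _ _), fun u hu ↦ ?_⟩
  by_contra hne
  have h1 := hM (subset_tsupport f (Function.mem_support.mpr hne))
  rw [mem_closedBall_zero_iff, Real.norm_eq_abs] at h1
  have := le_max_left M 1
  linarith

lemma acorr_eq_zero {M : ℝ} (hM : ∀ u, M < |u| → f u = 0) {u : ℝ} (hu : 2 * M < |u|) :
    acorr f u = 0 := by
  rw [acorr]
  refine integral_eq_zero_of_ae (Eventually.of_forall fun v ↦ ?_)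
  simp only [Pi.zero_apply, mul_eq_zero, map_eq_zero]
  by_contra h
  push Not at h
  have h1 : |u + v| ≤ M := by
    by_contra h2
    exact h.1 (hM _ (not_le.mp h2))
  have h2 : |v| ≤ M := by
    by_contra h2
    exact h.2 (hM _ (not_le.mp h2))
  have h3 : |u| ≤ |u + v| + |v| := by
    have : u = (u + v) - v := by ring
    calc |u| = |(u + v) - v| := by rw [← this]
      _ ≤ |u + v| + |v| := abs_sub _ _
  linarith

lemma acorr_hasCompactSupport (hs : HasCompactSupport f) : HasCompactSupport (acorr f) := by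
  obtain ⟨M, -, hM⟩ := exists_radius hs
  refine HasCompactSupport.of_support_subset_isCompact (isCompact_Icc (a := -(2 * M)) (b := 2 * M)) ?_
  intro u hu
  rw [mem_Icc, ← abs_le]
  by_contra h
  exact hu (acorr_eq_zero hM (not_le.mp h))

lemma acorr_continuous (hf : Continuous f) (hs : HasCompactSupport f) : Continuous (acorr f) := by
  obtain ⟨B, hB⟩ := hs.exists_bound_of_continuous hf
  have hint : Integrable (fun v ↦ B * ‖f v‖) :=
    ((hf.integrable_of_hasCompactSupport hs).norm).const_mul B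
  refine continuous_of_dominated (bound := fun v ↦ B * ‖f v‖) (fun u ↦ ?_) (fun u ↦ ?_) hint ?_
  · exact Continuous.aestronglyMeasurable (by fun_prop)
  · filter_upwards with v
    rw [norm_mul, RCLike.norm_conj]
    gcongr
    exact hB _
  · filter_upwards with v
    fun_prop

/-- The Fourier transform of the autocorrelation. -/
lemma four_acorr (hf : Continuous f) (hs : HasCompactSupport f) (t : ℝ) :
    four (acorr f) t = ((‖four f t‖ ^ 2 : ℝ) : ℂ) := by
  have hi : Integrable f := hf.integrable_of_hasCompactSupport hs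
  have hi' : Integrable (fun v ↦ (starRingEnd ℂ) (f v)) := by
    refine hi.norm.mono' (by fun_prop : Continuous _).aestronglyMeasurable ?_
    filter_upwards with v
    rw [RCLike.norm_conj]
  -- the double integral
  have hprod : Integrable (fun p : ℝ × ℝ ↦ (f p.1 * cexp (-(t * p.1 * I))) *
      ((starRingEnd ℂ) (f p.2) * cexp (t * p.2 * I))) (volume.prod volume) := by
    refine Integrable.mul_prod (f := fun u : ℝ ↦ f u * cexp (-(t * u * I)))
      (g := fun v : ℝ ↦ (starRingEnd ℂ) (f v) * cexp (t * v * I)) ?_ ?_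
    · refine hi.norm.mono' (by fun_prop : Continuous _).aestronglyMeasurable ?_
      filter_upwards with v
      rw [norm_mul]
      have : (-(t * v * I) : ℂ) = ((-(t * v) : ℝ) : ℂ) * I := by push_cast; ring
      rw [this, norm_exp_ofReal_mul_I, mul_one]
    · refine hi.norm.mono' (by fun_prop : Continuous _).aestronglyMeasurable ?_
      filter_upwards with v
      rw [norm_mul, RCLike.norm_conj]
      have : (t * v * I : ℂ) = ((t * v : ℝ) : ℂ) * I := by push_cast; ring
      rw [this, norm_exp_ofReal_mul_I, mul_one]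
  have hcontA : Continuous (fun p : ℝ × ℝ ↦ f (p.1 + p.2) * (starRingEnd ℂ) (f p.2) *
      cexp (-(t * p.1 * I))) := by fun_prop
  have hsuppA : HasCompactSupport (fun p : ℝ × ℝ ↦ f (p.1 + p.2) * (starRingEnd ℂ) (f p.2) *
      cexp (-(t * p.1 * I))) := by
    obtain ⟨M, hM0, hM⟩ := exists_radius hs
    refine HasCompactSupport.of_support_subset_isCompact
      ((isCompact_Icc (a := -(2 * M)) (b := 2 * M)).prod (isCompact_Icc (a := -M) (b := M))) ?_
    rintro ⟨u, v⟩ huv
    simp only [Function.mem_support, ne_eq, mul_eq_zero, not_or, map_eq_zero] at huv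
    have h1 : |u + v| ≤ M := by
      by_contra h2
      exact huv.1.1 (hM _ (not_le.mp h2))
    have h2 : |v| ≤ M := by
      by_contra h2
      exact huv.1.2 (hM _ (not_le.mp h2))
    have h3 := abs_le.mp h1
    have h4 := abs_le.mp h2
    exact ⟨⟨by linarith, by linarith⟩, ⟨h4.1, h4.2⟩⟩
  have hintA : Integrable (fun p : ℝ × ℝ ↦ f (p.1 + p.2) * (starRingEnd ℂ) (f p.2) *
      cexp (-(t * p.1 * I))) (volume.prod volume) := by
    exact hcontA.integrable_of_hasCompactSupport hsuppA
  have h1 : four (acorr f) t = ∫ u : ℝ, ∫ v : ℝ, f (u + v) * (starRingEnd ℂ) (f v) *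
      cexp (-(t * u * I)) := by
    rw [four]
    refine integral_congr_ae (Eventually.of_forall fun u ↦ ?_)
    simp only [acorr]
    rw [integral_mul_const]
  rw [h1, integral_integral_swap hintA]
  have h2 : ∀ v : ℝ, ∫ u : ℝ, f (u + v) * (starRingEnd ℂ) (f v) * cexp (-(t * u * I))
      = (starRingEnd ℂ) (f v) * cexp (t * v * I) * four f t := by
    intro v
    rw [four, ← integral_const_mul, ← integral_add_right_eq_self
      (fun u : ℝ ↦ (starRingEnd ℂ) (f v) * cexp (t * v * I) * (f u * cexp (-(t * u * I)))) v]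
    refine integral_congr_ae (Eventually.of_forall fun u ↦ ?_)
    simp only
    have h3 : cexp (-(t * u * I)) = cexp (t * v * I) * cexp (-(t * ((u + v : ℝ) : ℂ) * I)) := by
      rw [← Complex.exp_add]
      congr 1
      push_cast
      ring
    rw [h3]
    ring
  simp_rw [h2]
  rw [integral_mul_const]
  have h4 : ∫ v : ℝ, (starRingEnd ℂ) (f v) * cexp (t * v * I) = (starRingEnd ℂ) (four f t) := by
    rw [four, ← integral_conj]
    refine integral_congr_ae (Eventually.of_forall fun v ↦ ?_)
    simp only [map_mul]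
    congr 1
    rw [← Complex.exp_conj]
    congr 1
    simp
  rw [h4, mul_comm, mul_conj, normSq_eq_norm_sq]

lemma integrable_of_decay {F : ℝ → ℝ} (hF : AEStronglyMeasurable F) {C η : ℝ} (hη : η < 1)
    (h : ∀ t, ‖F t‖ ≤ C * (1 + |t|) ^ (η - 2)) : Integrable F := by
  refine Integrable.mono' (g := fun t : ℝ ↦ C * (1 + |t|) ^ (η - 2)) ?_ hF
    (Eventually.of_forall h)
  have h1 := integrable_one_add_norm (E := ℝ) (μ := volume) (r := 2 - η) (by simp; linarith)
  have h2 := h1.const_mul C
  refine h2.congr (Eventually.of_forall fun t ↦ ?_)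
  simp only [Real.norm_eq_abs]
  congr 2
  ring

lemma four_sq_decay (hf : ContDiff ℝ 1 f) (hs : HasCompactSupport f) :
    ∃ C : ℝ, 0 ≤ C ∧ ∀ t : ℝ, ‖four f t‖ ^ 2 ≤ C * (1 + |t|) ^ (-2 : ℝ) := by
  set A : ℝ := (∫ u, ‖f u‖) + ∫ u, ‖deriv f u‖ with hA
  refine ⟨A ^ 2, by positivity, fun t ↦ ?_⟩
  have h1 := four_decay hf hs t
  have h0 : (0 : ℝ) < 1 + |t| := by positivity
  have h2 : ‖four f t‖ ^ 2 ≤ (A / (1 + |t|)) ^ 2 := by
    gcongr
  refine h2.trans (le_of_eq ?_)
  rw [Real.rpow_neg h0.le, div_pow]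
  norm_cast

/-- integrability of `|F|^2` times a function of small growth -/
lemma integrable_four_mul (hf : ContDiff ℝ 1 f) (hs : HasCompactSupport f) {g : ℝ → ℂ}
    (hg : AEStronglyMeasurable g) {C η : ℝ} (hη : η < 1) (h : ∀ t, ‖g t‖ ≤ C * (1 + |t|) ^ η) :
    Integrable (fun t : ℝ ↦ ((‖four f t‖ ^ 2 : ℝ) : ℂ) * g t) := by
  obtain ⟨C', hC', h'⟩ := four_sq_decay hf hs
  have hc := four_continuous hf.continuous hs
  have hm : AEStronglyMeasurable (fun t : ℝ ↦ ((‖four f t‖ ^ 2 : ℝ) : ℂ) * g t) := by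
    refine AEStronglyMeasurable.mul ?_ hg
    exact (by fun_prop : Continuous fun t : ℝ ↦ ((‖four f t‖ ^ 2 : ℝ) : ℂ)).aestronglyMeasurable
  have hC : 0 ≤ C := by
    have := (norm_nonneg _).trans (h 0)
    simpa using this
  rw [← integrable_norm_iff hm]
  refine integrable_of_decay (C := C' * C) (η := η) hm.norm hη fun t ↦ ?_
  have h0 : (0 : ℝ) < 1 + |t| := by positivity
  rw [norm_norm, norm_mul, norm_real, Real.norm_of_nonneg (by positivity)]
  calc ‖four f t‖ ^ 2 * ‖g t‖ ≤ (C' * (1 + |t|) ^ (-2 : ℝ)) * (C * (1 + |t|) ^ η) := by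
        gcongr
        · exact h' t
        · exact h t
    _ = C' * C * ((1 + |t|) ^ (-2 : ℝ) * (1 + |t|) ^ η) := by ring
    _ = C' * C * (1 + |t|) ^ (η - 2) := by
        rw [← Real.rpow_add h0]
        congr 2
        ring

lemma integrable_four_sq (hf : ContDiff ℝ 1 f) (hs : HasCompactSupport f) :
    Integrable (fun t : ℝ ↦ ‖four f t‖ ^ 2) := by
  have h := integrable_four_mul hf hs (g := fun _ ↦ 1) aestronglyMeasurable_const (C := 1)
    (η := 0) (by norm_num) (fun t ↦ by simp)
  have h2 := h.re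
  refine h2.congr (Eventually.of_forall fun t ↦ ?_)
  simp only [mul_one]
  exact RCLike.ofReal_re_ax _

/-- Fourier inversion for the autocorrelation. -/
theorem acorr_inversion (hf : ContDiff ℝ 1 f) (hs : HasCompactSupport f) (u : ℝ) :
    ∫ t : ℝ, ((‖four f t‖ ^ 2 : ℝ) : ℂ) * cexp (t * u * I) = 2 * Real.pi * acorr f u := by
  have hc := acorr_continuous hf.continuous hs
  have hsc := acorr_hasCompactSupport hs
  have hi : Integrable (acorr f) := hc.integrable_of_hasCompactSupport hsc
  have hF : 𝓕 (acorr f) = fun ξ : ℝ ↦ ((‖four f (2 * Real.pi * ξ)‖ ^ 2 : ℝ) : ℂ) := by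
    ext ξ
    rw [← four_acorr hf.continuous hs, four_eq]
    congr 1
    field_simp
  have hint : Integrable (𝓕 (acorr f)) := by
    rw [hF]
    have h1 := (integrable_four_sq hf hs).comp_mul_left' (R := 2 * Real.pi) (by positivity)
    exact h1.ofReal
  have h := hi.fourierInv_fourier_eq hint hc.continuousAt (v := u)
  rw [Real.fourierInv_eq', hF] at h
  rw [← h]
  have h2 := Measure.integral_comp_mul_left (fun t : ℝ ↦ ((‖four f t‖ ^ 2 : ℝ) : ℂ) * cexp (t * u * I))
    (2 * Real.pi)
  have h3 : ∫ v : ℝ, cexp (((2 * Real.pi * inner ℝ v u : ℝ) : ℂ) * I) •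
      ((‖four f (2 * Real.pi * v)‖ ^ 2 : ℝ) : ℂ) = ∫ x : ℝ,
      ((‖four f (2 * Real.pi * x)‖ ^ 2 : ℝ) : ℂ) * cexp (((2 * Real.pi * x : ℝ) : ℂ) * u * I) := by
    refine integral_congr_ae (Eventually.of_forall fun v ↦ ?_)
    simp only [smul_eq_mul]
    rw [mul_comm]
    congr 2
    simp only [RCLike.inner_apply, conj_trivial]
    push_cast
    ring
  rw [h3, h2]
  have hpi : (Real.pi : ℂ) ≠ 0 := by exact_mod_cast Real.pi_ne_zero
  rw [abs_of_pos (by positivity), real_smul, ← mul_assoc]
  have h4 : (2 * (Real.pi : ℂ)) * (((2 * Real.pi)⁻¹ : ℝ) : ℂ) = 1 := by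
    push_cast
    field_simp
  rw [h4, one_mul]

end Pool.Agent.H6.Weil
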