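import Mathlib

/-!
Holomorphic dependence of an integral on a parameter, using only a locally uniform bound of the
integrand.
-/

set_option autoImplicit false

open Complex MeasureTheory Set Filter Topology Metric

namespace Pool.Agent.H6.Weil

variable {α : Type*} [MeasurableSpace α] {μ : Measure α}

lemma differentiableAt_integral {φ : ℂ → α → ℂ} {z₀ : ℂ} {r : ℝ} (hr : 0 < r)
    (hm : ∀ z ∈ ball z₀ r, AEStronglyMeasurable (φ z) μ)
    (hd : ∀ᵐ t ∂μ, DifferentiableOn ℂ (fun z ↦ φ z t) (ball z₀ r)) {g : α → ℝ}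
    (hg : Integrable g μ) (hb : ∀ᵐ t ∂μ, ∀ z ∈ ball z₀ r, ‖φ z t‖ ≤ g t) :
    DifferentiableAt ℂ (fun z ↦ ∫ t, φ z t ∂μ) z₀ := by
  have hz₀ : z₀ ∈ ball z₀ r := mem_ball_self hr
  have hder : ∀ᵐ t ∂μ, ∀ z ∈ ball z₀ (r / 2), HasDerivAt (fun z ↦ φ z t)
      (deriv (fun z ↦ φ z t) z) z ∧ ‖deriv (fun z ↦ φ z t) z‖ ≤ g t / (r / 4) := by
    filter_upwards [hd, hb] with t h1 h2 z hz
    have hzr : z ∈ ball z₀ r := ball_subset_ball (by linarith) hz
    refine ⟨(h1.differentiableAt (isOpen_ball.mem_nhds hzr)).hasDerivAt, ?_⟩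
    have hsub : closedBall z (r / 4) ⊆ ball z₀ r := by
      intro w hw
      rw [mem_ball] at hz ⊢
      rw [mem_closedBall] at hw
      calc dist w z₀ ≤ dist w z + dist z z₀ := dist_triangle _ _ _
        _ < r := by linarith
    refine Complex.norm_deriv_le_of_forall_mem_sphere_norm_le (by linarith) ?_
      (fun w hw ↦ h2 w (hsub (sphere_subset_closedBall hw)))
    refine DifferentiableOn.diffContOnCl ?_
    rw [closure_ball _ (by linarith : r / 4 ≠ 0)]
    exact h1.mono hsub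
  -- measurability of the derivative
  have hlim : ∀ᵐ t ∂μ, Tendsto (fun n : ℕ ↦ ((n : ℂ) + 1) * (φ (z₀ + ((r / 2) / ((n : ℝ) + 2) : ℝ)) t
      - φ z₀ t)) atTop (𝓝 ((r / 2 : ℝ) * deriv (fun z ↦ φ z t) z₀)) := by
    filter_upwards [hder] with t ht
    obtain ⟨h1, -⟩ := ht z₀ (mem_ball_self (by linarith))
    have h2 := h1.tendsto_slope_zero
    have h3 : Tendsto (fun n : ℕ ↦ (((r / 2) / ((n : ℝ) + 2) : ℝ) : ℂ)) atTop (𝓝[≠] 0) := by
      refine tendsto_nhdsWithin_iff.mpr ⟨?_, ?_⟩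
      · have h4 : Tendsto (fun n : ℕ ↦ (r / 2) / ((n : ℝ) + 2)) atTop (𝓝 0) := by
          refine Tendsto.const_div_atTop ?_ _
          exact tendsto_atTop_add_const_right _ _ tendsto_natCast_atTop_atTop
        exact_mod_cast (continuous_ofReal.tendsto 0).comp h4
      · filter_upwards with n
        have : (r / 2) / ((n : ℝ) + 2) ≠ 0 := by positivity
        exact mem_compl_singleton_iff.mpr (ofReal_ne_zero.mpr this)
    have h5 := h2.comp h3
    have h6 : Tendsto (fun n : ℕ ↦ (((n : ℝ) + 1) / ((n : ℝ) + 2) * (r / 2) : ℝ)) atTop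
        (𝓝 (1 * (r / 2))) := by
      refine Tendsto.mul_const _ ?_
      have h7 : Tendsto (fun n : ℕ ↦ 1 - 1 / ((n : ℝ) + 2)) atTop (𝓝 (1 - 0)) := by
        refine Tendsto.const_sub _ ?_
        refine Tendsto.const_div_atTop ?_ _
        exact tendsto_atTop_add_const_right _ _ tendsto_natCast_atTop_atTop
      rw [sub_zero] at h7
      refine h7.congr fun n ↦ ?_
      field_simp
      ring
    rw [one_mul] at h6
    have h8 : Tendsto (fun n : ℕ ↦ ((((n : ℝ) + 1) / ((n : ℝ) + 2) * (r / 2) : ℝ) : ℂ)) atTop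
        (𝓝 ((r / 2 : ℝ) : ℂ)) := (continuous_ofReal.tendsto _).comp h6
    refine (h8.mul h5).congr fun n ↦ ?_
    simp only [Function.comp_apply, smul_eq_mul]
    have hn : (n : ℂ) + 2 ≠ 0 := by exact_mod_cast (by positivity : ((n : ℝ) + 2) ≠ 0)
    have hrc : (r : ℂ) ≠ 0 := by exact_mod_cast hr.ne'
    push_cast
    field_simp
  have hmeas : AEStronglyMeasurable (fun t ↦ deriv (fun z ↦ φ z t) z₀) μ := by
    have h1 : AEStronglyMeasurable (fun t ↦ ((r / 2 : ℝ) : ℂ) * deriv (fun z ↦ φ z t) z₀) μ := by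
      refine aestronglyMeasurable_of_tendsto_ae atTop (fun n ↦ ?_) hlim
      refine AEStronglyMeasurable.const_mul ((hm _ ?_).sub (hm _ hz₀)) _
      rw [mem_ball, dist_eq_norm, add_sub_cancel_left, norm_real, Real.norm_eq_abs,
        abs_of_pos (by positivity)]
      rw [div_lt_iff₀ (by positivity)]
      have : (0 : ℝ) ≤ n := Nat.cast_nonneg n
      nlinarith
    have h2 := h1.const_mul (((r / 2 : ℝ) : ℂ)⁻¹)
    refine h2.congr ?_
    filter_upwards with t
    have hrc : ((r / 2 : ℝ) : ℂ) ≠ 0 := by exact_mod_cast (by positivity : r / 2 ≠ 0)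
    field_simp
  have key := hasDerivAt_integral_of_dominated_loc_of_deriv_le (μ := μ) (F := φ) (x₀ := z₀)
    (s := ball z₀ (r / 2)) (F' := fun z t ↦ deriv (fun z ↦ φ z t) z)
    (bound := fun t ↦ g t / (r / 4)) (ball_mem_nhds _ (by linarith))
    (by
      filter_upwards [ball_mem_nhds z₀ hr] with z hz
      exact hm z hz)
    (Integrable.mono' hg (hm z₀ hz₀) (hb.mono fun t ht ↦ ht z₀ hz₀))
    hmeas
    (hder.mono fun t ht z hz ↦ (ht z hz).2)
    (hg.div_const _)
    (hder.mono fun t ht z hz ↦ (ht z hz).1)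
  exact key.2.differentiableAt

end Pool.Agent.H6.Weil
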