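import Pool.Agent.H6.Weil.Zld
import Pool.Agent.H6.Weil.Four
import Pool.Agent.H6.Weil.Param

/-!
The explicit formula for the damped Weil functional in a zero-free half-plane: the prime side equals
an integral of `Re (1/s + 1/(s-1) + ζ'/ζ)` against `|F|^2`.
-/

set_option autoImplicit false

open Complex Filter Topology MeasureTheory Set LSeries Metric
open scoped ArithmeticFunction.vonMangoldt

namespace Pool.Agent.H6.Weil

open Pool.Agent.H6

variable {f : ℝ → ℂ}

/-- `∫ |F|^2 / (a + i t) dt`. -/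
lemma integral_inv (hf : ContDiff ℝ 1 f) (hs : HasCompactSupport f) {a : ℂ} (ha : 0 < a.re) :
    ∫ t : ℝ, ((‖four f t‖ ^ 2 : ℝ) : ℂ) * (1 / (a + t * I)) =
      2 * Real.pi * ∫ u in Ioi (0 : ℝ), cexp (-(a * u)) * acorr f (-u) := by
  have hF := integrable_four_sq hf hs
  have hc := four_continuous hf.continuous hs
  have h1 : ∀ t : ℝ, (1 / (a + t * I) : ℂ) = ∫ u in Ioi (0 : ℝ), cexp (-((a + t * I) * u)) := by
    intro t
    have h0 : (-(a + t * I)).re < 0 := by simpa using ha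
    have h2 := integral_exp_mul_complex_Ioi h0 0
    have h3 : ∫ u in Ioi (0 : ℝ), cexp (-((a + t * I) * u)) =
        ∫ u : ℝ in Ioi (0 : ℝ), cexp (-(a + t * I) * u) := by
      refine setIntegral_congr_fun measurableSet_Ioi fun u _ ↦ ?_
      simp only [neg_mul]
    rw [h3, h2]
    simp only [ofReal_zero, mul_zero, Complex.exp_zero]
    rw [neg_div_neg_eq]
  have hprod : Integrable (fun p : ℝ × ℝ ↦ ((‖four f p.1‖ ^ 2 : ℝ) : ℂ) *
      cexp (-((a + p.1 * I) * p.2))) (volume.prod (volume.restrict (Ioi 0))) := by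
    have h2 : Integrable (fun p : ℝ × ℝ ↦ ‖four f p.1‖ ^ 2 * Real.exp (-(a.re * p.2)))
        (volume.prod (volume.restrict (Ioi 0))) := by
      refine Integrable.mul_prod hF (g := fun u ↦ Real.exp (-(a.re * u))) ?_
      have := integrableOn_exp_mul_Ioi (a := -a.re) (by linarith) 0
      refine this.congr (Eventually.of_forall fun u ↦ ?_)
      simp only [neg_mul]
    refine h2.mono' (by fun_prop : Continuous _).aestronglyMeasurable ?_
    filter_upwards with p
    rw [norm_mul, norm_real, Real.norm_of_nonneg (by positivity), Complex.norm_exp]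
    refine le_of_eq ?_
    congr 2
    simp
  calc ∫ t : ℝ, ((‖four f t‖ ^ 2 : ℝ) : ℂ) * (1 / (a + t * I))
      = ∫ t : ℝ, ∫ u in Ioi (0 : ℝ), ((‖four f t‖ ^ 2 : ℝ) : ℂ) * cexp (-((a + t * I) * u)) := by
        refine integral_congr_ae (Eventually.of_forall fun t ↦ ?_)
        simp only
        rw [h1 t, integral_const_mul]
    _ = ∫ u in Ioi (0 : ℝ), ∫ t : ℝ, ((‖four f t‖ ^ 2 : ℝ) : ℂ) * cexp (-((a + t * I) * u)) := by
        rw [integral_integral_swap hprod]
    _ = ∫ u in Ioi (0 : ℝ), 2 * Real.pi * (cexp (-(a * u)) * acorr f (-u)) := by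
        refine setIntegral_congr_fun measurableSet_Ioi fun u _ ↦ ?_
        have h3 : ∀ t : ℝ, ((‖four f t‖ ^ 2 : ℝ) : ℂ) * cexp (-((a + t * I) * u)) =
            cexp (-(a * u)) * (((‖four f t‖ ^ 2 : ℝ) : ℂ) * cexp (t * ((-u : ℝ) : ℂ) * I)) := by
          intro t
          have : cexp (-((a + t * I) * u)) = cexp (-(a * u)) * cexp (t * ((-u : ℝ) : ℂ) * I) := by
            rw [← Complex.exp_add]
            congr 1
            push_cast
            ring
          rw [this]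
          ring
        simp_rw [h3]
        rw [integral_const_mul, acorr_inversion hf hs]
        ring
    _ = 2 * Real.pi * ∫ u in Ioi (0 : ℝ), cexp (-(a * u)) * acorr f (-u) := by
        rw [integral_const_mul]

lemma lam_summable {x : ℝ} (hx : 1 < x) : Summable fun n : ℕ ↦ Λ n / (n : ℝ) ^ x :=
  summable_lam_rpow hx

lemma term_lam (s : ℂ) (n : ℕ) (t : ℝ) :
    term (fun n ↦ ((Λ n : ℝ) : ℂ)) (s + t * I) n =
      Λ n / (n : ℂ) ^ s * cexp (t * ((-Real.log n : ℝ) : ℂ) * I) := by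
  rcases eq_or_ne n 0 with rfl | hn
  · simp
  · have hnc : (n : ℂ) ≠ 0 := by exact_mod_cast hn
    rw [term_of_ne_zero hn, cpow_add _ _ hnc]
    have h1 : (n : ℂ) ^ (t * I) = cexp (t * Real.log n * I) := by
      rw [cpow_def_of_ne_zero hnc, natCast_log]
      congr 1
      ring
    rw [h1]
    have h2 : cexp (t * ((-Real.log n : ℝ) : ℂ) * I) = (cexp (t * Real.log n * I))⁻¹ := by
      rw [← Complex.exp_neg]
      congr 1
      push_cast
      ring
    rw [h2]
    field_simp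

/-- `∫ |F|^2 Σ Λ(n) n^(-(s + i t)) dt`. -/
lemma integral_series (hf : ContDiff ℝ 1 f) (hs : HasCompactSupport f) {s : ℂ} (h1s : 1 < s.re) :
    ∫ t : ℝ, ((‖four f t‖ ^ 2 : ℝ) : ℂ) * LSeries (fun n ↦ ((Λ n : ℝ) : ℂ)) (s + t * I) =
      2 * Real.pi * ∑' n : ℕ, Λ n / (n : ℂ) ^ s * acorr f (-Real.log n) := by
  have hF := integrable_four_sq hf hs
  have hc := four_continuous hf.continuous hs
  have hnorm : ∀ (n : ℕ) (t : ℝ), ‖((‖four f t‖ ^ 2 : ℝ) : ℂ) *
      term (fun n ↦ ((Λ n : ℝ) : ℂ)) (s + t * I) n‖ = ‖four f t‖ ^ 2 * (Λ n / (n : ℝ) ^ s.re) := by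
    intro n t
    rw [norm_mul, norm_real, Real.norm_of_nonneg (by positivity)]
    congr 1
    rcases eq_or_ne n 0 with rfl | hn
    · simp
    · rw [term_of_ne_zero hn, norm_div, norm_real,
        Real.norm_of_nonneg ArithmeticFunction.vonMangoldt_nonneg,
        norm_natCast_cpow_of_pos (Nat.pos_of_ne_zero hn)]
      simp
  have hmeas : ∀ n : ℕ, AEStronglyMeasurable (fun t : ℝ ↦ ((‖four f t‖ ^ 2 : ℝ) : ℂ) *
      term (fun n ↦ ((Λ n : ℝ) : ℂ)) (s + t * I) n) := by
    intro n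
    simp_rw [term_lam]
    exact (by fun_prop : Continuous _).aestronglyMeasurable
  have hint : ∀ n : ℕ, Integrable (fun t : ℝ ↦ ((‖four f t‖ ^ 2 : ℝ) : ℂ) *
      term (fun n ↦ ((Λ n : ℝ) : ℂ)) (s + t * I) n) := by
    intro n
    refine (hF.mul_const (Λ n / (n : ℝ) ^ s.re)).mono' (hmeas n) ?_
    filter_upwards with t
    rw [hnorm]
  have hsum : Summable fun n : ℕ ↦ ∫ t : ℝ, ‖((‖four f t‖ ^ 2 : ℝ) : ℂ) *
      term (fun n ↦ ((Λ n : ℝ) : ℂ)) (s + t * I) n‖ := by
    simp_rw [hnorm, integral_mul_const]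
    exact (lam_summable h1s).mul_left _
  have key := hasSum_integral_of_summable_integral_norm hint hsum
  have h2 : ∫ t : ℝ, ((‖four f t‖ ^ 2 : ℝ) : ℂ) * LSeries (fun n ↦ ((Λ n : ℝ) : ℂ)) (s + t * I) =
      ∫ t : ℝ, ∑' n : ℕ, ((‖four f t‖ ^ 2 : ℝ) : ℂ) *
        term (fun n ↦ ((Λ n : ℝ) : ℂ)) (s + t * I) n := by
    refine integral_congr_ae (Eventually.of_forall fun t ↦ ?_)
    simp only [LSeries]
    rw [tsum_mul_left]
  rw [h2, ← key.tsum_eq, ← tsum_mul_left]
  refine tsum_congr fun n ↦ ?_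
  simp_rw [term_lam]
  have h3 : ∀ t : ℝ, ((‖four f t‖ ^ 2 : ℝ) : ℂ) *
      (Λ n / (n : ℂ) ^ s * cexp (t * ((-Real.log n : ℝ) : ℂ) * I)) =
      Λ n / (n : ℂ) ^ s * (((‖four f t‖ ^ 2 : ℝ) : ℂ) * cexp (t * ((-Real.log n : ℝ) : ℂ) * I)) :=
    fun t ↦ by ring
  simp_rw [h3]
  rw [integral_const_mul, acorr_inversion hf hs]
  ring

/-- the prime side, one half -/
noncomputable def primeSide (f : ℝ → ℂ) (z : ℂ) : ℂ :=
  (∫ u in Ioi (0 : ℝ), cexp (-((1 / 2 + z) * u)) * acorr f (-u))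
    + (∫ u in Ioi (0 : ℝ), cexp (-((z - 1 / 2) * u)) * acorr f (-u))
    - ∑' n : ℕ, Λ n / (n : ℂ) ^ (1 / 2 + z) * acorr f (-Real.log n)

/-- the spectral side, one half -/
noncomputable def specSide (f : ℝ → ℂ) (z : ℂ) : ℂ :=
  1 / (2 * Real.pi) * ∫ t : ℝ, ((‖four f t‖ ^ 2 : ℝ) : ℂ) * Lf (1 / 2 + z + t * I)

lemma primeSide_eq_specSide_of_half_lt (hf : ContDiff ℝ 1 f) (hs : HasCompactSupport f) {z : ℂ}
    (hz : 1 / 2 < z.re) : primeSide f z = specSide f z := by
  have ha : 0 < (1 / 2 + z : ℂ).re := by simp; linarith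
  have hb : 0 < (z - 1 / 2 : ℂ).re := by simp; linarith
  have h1s : 1 < (1 / 2 + z : ℂ).re := by simp; linarith
  have hc := four_continuous hf.continuous hs
  have hLf : ∀ t : ℝ, Lf (1 / 2 + z + t * I) = 1 / (1 / 2 + z + t * I) +
      1 / (z - 1 / 2 + t * I) - LSeries (fun n ↦ ((Λ n : ℝ) : ℂ)) (1 / 2 + z + t * I) := by
    intro t
    rw [Lf, Zld_eq_tsum (by simpa using h1s)]
    have : (1 / 2 + z + t * I - 1 : ℂ) = z - 1 / 2 + t * I := by ring
    rw [this]
    ring
  have hinv : ∀ a : ℂ, 0 < a.re → Integrable fun t : ℝ ↦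
      ((‖four f t‖ ^ 2 : ℝ) : ℂ) * (1 / (a + t * I)) := by
    intro a ha
    have hne : ∀ t : ℝ, (a + t * I : ℂ) ≠ 0 := by
      intro t h
      have := congrArg Complex.re h
      simp at this
      linarith
    refine integrable_four_mul hf hs (C := 1 / a.re) (η := 0) ?_ (by norm_num) fun t ↦ ?_
    · exact (Continuous.div (by fun_prop) (by fun_prop) hne).aestronglyMeasurable
    · rw [Real.rpow_zero, mul_one, norm_div, norm_one]
      have h2 : a.re ≤ ‖a + t * I‖ := by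
        have := re_le_norm (a + t * I)
        simpa using this
      gcongr
  have hser : Integrable fun t : ℝ ↦ ((‖four f t‖ ^ 2 : ℝ) : ℂ) *
      LSeries (fun n ↦ ((Λ n : ℝ) : ℂ)) (1 / 2 + z + t * I) := by
    refine integrable_four_mul hf hs (C := ∑' n : ℕ, Λ n / (n : ℝ) ^ (1 / 2 + z : ℂ).re) (η := 0)
      ?_ (by norm_num) fun t ↦ ?_
    · have h2 : Continuous fun t : ℝ ↦ LSeries (fun n ↦ ((Λ n : ℝ) : ℂ)) (1 / 2 + z + t * I) := by
        unfold LSeries
        refine continuous_tsum (u := fun n : ℕ ↦ Λ n / (n : ℝ) ^ (1 / 2 + z : ℂ).re)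
          (fun n ↦ ?_) (lam_summable h1s) fun n t ↦ ?_
        · simp_rw [term_lam]
          fun_prop
        · rcases eq_or_ne n 0 with rfl | hn
          · simp
          · rw [term_of_ne_zero hn, norm_div, norm_real,
              Real.norm_of_nonneg ArithmeticFunction.vonMangoldt_nonneg,
              norm_natCast_cpow_of_pos (Nat.pos_of_ne_zero hn)]
            simp
      exact h2.aestronglyMeasurable
    · rw [Real.rpow_zero, mul_one]
      refine tsum_of_norm_bounded (lam_summable h1s).hasSum fun n ↦ ?_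
      rcases eq_or_ne n 0 with rfl | hn
      · simp
      · rw [term_of_ne_zero hn, norm_div, norm_real,
          Real.norm_of_nonneg ArithmeticFunction.vonMangoldt_nonneg,
          norm_natCast_cpow_of_pos (Nat.pos_of_ne_zero hn)]
        simp
  have hadd : Integrable fun t : ℝ ↦ ((‖four f t‖ ^ 2 : ℝ) : ℂ) * (1 / (1 / 2 + z + t * I)) +
      ((‖four f t‖ ^ 2 : ℝ) : ℂ) * (1 / (z - 1 / 2 + t * I)) := (hinv _ ha).add (hinv _ hb)
  have h5 : ∫ t : ℝ, ((‖four f t‖ ^ 2 : ℝ) : ℂ) * Lf (1 / 2 + z + t * I) =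
      2 * Real.pi * primeSide f z := by
    calc ∫ t : ℝ, ((‖four f t‖ ^ 2 : ℝ) : ℂ) * Lf (1 / 2 + z + t * I)
        = ∫ t : ℝ, (((‖four f t‖ ^ 2 : ℝ) : ℂ) * (1 / (1 / 2 + z + t * I)) +
            ((‖four f t‖ ^ 2 : ℝ) : ℂ) * (1 / (z - 1 / 2 + t * I)) -
            ((‖four f t‖ ^ 2 : ℝ) : ℂ) *
              LSeries (fun n ↦ ((Λ n : ℝ) : ℂ)) (1 / 2 + z + t * I)) := by
          refine integral_congr_ae (Eventually.of_forall fun t ↦ ?_)
          simp only
          rw [hLf]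
          ring
      _ = _ := by
          rw [integral_sub hadd hser, integral_add (hinv _ ha) (hinv _ hb),
            integral_inv hf hs ha, integral_inv hf hs hb, integral_series hf hs h1s, primeSide]
          ring
  rw [specSide, h5]
  have : (Real.pi : ℂ) ≠ 0 := by exact_mod_cast Real.pi_ne_zero
  field_simp

end Pool.Agent.H6.Weil
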