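import Pool.Agent.H6.Weil.Posit3
import Pool.Agent.H6.Weil.Contin

/-!
Positivity of the damped Weil functional in a zero-free half-plane.
-/

set_option autoImplicit false

open Complex Filter Topology MeasureTheory Set LSeries Metric
open scoped ArithmeticFunction.vonMangoldt

namespace Pool.Agent.H6.Weil

open Pool.Agent.H6

variable {f : ℝ → ℂ}

/-- the archimedean part -/
noncomputable def arch (b : ℝ) (f : ℝ → ℂ) : ℝ :=
  1 / (2 * Real.pi) * ∫ t : ℝ, ‖four f t‖ ^ 2 *
        ((digamma (1 / 4 + b / 2 + t / 2 * I)).re - Real.log Real.pi)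

lemma weil_eq (hf : Continuous f) (hs : HasCompactSupport f) (b : ℝ) :
    weil b f = 2 * (primeSide f b).re + arch b f := by
  obtain ⟨M, hM0, hM⟩ := exists_radius hs
  have hA : ∀ u, 2 * M < |u| → acorr f (-u) = 0 := by
    intro u hu
    refine acorr_eq_zero hM ?_
    rwa [abs_neg]
  have hAc : Continuous fun u ↦ acorr f (-u) := (acorr_continuous hf hs).comp continuous_neg
  have hAs : HasCompactSupport fun u ↦ acorr f (-u) :=
    (acorr_hasCompactSupport hs).comp_homeomorph (Homeomorph.neg ℝ)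
  have hint : ∀ c : ℂ, IntegrableOn (fun u : ℝ ↦ cexp (-(c * u)) * acorr f (-u)) (Ioi 0) := by
    intro c
    have h1 : Continuous fun u : ℝ ↦ cexp (-(c * u)) * acorr f (-u) := by fun_prop
    have h2 : HasCompactSupport fun u : ℝ ↦ cexp (-(c * u)) * acorr f (-u) := hAs.mul_left
    exact (h1.integrable_of_hasCompactSupport h2).integrableOn
  have hre : ∀ c : ℝ, (∫ u in Ioi (0 : ℝ), cexp (-((c : ℂ) * u)) * acorr f (-u)).re =
      ∫ u in Ioi (0 : ℝ), Real.exp (-c * u) * (acorr f u).re := by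
    intro c
    have h1 : (∫ u in Ioi (0 : ℝ), cexp (-((c : ℂ) * u)) * acorr f (-u)).re =
        ∫ u in Ioi (0 : ℝ), (cexp (-((c : ℂ) * u)) * acorr f (-u)).re :=
      (integral_re (hint c)).symm
    rw [h1]
    refine setIntegral_congr_fun measurableSet_Ioi fun u _ ↦ ?_
    have h2 : cexp (-((c : ℂ) * u)) = ((Real.exp (-c * u) : ℝ) : ℂ) := by
      push_cast
      congr 1
      ring
    rw [h2, re_ofReal_mul, acorr_neg, conj_re]
  have hintr : ∀ c : ℝ, IntegrableOn (fun u : ℝ ↦ Real.exp (-c * u) * (acorr f u).re) (Ioi 0) := by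
    intro c
    have hc1 := acorr_continuous hf hs
    have h1 : Continuous fun u : ℝ ↦ Real.exp (-c * u) * (acorr f u).re := by fun_prop
    have h2 : HasCompactSupport fun u : ℝ ↦ Real.exp (-c * u) * (acorr f u).re := by
      refine HasCompactSupport.mul_left ?_
      exact (acorr_hasCompactSupport hs).comp_left (g := Complex.re) zero_re
    exact (h1.integrable_of_hasCompactSupport h2).integrableOn
  obtain ⟨N, hN⟩ := exists_log_bound (2 * M)
  have hz : ∀ n : ℕ, N ≤ n → acorr f (-Real.log n) = 0 := fun n hn ↦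
    hA _ ((hN n hn).trans_le (le_abs_self _))
  have hz' : ∀ n : ℕ, N ≤ n → acorr f (Real.log n) = 0 := fun n hn ↦
    acorr_eq_zero hM ((hN n hn).trans_le (le_abs_self _))
  have hsum : (∑' n : ℕ, (Λ n : ℂ) / (n : ℂ) ^ (1 / 2 + (b : ℂ)) * acorr f (-Real.log n)).re =
      ∑' n : ℕ, Λ n / (n : ℝ) ^ (1 / 2 + b) * (acorr f (Real.log n)).re := by
    rw [tsum_eq_sum (s := Finset.range N), tsum_eq_sum (s := Finset.range N), re_sum]
    · refine Finset.sum_congr rfl fun n _ ↦ ?_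
      have h1 : (Λ n : ℂ) / (n : ℂ) ^ (1 / 2 + (b : ℂ)) =
          ((Λ n / (n : ℝ) ^ (1 / 2 + b) : ℝ) : ℂ) := by
        push_cast
        rw [ofReal_cpow (Nat.cast_nonneg n)]
        push_cast
        rfl
      rw [h1, re_ofReal_mul, acorr_neg, conj_re]
    · intro n hn
      rw [Finset.mem_range, not_lt] at hn
      rw [hz' n hn]
      simp
    · intro n hn
      rw [Finset.mem_range, not_lt] at hn
      rw [hz n hn]
      simp
  have h1 := hre (1 / 2 + b)
  have h2 := hre (b - 1 / 2)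
  push_cast at h1 h2
  rw [weil, primeSide, sub_re, add_re, h1, h2, hsum, arch]
  have h3 : ∫ u in Ioi (0 : ℝ), (Real.exp ((1 / 2 - b) * u) + Real.exp (-(1 / 2 + b) * u)) *
      (acorr f u).re = (∫ u in Ioi (0 : ℝ), Real.exp (-(1 / 2 + b) * u) * (acorr f u).re) +
        ∫ u in Ioi (0 : ℝ), Real.exp (-(b - 1 / 2) * u) * (acorr f u).re := by
    rw [← integral_add (hintr _) (hintr _)]
    refine setIntegral_congr_fun measurableSet_Ioi fun u _ ↦ ?_
    simp only [neg_sub]
    ring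
  rw [h3]
  ring

lemma digamma_arg_growth : ∃ C : ℝ, 0 ≤ C ∧ ∀ b t : ℝ, 0 ≤ b → b ≤ 1 →
    ‖digamma (1 / 4 + b / 2 + t / 2 * I)‖ ≤ C * (1 + |t|) ^ (1 / 2 : ℝ) := by
  obtain ⟨C, hC, h⟩ := digamma_growth (δ := 1 / 4) (by norm_num) (η := 1 / 2) (by norm_num)
  refine ⟨C * 2 ^ (1 / 2 : ℝ), by positivity, fun b t hb hb1 ↦ ?_⟩
  have h1 : (1 / 4 + b / 2 + t / 2 * I : ℂ) = ((1 / 4 + b / 2 : ℝ) : ℂ) + ((t / 2 : ℝ) : ℂ) * I := by
    push_cast
    ring
  have h2 : (1 / 4 + b / 2 + t / 2 * I : ℂ).re = 1 / 4 + b / 2 := by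
    rw [h1]; simp
  refine (h _ (by rw [h2]; linarith)).trans ?_
  rw [mul_assoc, ← Real.mul_rpow (by norm_num) (by positivity)]
  gcongr
  rw [h1]
  have h3 := norm_add_le ((1 / 4 + b / 2 : ℝ) : ℂ) (((t / 2 : ℝ) : ℂ) * I)
  rw [norm_mul, norm_I, mul_one, norm_real, norm_real, Real.norm_of_nonneg (by positivity),
    Real.norm_eq_abs, abs_div, abs_two] at h3
  have := abs_nonneg t
  linarith

lemma digamma_arg_continuous {b : ℝ} (hb : 0 ≤ b) :
    Continuous fun t : ℝ ↦ digamma (1 / 4 + b / 2 + t / 2 * I) := by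
  rw [continuous_iff_continuousAt]
  intro t
  have h1 : (1 / 4 + b / 2 + t / 2 * I : ℂ) = ((1 / 4 + b / 2 : ℝ) : ℂ) + ((t / 2 : ℝ) : ℂ) * I := by
    push_cast
    ring
  have h2 : 0 < (1 / 4 + b / 2 + t / 2 * I : ℂ).re := by
    rw [h1]; simp; linarith
  exact ContinuousAt.comp (f := fun t : ℝ ↦ (1 / 4 + b / 2 + t / 2 * I : ℂ))
    (digamma_differentiableAt h2).continuousAt (by fun_prop)

lemma arch_integrable (hf : ContDiff ℝ 1 f) (hs : HasCompactSupport f) {b : ℝ} (hb : 0 ≤ b)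
    (hb1 : b ≤ 1) : Integrable fun t : ℝ ↦ ((‖four f t‖ ^ 2 : ℝ) : ℂ) *
      digamma (1 / 4 + b / 2 + t / 2 * I) := by
  obtain ⟨C, hC, h⟩ := digamma_arg_growth
  exact integrable_four_mul hf hs (digamma_arg_continuous hb).aestronglyMeasurable (C := C)
    (η := 1 / 2) (by norm_num) fun t ↦ h b t hb hb1

lemma arch_continuousWithinAt (hf : ContDiff ℝ 1 f) (hs : HasCompactSupport f) {b₀ : ℝ}
    (hb₀ : 0 ≤ b₀) (hb₁ : b₀ < 1) :
    ContinuousWithinAt (fun b ↦ arch b f) (Icc 0 1) b₀ := by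
  obtain ⟨C, hC, h⟩ := digamma_arg_growth
  have hint := (integrable_four_mul hf hs
    (g := fun t ↦ (((C + Real.log Real.pi) * (1 + |t|) ^ (1 / 2 : ℝ) : ℝ) : ℂ))
    (C := C + Real.log Real.pi) (η := 1 / 2) ?_ (by norm_num) fun t ↦ ?_).norm
  · unfold arch
    refine ContinuousWithinAt.const_mul ?_ _
    refine continuousWithinAt_of_dominated (bound := fun t ↦ ‖((‖four f t‖ ^ 2 : ℝ) : ℂ) *
      (((C + Real.log Real.pi) * (1 + |t|) ^ (1 / 2 : ℝ) : ℝ) : ℂ)‖) ?_ ?_ hint ?_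
    · filter_upwards [self_mem_nhdsWithin] with b hb
      have h1 := digamma_arg_continuous hb.1
      have h2 := four_continuous hf.continuous hs
      exact (by fun_prop : Continuous _).aestronglyMeasurable
    · filter_upwards [self_mem_nhdsWithin] with b hb
      filter_upwards with t
      have hlp : 0 ≤ Real.log Real.pi := Real.log_nonneg (by linarith [Real.pi_gt_three])
      rw [norm_mul, norm_mul, norm_real, norm_real]
      have h3 : ‖(digamma (1 / 4 + b / 2 + t / 2 * I)).re - Real.log Real.pi‖ ≤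
          ‖(C + Real.log Real.pi) * (1 + |t|) ^ (1 / 2 : ℝ)‖ := by
        rw [Real.norm_of_nonneg (r := (C + Real.log Real.pi) * _) (by positivity)]
        have h4 : ‖(digamma (1 / 4 + b / 2 + t / 2 * I)).re‖ ≤ C * (1 + |t|) ^ (1 / 2 : ℝ) :=
          (abs_re_le_norm _).trans (h b t hb.1 hb.2)
        have h5 : (1 : ℝ) ≤ (1 + |t|) ^ (1 / 2 : ℝ) :=
          Real.one_le_rpow (by linarith [abs_nonneg t]) (by norm_num)
        refine (norm_sub_le _ _).trans ?_
        rw [Real.norm_of_nonneg hlp]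
        nlinarith
      gcongr
    · filter_upwards with t
      have h1 : (1 / 4 + b₀ / 2 + t / 2 * I : ℂ) =
          ((1 / 4 + b₀ / 2 : ℝ) : ℂ) + ((t / 2 : ℝ) : ℂ) * I := by
        push_cast
        ring
      have h2 : 0 < (1 / 4 + b₀ / 2 + t / 2 * I : ℂ).re := by
        rw [h1]; simp; linarith
      have h3 : ContinuousAt (fun b : ℝ ↦ digamma (1 / 4 + b / 2 + t / 2 * I)) b₀ :=
        ContinuousAt.comp (f := fun b : ℝ ↦ (1 / 4 + b / 2 + t / 2 * I : ℂ))
          (digamma_differentiableAt h2).continuousAt (by fun_prop)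
      refine ContinuousAt.continuousWithinAt ?_
      refine ContinuousAt.const_mul ?_ _
      exact (Complex.continuous_re.continuousAt.comp h3).sub continuousAt_const
  · refine Continuous.aestronglyMeasurable ?_
    refine continuous_ofReal.comp ?_
    refine Continuous.mul continuous_const ?_
    refine Continuous.rpow_const (by fun_prop) fun t ↦ Or.inl ?_
    have := abs_nonneg t
    linarith
  · have hlp : 0 ≤ Real.log Real.pi := Real.log_nonneg (by linarith [Real.pi_gt_three])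
    rw [norm_real, Real.norm_of_nonneg (by positivity)]

/-- Positivity inside the zero-free half-plane. -/
lemma weil_nonneg_of_lt (hf : ContDiff ℝ 1 f) (hs : HasCompactSupport f) {θ : ℝ}
    (hθ : 1 / 2 ≤ θ) (hZ : ∀ s : ℂ, θ < s.re → riemannZeta s ≠ 0) {b : ℝ}
    (hb : θ < 1 / 2 + b) (hb1 : b < 1 / 2) : 0 ≤ weil b f := by
  have hθ1 : θ < 1 := by linarith
  have hb0 : 0 < b := by linarith
  obtain ⟨C, hC, hbd⟩ := Lf_bound hθ hθ1 hZ (σ := 1 / 2 + b) hb (η := 1 / 2) (by norm_num)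
  have hre : ∀ t : ℝ, (1 / 2 + (b : ℂ) + t * I).re = 1 / 2 + b := by
    intro t
    simp
  have hLc : Continuous fun t : ℝ ↦ Lf (1 / 2 + (b : ℂ) + t * I) := by
    rw [continuous_iff_continuousAt]
    intro t
    refine ContinuousAt.comp (f := fun t : ℝ ↦ (1 / 2 + (b : ℂ) + t * I : ℂ))
      (Lf_differentiableAt hθ hZ ?_).continuousAt (by fun_prop)
    rw [hre]
    exact hb
  have hLi : Integrable fun t : ℝ ↦ ((‖four f t‖ ^ 2 : ℝ) : ℂ) * Lf (1 / 2 + (b : ℂ) + t * I) := by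
    refine integrable_four_mul hf hs hLc.aestronglyMeasurable (C := C) (η := 1 / 2) (by norm_num)
      fun t ↦ ?_
    have := hbd (1 / 2 + (b : ℂ) + t * I) (by rw [hre]) (by rw [hre]; linarith)
    simpa using this
  have hDi := arch_integrable hf hs hb0.le (by linarith : b ≤ 1)
  have hFi := integrable_four_sq hf hs
  have hpi := Real.pi_pos
  have h1 : primeSide f b = specSide f b :=
    primeSide_eq_specSide hf hs hθ hθ1 hZ (by simpa using hb) (by simp; linarith)
  have h2 : (specSide f b).re = 1 / (2 * Real.pi) * ∫ t : ℝ, ‖four f t‖ ^ 2 *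
      (Lf (1 / 2 + (b : ℂ) + t * I)).re := by
    have h3 : ∫ t : ℝ, ‖four f t‖ ^ 2 * (Lf (1 / 2 + (b : ℂ) + t * I)).re =
        (∫ t : ℝ, ((‖four f t‖ ^ 2 : ℝ) : ℂ) * Lf (1 / 2 + (b : ℂ) + t * I)).re := by
      have h4 : (∫ t : ℝ, ((‖four f t‖ ^ 2 : ℝ) : ℂ) * Lf (1 / 2 + (b : ℂ) + t * I)).re =
          ∫ t : ℝ, (((‖four f t‖ ^ 2 : ℝ) : ℂ) * Lf (1 / 2 + (b : ℂ) + t * I)).re :=
        (integral_re hLi).symm
      rw [h4]
      refine integral_congr_ae (Eventually.of_forall fun t ↦ ?_)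
      simp only
      rw [re_ofReal_mul]
    have h5 : (1 / (2 * Real.pi) : ℂ) = ((1 / (2 * Real.pi) : ℝ) : ℂ) := by push_cast; ring
    rw [specSide, h3, h5, re_ofReal_mul]
  have hLr : Integrable fun t : ℝ ↦ ‖four f t‖ ^ 2 * (Lf (1 / 2 + (b : ℂ) + t * I)).re := by
    refine hLi.re.congr (Eventually.of_forall fun t ↦ ?_)
    exact re_ofReal_mul _ _
  have hDr : Integrable fun t : ℝ ↦ ‖four f t‖ ^ 2 *
      ((digamma (1 / 4 + b / 2 + t / 2 * I)).re - Real.log Real.pi) := by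
    have h4 : Integrable fun t : ℝ ↦ ‖four f t‖ ^ 2 * (digamma (1 / 4 + b / 2 + t / 2 * I)).re := by
      refine hDi.re.congr (Eventually.of_forall fun t ↦ ?_)
      exact re_ofReal_mul _ _
    refine (h4.sub (hFi.mul_const (Real.log Real.pi))).congr (Eventually.of_forall fun t ↦ ?_)
    simp only [Pi.sub_apply]
    ring
  have h6 : weil b f = 1 / Real.pi * ∫ t : ℝ, ‖four f t‖ ^ 2 *
      (deriv xi2 (1 / 2 + (b : ℂ) + t * I) / xi2 (1 / 2 + (b : ℂ) + t * I)).re := by
    rw [weil_eq hf.continuous hs, h1, h2, arch]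
    have h7 : ∫ t : ℝ, ‖four f t‖ ^ 2 *
        (deriv xi2 (1 / 2 + (b : ℂ) + t * I) / xi2 (1 / 2 + (b : ℂ) + t * I)).re =
        (∫ t : ℝ, ‖four f t‖ ^ 2 * (Lf (1 / 2 + (b : ℂ) + t * I)).re) +
        (1 / 2) * ∫ t : ℝ, ‖four f t‖ ^ 2 *
          ((digamma (1 / 4 + b / 2 + t / 2 * I)).re - Real.log Real.pi) := by
      rw [← integral_const_mul, ← integral_add hLr (hDr.const_mul _)]
      refine integral_congr_ae (Eventually.of_forall fun t ↦ ?_)
      simp only
      rw [xi2_logDeriv hθ hZ (by rw [hre]; exact hb)]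
      have h8 : ((1 / 2 + (b : ℂ) + t * I) / 2 : ℂ) = 1 / 4 + b / 2 + t / 2 * I := by ring
      rw [h8, add_re, sub_re]
      have h9 : ((Real.log Real.pi : ℂ) / 2).re = Real.log Real.pi / 2 := by
        simp
      have h10 : (digamma (1 / 4 + b / 2 + t / 2 * I) / 2).re =
          (digamma (1 / 4 + b / 2 + t / 2 * I)).re / 2 := by simp
      rw [h9, h10]
      ring
    rw [h7]
    generalize (∫ t : ℝ, ‖four f t‖ ^ 2 * (Lf (1 / 2 + (b : ℂ) + t * I)).re) = X
    generalize (∫ t : ℝ, ‖four f t‖ ^ 2 *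
          ((digamma (1 / 4 + b / 2 + t / 2 * I)).re - Real.log Real.pi)) = Y
    field_simp
  rw [h6]
  refine mul_nonneg (by positivity) (integral_nonneg fun t ↦ ?_)
  refine mul_nonneg (by positivity) ?_
  exact re_xi2_logDeriv_nonneg hθ hZ (by rw [hre]; exact hb) (by rw [hre]; linarith)

/-- **Positivity of the damped Weil functional.** -/
theorem weil_nonneg (hf : ContDiff ℝ 1 f) (hs : HasCompactSupport f) {b : ℝ} (hb : 0 ≤ b)
    (hb1 : b < 1 / 2) (hZ : ∀ s : ℂ, 1 / 2 + b < s.re → riemannZeta s ≠ 0) : 0 ≤ weil b f := by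
  have hcont : ContinuousWithinAt (fun b ↦ weil b f) (Icc 0 1) b := by
    have h1 : (fun b : ℝ ↦ weil b f) = fun b : ℝ ↦ 2 * (primeSide f b).re + arch b f := by
      ext b
      exact weil_eq hf.continuous hs b
    rw [h1]
    refine ContinuousWithinAt.add ?_ (arch_continuousWithinAt hf hs hb (by linarith))
    have h2 : Continuous fun b : ℝ ↦ 2 * (primeSide f b).re := by
      have h3 := (primeSide_differentiable hf.continuous hs).continuous
      exact (Complex.continuous_re.comp (h3.comp continuous_ofReal)).const_mul 2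
    exact h2.continuousWithinAt
  have hmem : b ∈ closure (Ioo b (1 / 2)) := by
    rw [closure_Ioo (by linarith : b ≠ 1 / 2)]
    exact ⟨le_rfl, hb1.le⟩
  have hsub : Ioo b (1 / 2) ⊆ Icc (0 : ℝ) 1 := fun x hx ↦ ⟨by linarith [hx.1], by linarith [hx.2]⟩
  have hne : (𝓝[Ioo b (1 / 2)] b).NeBot := mem_closure_iff_nhdsWithin_neBot.mp hmem
  have hlim : Tendsto (fun b ↦ weil b f) (𝓝[Ioo b (1 / 2)] b) (𝓝 (weil b f)) :=
    (hcont.mono hsub)
  refine ge_of_tendsto hlim ?_
  filter_upwards [self_mem_nhdsWithin] with x hx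
  exact weil_nonneg_of_lt hf hs (θ := 1 / 2 + b) (by linarith) hZ (by linarith [hx.1]) hx.2

end Pool.Agent.H6.Weil
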