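import Pool.Agent.H6.Weil.Forward

/-!
Growth of the negative part of Weil's functional in terms of the zero-free half-plane.
-/

set_option autoImplicit false

open Complex Filter Topology MeasureTheory Set LSeries Metric
open scoped ArithmeticFunction.vonMangoldt

namespace Pool.Agent.H6.Weil

open Pool.Agent.H6

lemma psi_real_bound {θ : ℝ} (hθ : 1 / 2 ≤ θ) (hθ1 : θ < 1)
    (hZ : ∀ s : ℂ, θ < s.re → riemannZeta s ≠ 0) {ε : ℝ} (hε : 0 < ε) :
    ∃ C : ℝ, 0 ≤ C ∧ ∀ t : ℝ, 1 ≤ t →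
      |∑ n ∈ Finset.Icc 0 ⌊t⌋₊, Λ n - t| ≤ C * t ^ (θ + ε) := by
  obtain ⟨C, hC⟩ := psi_bound hθ hθ1 hZ hε
  have hC0 : 0 ≤ C := by
    have := (abs_nonneg _).trans (hC 1 le_rfl)
    simpa using this
  refine ⟨C + 1, by positivity, fun t ht ↦ ?_⟩
  have ht0 : 0 < t := by linarith
  have hfl : 1 ≤ ⌊t⌋₊ := (Nat.one_le_floor_iff _).mpr ht
  have h1 : ∑ n ∈ Finset.Icc 0 ⌊t⌋₊, Λ n = ∑ n ∈ Finset.Icc 1 ⌊t⌋₊, Λ n := by
    rw [← Finset.insert_Icc_add_one_left_eq_Icc (Nat.zero_le _), Finset.sum_insert (by simp)]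
    simp
  rw [h1]
  have h2 := hC ⌊t⌋₊ hfl
  have h3 : |(⌊t⌋₊ : ℝ) - t| ≤ 1 := by
    rw [abs_sub_comm, abs_of_nonneg (by linarith [Nat.floor_le ht0.le])]
    linarith [Nat.lt_floor_add_one t]
  have h4 : (⌊t⌋₊ : ℝ) ^ (θ + ε) ≤ t ^ (θ + ε) :=
    Real.rpow_le_rpow (Nat.cast_nonneg _) (Nat.floor_le ht0.le) (by linarith)
  have h5 : (1 : ℝ) ≤ t ^ (θ + ε) := Real.one_le_rpow ht (by linarith)
  calc |∑ n ∈ Finset.Icc 1 ⌊t⌋₊, Λ n - t|
      = |(∑ n ∈ Finset.Icc 1 ⌊t⌋₊, Λ n - (⌊t⌋₊ : ℝ)) + ((⌊t⌋₊ : ℝ) - t)| := by ring_nf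
    _ ≤ |∑ n ∈ Finset.Icc 1 ⌊t⌋₊, Λ n - (⌊t⌋₊ : ℝ)| + |(⌊t⌋₊ : ℝ) - t| := abs_add_le _ _
    _ ≤ C * t ^ (θ + ε) + 1 * t ^ (θ + ε) := by
        refine add_le_add (h2.trans (by gcongr)) ?_
        linarith
    _ = (C + 1) * t ^ (θ + ε) := by ring

/-- the main term -/
lemma main_integral {φ φ' : ℝ → ℂ} (hφ : ∀ u, HasDerivAt φ (φ' u) u) (hφ' : Continuous φ')
    {N : ℕ} (hN : 1 ≤ N) (h0 : ∀ u, Real.log N ≤ u → φ u = 0) :
    ∫ u in Ioi (0 : ℝ), cexp u * φ u = -φ 0 - ∫ t in (1 : ℝ)..N, φ' (Real.log t) := by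
  have hN0 : (0 : ℝ) < N := by exact_mod_cast hN
  have hlog : 0 ≤ Real.log N := Real.log_natCast_nonneg N
  have hφc : Continuous φ := by
    rw [continuous_iff_continuousAt]
    exact fun u ↦ (hφ u).continuousAt
  have h1 : ∫ u in Ioi (0 : ℝ), cexp u * φ u = ∫ u in (0 : ℝ)..Real.log N, cexp u * φ u := by
    rw [intervalIntegral.integral_of_le hlog]
    refine setIntegral_eq_of_subset_of_forall_sdiff_eq_zero measurableSet_Ioi
      Ioc_subset_Ioi_self ?_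
    intro u hu
    have h2 : Real.log N ≤ u := by
      by_contra h
      exact hu.2 ⟨hu.1, (not_le.mp h).le⟩
    rw [h0 u h2, mul_zero]
  have hexp : ∀ u : ℝ, HasDerivAt (fun u : ℝ ↦ cexp u) (cexp u) u := fun u ↦
    (Complex.hasDerivAt_exp u).comp_ofReal
  have h2 := intervalIntegral.integral_mul_deriv_eq_deriv_mul (a := 0) (b := Real.log N)
    (u := φ) (v := fun u : ℝ ↦ cexp u) (u' := φ') (v' := fun u : ℝ ↦ cexp u)
    (fun u _ ↦ hφ u) (fun u _ ↦ hexp u) (hφ'.intervalIntegrable _ _)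
    ((by fun_prop : Continuous fun u : ℝ ↦ cexp u).intervalIntegrable _ _)
  have h3 : ∫ u in (0 : ℝ)..Real.log N, cexp u * φ u = ∫ u in (0 : ℝ)..Real.log N, φ u * cexp u := by
    refine intervalIntegral.integral_congr fun u _ ↦ ?_
    ring
  have h4 : ∫ u in (0 : ℝ)..Real.log N, φ' u * cexp u = ∫ t in (1 : ℝ)..N, φ' (Real.log t) := by
    have h5 := intervalIntegral.integral_deriv_smul_comp'' (a := 0) (b := Real.log N)
      (f := Real.exp) (f' := Real.exp) (g := fun t : ℝ ↦ φ' (Real.log t))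
      Real.continuous_exp.continuousOn
      (fun u _ ↦ (Real.hasDerivAt_exp u).hasDerivWithinAt) Real.continuous_exp.continuousOn ?_
    · rw [Real.exp_zero, Real.exp_log hN0] at h5
      rw [← h5]
      refine intervalIntegral.integral_congr fun u _ ↦ ?_
      simp only [Function.comp_apply, Real.log_exp, real_smul, ofReal_exp]
      ring
    · refine hφ'.comp_continuousOn ?_
      refine Real.continuousOn_log.mono ?_
      rintro _ ⟨u, -, rfl⟩
      exact (Real.exp_pos u).ne'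
  rw [h1, h3, h2, h4, h0 _ le_rfl]
  simp

/-- Abel summation for the primes -/
lemma prime_sum {φ φ' : ℝ → ℂ} (hφ : ∀ u, HasDerivAt φ (φ' u) u) (hφ' : Continuous φ')
    {N : ℕ} (hN : 1 ≤ N) (h0 : ∀ u, Real.log N ≤ u → φ u = 0) :
    ∑' n : ℕ, (Λ n : ℂ) * φ (Real.log n) = -∫ t in (1 : ℝ)..N,
      φ' (Real.log t) / t * ((∑ n ∈ Finset.Icc 0 ⌊t⌋₊, Λ n : ℝ) : ℂ) := by
  have hN0 : (0 : ℝ) < N := by exact_mod_cast hN
  have hN1 : (1 : ℝ) ≤ N := by exact_mod_cast hN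
  have hd : ∀ t : ℝ, 0 < t → HasDerivAt (fun t ↦ φ (Real.log t)) (φ' (Real.log t) / t) t := by
    intro t ht
    have h1 := (hφ (Real.log t)).scomp t (Real.hasDerivAt_log ht.ne')
    have h2 : φ' (Real.log t) / t = t⁻¹ • φ' (Real.log t) := by
      rw [real_smul]
      push_cast
      rw [div_eq_mul_inv, mul_comm]
    rw [h2]
    exact h1
  have h1 : ∑' n : ℕ, (Λ n : ℂ) * φ (Real.log n) =
      ∑ n ∈ Finset.Icc 0 N, φ (Real.log n) * (Λ n : ℂ) := by
    rw [tsum_eq_sum (s := Finset.Icc 0 N)]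
    · exact Finset.sum_congr rfl fun n _ ↦ mul_comm _ _
    · intro n hn
      rw [Finset.mem_Icc, not_and, not_le] at hn
      have h2 := hn (Nat.zero_le n)
      rw [h0 _ (Real.log_le_log hN0 (by exact_mod_cast h2.le)), mul_zero]
  have hcd : ContinuousOn (fun t : ℝ ↦ φ' (Real.log t) / t) (Icc 1 N) := by
    refine ContinuousOn.div ?_ (by fun_prop) ?_
    · refine hφ'.comp_continuousOn (Real.continuousOn_log.mono ?_)
      intro t ht
      have : (1 : ℝ) ≤ t := ht.1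
      simp
      linarith
    · intro t ht
      have : (1 : ℝ) ≤ t := ht.1
      exact_mod_cast (by linarith : t ≠ 0)
  have hint : IntegrableOn (deriv fun t ↦ φ (Real.log t)) (Icc (1 : ℝ) N) := by
    have h3 : IntegrableOn (fun t : ℝ ↦ φ' (Real.log t) / t) (Icc (1 : ℝ) N) :=
      hcd.integrableOn_Icc
    refine h3.congr_fun (fun t ht ↦ ?_) measurableSet_Icc
    have : (1 : ℝ) ≤ t := ht.1
    exact ((hd t (by linarith)).deriv).symm
  have h2 := sum_mul_eq_sub_integral_mul₀' (f := fun t ↦ φ (Real.log t)) (fun n ↦ (Λ n : ℂ))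
    (by simp) N (fun t ht ↦ (hd t (by linarith [ht.1])).differentiableAt) hint
  rw [h1, h2, h0 _ le_rfl, zero_mul, zero_sub, intervalIntegral.integral_of_le hN1]
  congr 1
  refine setIntegral_congr_fun measurableSet_Ioc fun t ht ↦ ?_
  have : (1 : ℝ) < t := ht.1
  rw [(hd t (by linarith)).deriv]
  push_cast
  rfl

/-- the discrepancy of a smooth sum over primes -/
lemma prime_discrepancy_le {a b : ℝ} (ha : 0 ≤ a) (hb : 0 ≤ b) (hab : a + b < 1 / 2)
    (hZ : ∀ s : ℂ, 1 / 2 + b + a < s.re → riemannZeta s ≠ 0) {ε : ℝ} (hε : 0 < ε) :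
    ∃ C : ℝ, 0 ≤ C ∧ ∀ (φ φ' : ℝ → ℂ) (S L : ℝ), (∀ u, HasDerivAt φ (φ' u) u) →
      Continuous φ' → 0 ≤ S → 0 ≤ L → (∀ u, L < u → φ u = 0) → ‖φ 0‖ ≤ S →
      (∀ u, 0 ≤ u → ‖φ' u‖ ≤ S * Real.exp (-((1 / 2 + b) * u))) →
      ‖(∫ u in Ioi (0 : ℝ), cexp u * φ u) - ∑' n : ℕ, (Λ n : ℂ) * φ (Real.log n)‖ ≤
        C * S * Real.exp ((a + ε) * L) := by
  obtain ⟨C, hC, hpsi⟩ := psi_real_bound (θ := 1 / 2 + b + a) (by linarith) (by linarith) hZ hε
  set κ : ℝ := a + ε with hκ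
  have hκ0 : 0 < κ := by rw [hκ]; linarith
  refine ⟨1 + C / κ, by positivity, fun φ φ' S L hφ hφ' hS hL h0 hS0 hS1 ↦ ?_⟩
  obtain ⟨N, hN⟩ := exists_nat_gt (Real.exp L)
  have hexpL : 0 < Real.exp L := Real.exp_pos L
  have hN0 : (0 : ℝ) < N := hexpL.trans hN
  have hN1' : 1 ≤ N := by exact_mod_cast hN0
  have hN1 : (1 : ℝ) ≤ N := by exact_mod_cast hN1'
  have hLN : L < Real.log N := (Real.lt_log_iff_exp_lt hN0).mpr hN
  have hφc : Continuous φ := by
    rw [continuous_iff_continuousAt]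
    exact fun u ↦ (hφ u).continuousAt
  have hφ'0 : ∀ u, L < u → φ' u = 0 := by
    intro u hu
    have h1 : φ =ᶠ[𝓝 u] fun _ ↦ 0 := by
      filter_upwards [Ioi_mem_nhds hu] with v hv
      exact h0 v hv
    have h2 := (hφ u).deriv
    rw [h1.deriv_eq] at h2
    simpa using h2.symm
  have hz : ∀ u, Real.log N ≤ u → φ u = 0 := fun u hu ↦ h0 u (hLN.trans_le hu)
  rw [main_integral hφ hφ' hN1' hz, prime_sum hφ hφ' hN1' hz]
  have hcd : ContinuousOn (fun t : ℝ ↦ φ' (Real.log t)) (Icc 1 N) := by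
    refine hφ'.comp_continuousOn (Real.continuousOn_log.mono ?_)
    intro t ht
    have : (1 : ℝ) ≤ t := ht.1
    simp
    linarith
  have hi1 : IntervalIntegrable (fun t : ℝ ↦ φ' (Real.log t)) volume 1 N := by
    refine ContinuousOn.intervalIntegrable ?_
    rwa [uIcc_of_le hN1]
  have hcd2 : ContinuousOn (fun t : ℝ ↦ φ' (Real.log t) / t) (Icc 1 N) := by
    refine hcd.div (by fun_prop) ?_
    intro t ht
    have : (1 : ℝ) ≤ t := ht.1
    exact_mod_cast (by linarith : t ≠ 0)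
  have hi2 : IntervalIntegrable (fun t : ℝ ↦ φ' (Real.log t) / t *
      ((∑ n ∈ Finset.Icc 0 ⌊t⌋₊, Λ n : ℝ) : ℂ)) volume 1 N := by
    refine IntervalIntegrable.continuousOn_mul ?_ (by rwa [uIcc_of_le hN1])
    have hmono : Monotone fun t : ℝ ↦ ∑ n ∈ Finset.Icc 0 ⌊t⌋₊, Λ n := by
      intro s t hst
      refine Finset.sum_le_sum_of_subset_of_nonneg (Finset.Icc_subset_Icc le_rfl
        (Nat.floor_mono hst)) fun n _ _ ↦ ArithmeticFunction.vonMangoldt_nonneg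
    have h := hmono.intervalIntegrable (μ := volume) (a := 1) (b := N)
    exact ⟨h.1.ofReal, h.2.ofReal⟩
  have h3 : -φ 0 - (∫ t in (1 : ℝ)..N, φ' (Real.log t)) - -(∫ t in (1 : ℝ)..N,
      φ' (Real.log t) / t * ((∑ n ∈ Finset.Icc 0 ⌊t⌋₊, Λ n : ℝ) : ℂ)) =
      -φ 0 + ∫ t in (1 : ℝ)..N, φ' (Real.log t) / t *
        ((∑ n ∈ Finset.Icc 0 ⌊t⌋₊, Λ n - t : ℝ) : ℂ) := by
    have h4 : ∫ t in (1 : ℝ)..N, φ' (Real.log t) / t *
        ((∑ n ∈ Finset.Icc 0 ⌊t⌋₊, Λ n - t : ℝ) : ℂ) = (∫ t in (1 : ℝ)..N,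
      φ' (Real.log t) / t * ((∑ n ∈ Finset.Icc 0 ⌊t⌋₊, Λ n : ℝ) : ℂ)) -
        ∫ t in (1 : ℝ)..N, φ' (Real.log t) := by
      rw [← intervalIntegral.integral_sub hi2 hi1]
      refine intervalIntegral.integral_congr fun t ht ↦ ?_
      rw [uIcc_of_le hN1] at ht
      have : (t : ℂ) ≠ 0 := by exact_mod_cast (by linarith [ht.1] : t ≠ 0)
      push_cast
      field_simp
    rw [h4]
    ring
  rw [h3]
  refine (norm_add_le _ _).trans ?_
  rw [norm_neg]
  have hone : 1 ≤ Real.exp (κ * L) := Real.one_le_exp (by positivity)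
  -- the integral
  have h5 : ‖∫ t in (1 : ℝ)..N, φ' (Real.log t) / t *
      ((∑ n ∈ Finset.Icc 0 ⌊t⌋₊, Λ n - t : ℝ) : ℂ)‖ ≤ C * S * (Real.exp (κ * L) / κ) := by
    rw [intervalIntegral.integral_of_le hN1]
    have hexp1 : 1 ≤ Real.exp L := Real.one_le_exp hL
    have h6 : ∫ t in Ioc (1 : ℝ) N, φ' (Real.log t) / t *
        ((∑ n ∈ Finset.Icc 0 ⌊t⌋₊, Λ n - t : ℝ) : ℂ) = ∫ t in Ioc (1 : ℝ) (Real.exp L),
        φ' (Real.log t) / t * ((∑ n ∈ Finset.Icc 0 ⌊t⌋₊, Λ n - t : ℝ) : ℂ) := by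
      refine setIntegral_eq_of_subset_of_forall_sdiff_eq_zero measurableSet_Ioc
        (Ioc_subset_Ioc le_rfl hN.le) ?_
      intro t ht
      have h7 : Real.exp L < t := by
        by_contra h
        exact ht.2 ⟨ht.1.1, not_lt.mp h⟩
      rw [hφ'0 _ ((Real.lt_log_iff_exp_lt (hexpL.trans h7)).mpr h7)]
      simp
    rw [h6]
    have h7 : ∀ t ∈ Ioc (1 : ℝ) (Real.exp L), ‖φ' (Real.log t) / t *
        ((∑ n ∈ Finset.Icc 0 ⌊t⌋₊, Λ n - t : ℝ) : ℂ)‖ ≤ C * S * t ^ (κ - 1) := by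
      intro t ht
      have ht1 : 1 ≤ t := ht.1.le
      have ht0 : 0 < t := by linarith
      rw [norm_mul, norm_div, norm_real, norm_real, Real.norm_of_nonneg ht0.le, Real.norm_eq_abs]
      have h8 := hS1 (Real.log t) (Real.log_nonneg ht1)
      have h9 : Real.exp (-((1 / 2 + b) * Real.log t)) = t ^ (-(1 / 2 + b) : ℝ) := by
        rw [Real.rpow_def_of_pos ht0]
        congr 1
        ring
      rw [h9] at h8
      have h10 := hpsi t ht1
      calc ‖φ' (Real.log t)‖ / t * |∑ n ∈ Finset.Icc 0 ⌊t⌋₊, Λ n - t|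
          ≤ (S * t ^ (-(1 / 2 + b) : ℝ)) / t * (C * t ^ (1 / 2 + b + a + ε)) := by gcongr
        _ = C * S * (t ^ (-(1 / 2 + b) : ℝ) * t ^ (1 / 2 + b + a + ε) * t ^ (-1 : ℝ)) := by
            rw [Real.rpow_neg_one]
            ring
        _ = C * S * t ^ (κ - 1) := by
            rw [← Real.rpow_add ht0, ← Real.rpow_add ht0]
            congr 2
            rw [hκ]
            ring
    refine (norm_integral_le_of_norm_le (g := fun t ↦ C * S * t ^ (κ - 1)) ?_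
      ((ae_restrict_iff' measurableSet_Ioc).mpr (Eventually.of_forall h7))).trans ?_
    · refine Integrable.const_mul ?_ _
      have := intervalIntegral.intervalIntegrable_rpow' (a := 1) (b := Real.exp L)
        (r := κ - 1) (by linarith)
      rwa [intervalIntegrable_iff_integrableOn_Ioc_of_le hexp1] at this
    · rw [integral_const_mul, ← intervalIntegral.integral_of_le hexp1,
        integral_rpow (Or.inl (by linarith)), sub_add_cancel]
      have h8 : Real.exp L ^ κ = Real.exp (κ * L) := by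
        rw [← Real.exp_mul, mul_comm]
      rw [h8, Real.one_rpow]
      have : 0 ≤ C * S := by positivity
      refine mul_le_mul_of_nonneg_left ?_ this
      gcongr
      linarith
  have h9 : ‖φ 0‖ ≤ S * Real.exp (κ * L) := by nlinarith
  calc ‖φ 0‖ + ‖∫ t in (1 : ℝ)..N, φ' (Real.log t) / t *
      ((∑ n ∈ Finset.Icc 0 ⌊t⌋₊, Λ n - t : ℝ) : ℂ)‖ ≤ S * Real.exp (κ * L) +
        C * S * (Real.exp (κ * L) / κ) := add_le_add h9 h5
    _ = (1 + C / κ) * S * Real.exp (κ * L) := by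
        field_simp

end Pool.Agent.H6.Weil
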