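import Pool.Agent.H6.Weil.Growth

/-!
Lower bound for Weil's functional on functions supported in `[-T, T]`.
-/

set_option autoImplicit false

open Complex Filter Topology MeasureTheory Set LSeries Metric
open scoped ArithmeticFunction.vonMangoldt

namespace Pool.Agent.H6.Weil

open Pool.Agent.H6

variable {f : ℝ → ℂ}

/-- the derivative of the autocorrelation -/
noncomputable def acorr' (f : ℝ → ℂ) (u : ℝ) : ℂ :=
  ∫ v : ℝ, deriv f (u + v) * (starRingEnd ℂ) (f v)

lemma acorr_hasDerivAt (hf : ContDiff ℝ 1 f) (hs : HasCompactSupport f) (u : ℝ) :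
    HasDerivAt (acorr f) (acorr' f u) u := by
  have hfc := hf.continuous
  have hf'c : Continuous (deriv f) := hf.continuous_deriv le_rfl
  obtain ⟨B, hB⟩ := hs.deriv.exists_bound_of_continuous hf'c
  have hi : Integrable f := hfc.integrable_of_hasCompactSupport hs
  have hd : Differentiable ℝ f := hf.differentiable one_ne_zero
  have h := hasDerivAt_integral_of_dominated_loc_of_deriv_le (μ := volume)
    (F := fun u v ↦ f (u + v) * (starRingEnd ℂ) (f v)) (x₀ := u) (s := univ)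
    (F' := fun u v ↦ deriv f (u + v) * (starRingEnd ℂ) (f v)) (bound := fun v ↦ B * ‖f v‖)
    Filter.univ_mem
    (Eventually.of_forall fun u ↦ (by fun_prop : Continuous _).aestronglyMeasurable) ?_
    (by fun_prop : Continuous _).aestronglyMeasurable
    (Eventually.of_forall fun v u _ ↦ ?_) (hi.norm.const_mul B)
    (Eventually.of_forall fun v u _ ↦ ?_)
  · exact h.2
  · refine Continuous.integrable_of_hasCompactSupport (by fun_prop) ?_
    refine HasCompactSupport.mul_left ?_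
    exact hs.comp_left (g := fun z ↦ (starRingEnd ℂ) z) (by simp)
  · rw [norm_mul, RCLike.norm_conj]
    gcongr
    exact hB _
  · have h1 : HasDerivAt (fun u : ℝ ↦ f (u + v)) (deriv f (u + v)) u :=
      (hd (u + v)).hasDerivAt.comp_add_const u v
    exact h1.mul_const _

lemma acorr'_continuous (hf : ContDiff ℝ 1 f) (hs : HasCompactSupport f) :
    Continuous (acorr' f) := by
  have hfc := hf.continuous
  have hf'c : Continuous (deriv f) := hf.continuous_deriv le_rfl
  obtain ⟨B, hB⟩ := hs.deriv.exists_bound_of_continuous hf'c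
  have hint : Integrable (fun v ↦ B * ‖f v‖) :=
    ((hfc.integrable_of_hasCompactSupport hs).norm).const_mul B
  refine continuous_of_dominated (bound := fun v ↦ B * ‖f v‖) (fun u ↦ ?_) (fun u ↦ ?_) hint ?_
  · exact (by fun_prop : Continuous _).aestronglyMeasurable
  · filter_upwards with v
    rw [norm_mul, RCLike.norm_conj]
    gcongr
    exact hB _
  · filter_upwards with v
    fun_prop

lemma sq_integrable (hf : Continuous f) (hs : HasCompactSupport f) :
    Integrable fun v ↦ ‖f v‖ ^ 2 := by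
  refine Continuous.integrable_of_hasCompactSupport (by fun_prop) ?_
  exact hs.comp_left (g := fun z : ℂ ↦ ‖z‖ ^ 2) (by simp)

lemma norm_corr_le {p q : ℝ → ℂ} (hp : Continuous p) (hps : HasCompactSupport p)
    (hq : Continuous q) (hqs : HasCompactSupport q) (u : ℝ) :
    ‖∫ v : ℝ, p (u + v) * (starRingEnd ℂ) (q v)‖ ≤
      1 / 2 * ((∫ v, ‖p v‖ ^ 2) + ∫ v, ‖q v‖ ^ 2) := by
  have h1 : ∫ v, ‖p (u + v)‖ ^ 2 = ∫ v, ‖p v‖ ^ 2 :=
    integral_add_left_eq_self (fun v ↦ ‖p v‖ ^ 2) u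
  have i1 : Integrable fun v ↦ ‖p (u + v)‖ ^ 2 := (sq_integrable hp hps).comp_add_left u
  have i2 := sq_integrable hq hqs
  have h2 : 1 / 2 * ((∫ v, ‖p v‖ ^ 2) + ∫ v, ‖q v‖ ^ 2) =
      ∫ v, 1 / 2 * (‖p (u + v)‖ ^ 2 + ‖q v‖ ^ 2) := by
    rw [integral_const_mul, integral_add i1 i2, h1]
  rw [h2]
  refine norm_integral_le_of_norm_le ((i1.add i2).const_mul _) (Eventually.of_forall fun v ↦ ?_)
  rw [norm_mul, RCLike.norm_conj]
  nlinarith [sq_nonneg (‖p (u + v)‖ - ‖q v‖)]

lemma sob_one (f : ℝ → ℂ) : sob 1 f = (∫ v, ‖f v‖ ^ 2) + ∫ v, ‖deriv f v‖ ^ 2 := by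
  simp [sob, Finset.sum_range_succ]

lemma sob_nonneg (k : ℕ) (f : ℝ → ℂ) : 0 ≤ sob k f :=
  Finset.sum_nonneg fun j _ ↦ integral_nonneg fun u ↦ by positivity

/-- lower bound for the archimedean part -/
lemma arch_lower {b : ℝ} (hb : 0 ≤ b) (hb1 : b ≤ 1) : ∃ C : ℝ, 0 ≤ C ∧
    ∀ f : ℝ → ℂ, ContDiff ℝ 1 f → HasCompactSupport f →
    -(C * ∫ v, ‖f v‖ ^ 2) ≤ arch b f := by
  obtain ⟨C, hC, h⟩ := digamma_bound_re (δ := 1 / 4) (by norm_num)
  refine ⟨C + |Real.log (1 / 4)| + |Real.log Real.pi|, by positivity, fun f hf hs ↦ ?_⟩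
  set D : ℝ := C + |Real.log (1 / 4)| + |Real.log Real.pi| with hD
  have hpi := Real.pi_pos
  have hF := integrable_four_sq hf hs
  have h1 : ∫ t : ℝ, ‖four f t‖ ^ 2 = 2 * Real.pi * ∫ v, ‖f v‖ ^ 2 := by
    have h2 := acorr_inversion hf hs 0
    have h3 : acorr f 0 = ((∫ v, ‖f v‖ ^ 2 : ℝ) : ℂ) := by
      rw [acorr, ← integral_complex_ofReal]
      refine integral_congr_ae (Eventually.of_forall fun v ↦ ?_)
      simp only [zero_add]
      rw [mul_conj, normSq_eq_norm_sq]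
    have h4 : ∫ t : ℝ, ((‖four f t‖ ^ 2 : ℝ) : ℂ) * cexp (t * ((0 : ℝ) : ℂ) * I) =
        ((∫ t : ℝ, ‖four f t‖ ^ 2 : ℝ) : ℂ) := by
      rw [← integral_complex_ofReal]
      refine integral_congr_ae (Eventually.of_forall fun t ↦ ?_)
      simp
    rw [h3, h4] at h2
    exact_mod_cast h2
  have hlow : ∀ t : ℝ, -D ≤ (digamma (1 / 4 + (b : ℂ) / 2 + t / 2 * I)).re -
      Real.log Real.pi := by
    intro t
    set s : ℂ := 1 / 4 + (b : ℂ) / 2 + t / 2 * I with hs
    have hsre : s.re = 1 / 4 + b / 2 := by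
      have : s = ((1 / 4 + b / 2 : ℝ) : ℂ) + ((t / 2 : ℝ) : ℂ) * I := by
        rw [hs]
        push_cast
        ring
      rw [this]
      simp
    have h2 := h s (by rw [hsre]; linarith)
    have h3 : |(digamma s - Complex.log s).re| ≤ C := (abs_re_le_norm _).trans h2
    rw [sub_re, log_re] at h3
    have h4 : Real.log (1 / 4) ≤ Real.log ‖s‖ := by
      refine Real.log_le_log (by norm_num) ?_
      have := re_le_norm s
      rw [hsre] at this
      linarith
    have h5 := neg_abs_le (Real.log (1 / 4))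
    have h6 := le_abs_self (Real.log Real.pi)
    have h7 := (abs_le.mp h3).1
    rw [hD]
    linarith
  have hDi := arch_integrable hf hs hb hb1
  have hDr : Integrable fun t : ℝ ↦ ‖four f t‖ ^ 2 *
      ((digamma (1 / 4 + (b : ℂ) / 2 + t / 2 * I)).re - Real.log Real.pi) := by
    have h4 : Integrable fun t : ℝ ↦ ‖four f t‖ ^ 2 *
        (digamma (1 / 4 + (b : ℂ) / 2 + t / 2 * I)).re := by
      refine hDi.re.congr (Eventually.of_forall fun t ↦ ?_)
      exact re_ofReal_mul _ _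
    refine (h4.sub (hF.mul_const (Real.log Real.pi))).congr (Eventually.of_forall fun t ↦ ?_)
    simp only [Pi.sub_apply]
    ring
  have h8 : ∫ t : ℝ, ‖four f t‖ ^ 2 * (-D) ≤ ∫ t : ℝ, ‖four f t‖ ^ 2 *
      ((digamma (1 / 4 + (b : ℂ) / 2 + t / 2 * I)).re - Real.log Real.pi) := by
    refine integral_mono (hF.mul_const _) hDr fun t ↦ ?_
    exact mul_le_mul_of_nonneg_left (hlow t) (by positivity)
  rw [integral_mul_const, h1] at h8
  rw [arch]
  have h9 := mul_le_mul_of_nonneg_left h8 (by positivity : 0 ≤ 1 / (2 * Real.pi))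
  refine le_trans (le_of_eq ?_) h9
  field_simp

/-- **Growth of the negative part of Weil's functional.** -/
theorem weil_lower {a b : ℝ} (ha : 0 ≤ a) (hb : 0 ≤ b) (hab : a + b < 1 / 2)
    (hZ : ∀ s : ℂ, 1 / 2 + b + a < s.re → riemannZeta s ≠ 0) {ε : ℝ} (hε : 0 < ε) :
    ∃ C : ℝ, ∀ (T : ℝ) (f : ℝ → ℂ), 0 ≤ T → ContDiff ℝ 1 f → HasCompactSupport f →
      (∀ u, T < |u| → f u = 0) →
      -(C * Real.exp ((2 * a + ε) * T) * sob 1 f) ≤ weil b f := by
  obtain ⟨C, hC, hdisc⟩ := prime_discrepancy_le ha hb hab hZ (ε := ε / 2) (by linarith)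
  obtain ⟨C₂, hC₂, harch⟩ := arch_lower hb (by linarith)
  refine ⟨4 * C + 4 + C₂, fun T f hT hf hs hsupp ↦ ?_⟩
  have hfc := hf.continuous
  have hf'c : Continuous (deriv f) := hf.continuous_deriv le_rfl
  set S : ℝ := sob 1 f with hS
  have hS0 : 0 ≤ S := sob_nonneg 1 f
  have hSeq : S = (∫ v, ‖f v‖ ^ 2) + ∫ v, ‖deriv f v‖ ^ 2 := sob_one f
  have ha0 : 0 ≤ ∫ v, ‖f v‖ ^ 2 := integral_nonneg fun v ↦ by positivity
  have hb0 : 0 ≤ ∫ v, ‖deriv f v‖ ^ 2 := integral_nonneg fun v ↦ by positivity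
  have hA : ∀ u, ‖acorr f u‖ ≤ S := by
    intro u
    have := norm_corr_le hfc hs hfc hs u
    rw [acorr]
    linarith
  have hA' : ∀ u, ‖acorr' f u‖ ≤ S := by
    intro u
    have := norm_corr_le hf'c hs.deriv hfc hs u
    rw [acorr']
    linarith
  set φ : ℝ → ℂ := fun u ↦ acorr f (-u) * cexp (-((1 / 2 + b) * u)) with hφ
  set φ' : ℝ → ℂ := fun u ↦ -acorr' f (-u) * cexp (-((1 / 2 + b) * u)) +
    acorr f (-u) * (cexp (-((1 / 2 + b) * u)) * (-(1 / 2 + b))) with hφ'
  have hφd : ∀ u, HasDerivAt φ (φ' u) u := by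
    intro u
    have h1 : HasDerivAt (fun u : ℝ ↦ acorr f (-u)) (-acorr' f (-u)) u := by
      have h := (acorr_hasDerivAt hf hs (-u)).scomp u (hasDerivAt_neg u)
      rw [neg_one_smul] at h
      exact h
    have h2 : HasDerivAt (fun u : ℝ ↦ cexp (-((1 / 2 + b) * u)))
        (cexp (-((1 / 2 + b) * u)) * (-(1 / 2 + b))) u := by
      have h3 : HasDerivAt (fun u : ℝ ↦ (-((1 / 2 + (b : ℂ)) * u))) (-(1 / 2 + b)) u := by
        have h4 : HasDerivAt (fun u : ℝ ↦ (u : ℂ)) 1 u := (hasDerivAt_id u).ofReal_comp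
        have h5 := (h4.const_mul (1 / 2 + (b : ℂ))).neg
        rw [mul_one] at h5
        exact h5
      exact h3.cexp
    exact h1.mul h2
  have hac := acorr_continuous hfc hs
  have ha'c := acorr'_continuous hf hs
  have hφ'c : Continuous φ' := by fun_prop
  have hexp : ∀ u : ℝ, ‖cexp (-((1 / 2 + b) * u))‖ = Real.exp (-((1 / 2 + b) * u)) := by
    intro u
    have : (-((1 / 2 + (b : ℂ)) * u)) = ((-((1 / 2 + b) * u) : ℝ) : ℂ) := by push_cast; ring
    rw [this, ← ofReal_exp, norm_real, Real.norm_of_nonneg (Real.exp_pos _).le]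
  have h0 : ∀ u, 2 * T < u → φ u = 0 := by
    intro u hu
    simp only [hφ]
    rw [acorr_eq_zero hsupp, zero_mul]
    rw [abs_neg]
    exact lt_of_lt_of_le hu (le_abs_self u)
  have hφ0 : ‖φ 0‖ ≤ 2 * S := by
    simp only [hφ]
    rw [norm_mul, hexp]
    have := hA (-0)
    simp only [mul_zero, neg_zero, Real.exp_zero, mul_one]
    rw [neg_zero] at this
    linarith
  have hφ'b : ∀ u, 0 ≤ u → ‖φ' u‖ ≤ 2 * S * Real.exp (-((1 / 2 + b) * u)) := by
    intro u _
    simp only [hφ']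
    refine (norm_add_le _ _).trans ?_
    rw [norm_mul, norm_mul, norm_mul, norm_neg, hexp]
    have h1 := hA' (-u)
    have h2 := hA (-u)
    have h3 := (Real.exp_pos (-((1 / 2 + b) * u))).le
    have h4 : ‖(-(1 / 2 + (b : ℂ)))‖ ≤ 1 := by
      rw [norm_neg]
      have : (1 / 2 + (b : ℂ)) = ((1 / 2 + b : ℝ) : ℂ) := by push_cast; ring
      rw [this, norm_real, Real.norm_of_nonneg (by linarith)]
      linarith
    calc ‖acorr' f (-u)‖ * Real.exp (-((1 / 2 + b) * u)) + ‖acorr f (-u)‖ *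
        (Real.exp (-((1 / 2 + b) * u)) * ‖(-(1 / 2 + (b : ℂ)))‖) ≤
          S * Real.exp (-((1 / 2 + b) * u)) + S * (Real.exp (-((1 / 2 + b) * u)) * 1) := by gcongr
      _ = 2 * S * Real.exp (-((1 / 2 + b) * u)) := by ring
  have hmain := hdisc φ φ' (2 * S) (2 * T) hφd hφ'c (by linarith) (by linarith) h0 hφ0 hφ'b
  have e1 : (a + ε / 2) * (2 * T) = (2 * a + ε) * T := by ring
  rw [e1] at hmain
  -- identification with the prime side
  have h1 : primeSide f (b : ℂ) =
      ((∫ u in Ioi (0 : ℝ), cexp u * φ u) - ∑' n : ℕ, (Λ n : ℂ) * φ (Real.log n)) +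
      ∫ u in Ioi (0 : ℝ), cexp (-((1 / 2 + b) * u)) * acorr f (-u) := by
    have h3 : ∫ u in Ioi (0 : ℝ), cexp (-(((b : ℂ) - 1 / 2) * u)) * acorr f (-u) =
        ∫ u in Ioi (0 : ℝ), cexp u * φ u := by
      refine setIntegral_congr_fun measurableSet_Ioi fun u _ ↦ ?_
      simp only [hφ]
      have : cexp (-(((b : ℂ) - 1 / 2) * u)) = cexp u * cexp (-((1 / 2 + b) * u)) := by
        rw [← Complex.exp_add]
        congr 1
        ring
      rw [this]
      ring
    have h4 : ∑' n : ℕ, Λ n / (n : ℂ) ^ (1 / 2 + (b : ℂ)) * acorr f (-Real.log n) =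
        ∑' n : ℕ, (Λ n : ℂ) * φ (Real.log n) := by
      refine tsum_congr fun n ↦ ?_
      rcases eq_or_ne n 0 with rfl | hn
      · simp
      · have hnc : (n : ℂ) ≠ 0 := by exact_mod_cast hn
        simp only [hφ]
        have h5 : (n : ℂ) ^ (1 / 2 + (b : ℂ)) = cexp ((1 / 2 + b) * Real.log n) := by
          rw [cpow_def_of_ne_zero hnc, natCast_log]
          congr 1
          ring
        rw [h5, Complex.exp_neg]
        field_simp
    rw [primeSide, h3, h4]
    ring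
  have h2 : ‖∫ u in Ioi (0 : ℝ), cexp (-((1 / 2 + b) * u)) * acorr f (-u)‖ ≤ 2 * S := by
    have h3 : ∫ u in Ioi (0 : ℝ), S * Real.exp (-(1 / 2) * u) = 2 * S := by
      rw [integral_const_mul, integral_exp_mul_Ioi (by norm_num)]
      norm_num
      ring
    rw [← h3]
    refine norm_integral_le_of_norm_le ?_ ((ae_restrict_iff' measurableSet_Ioi).mpr
      (Eventually.of_forall fun u hu ↦ ?_))
    · exact (integrableOn_exp_mul_Ioi (a := -(1 / 2)) (by norm_num) 0).const_mul S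
    · rw [norm_mul, hexp]
      have hu0 : (0 : ℝ) < u := hu
      have h4 := hA (-u)
      have h5 : Real.exp (-((1 / 2 + b) * u)) ≤ Real.exp (-(1 / 2) * u) := by
        refine Real.exp_le_exp.mpr ?_
        have : 0 ≤ b * u := by positivity
        linarith
      rw [mul_comm]
      gcongr
  have h3 : -(C * (2 * S) * Real.exp ((2 * a + ε) * T) + 2 * S) ≤ (primeSide f (b : ℂ)).re := by
    rw [h1]
    have h4 := (abs_re_le_norm (((∫ u in Ioi (0 : ℝ), cexp u * φ u) -
      ∑' n : ℕ, (Λ n : ℂ) * φ (Real.log n)) +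
      ∫ u in Ioi (0 : ℝ), cexp (-((1 / 2 + b) * u)) * acorr f (-u))).trans (norm_add_le _ _)
    have h5 := neg_abs_le (((∫ u in Ioi (0 : ℝ), cexp u * φ u) -
      ∑' n : ℕ, (Λ n : ℂ) * φ (Real.log n)) +
      ∫ u in Ioi (0 : ℝ), cexp (-((1 / 2 + b) * u)) * acorr f (-u)).re
    linarith
  have h4 := harch f hf hs
  have h5 : (1 : ℝ) ≤ Real.exp ((2 * a + ε) * T) := Real.one_le_exp (by positivity)
  have h6 : C₂ * ∫ v, ‖f v‖ ^ 2 ≤ C₂ * S := by
    gcongr
    linarith
  rw [weil_eq hfc hs]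
  have h7 : C₂ * S ≤ C₂ * S * Real.exp ((2 * a + ε) * T) :=
    le_mul_of_one_le_right (by positivity) h5
  have h8 : 4 * S ≤ 4 * S * Real.exp ((2 * a + ε) * T) :=
    le_mul_of_one_le_right (by positivity) h5
  have h9 : (4 * C + 4 + C₂) * Real.exp ((2 * a + ε) * T) * S =
      2 * (C * (2 * S) * Real.exp ((2 * a + ε) * T)) + 4 * S * Real.exp ((2 * a + ε) * T) +
        C₂ * S * Real.exp ((2 * a + ε) * T) := by ring
  rw [h9]
  linarith

end Pool.Agent.H6.Weil
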