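import Pool.Agent.H6.PsiBound

/-!
The logarithmic derivative of `(s - 1) ζ(s)` in a zero-free half-plane.
-/

set_option autoImplicit false

open Complex Filter Topology MeasureTheory Set LSeries Metric
open scoped ArithmeticFunction.vonMangoldt

namespace Pool.Agent.H6.Weil

open Pool.Agent.H6

/-- the logarithmic derivative of `(s - 1) ζ(s)` -/
noncomputable def Zld (s : ℂ) : ℂ := deriv zetaPole s / zetaPole s

lemma Zld_eq {s : ℂ} (hs : s ≠ 1) (hz : riemannZeta s ≠ 0) :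
    Zld s = deriv riemannZeta s / riemannZeta s + 1 / (s - 1) := by
  have h2 : zetaPole =ᶠ[𝓝 s] fun s ↦ (s - 1) * riemannZeta s := by
    filter_upwards [isOpen_ne.mem_nhds hs] with z hz
    exact zetaPole_of_ne hz
  have h3 : HasDerivAt (fun s ↦ (s - 1) * riemannZeta s)
      (1 * riemannZeta s + (s - 1) * deriv riemannZeta s) s :=
    ((hasDerivAt_id s).sub_const 1).mul (differentiableAt_riemannZeta hs).hasDerivAt
  rw [Zld, h2.deriv_eq, h3.deriv, zetaPole_of_ne hs]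
  have h6 : s - 1 ≠ 0 := sub_ne_zero.mpr hs
  field_simp
  ring

lemma Zld_differentiableAt {θ : ℝ} (hZ : ∀ s : ℂ, θ < s.re → riemannZeta s ≠ 0) {s : ℂ}
    (hs : θ < s.re) : DifferentiableAt ℂ Zld s := by
  have h1 := zetaPole_ne_zero_of hZ s hs
  have h2 : DifferentiableAt ℂ (deriv zetaPole) s :=
    ((zetaPole_differentiable.analyticAt s).deriv).differentiableAt
  exact h2.div (zetaPole_differentiable s) h1

lemma Zld_bound {θ : ℝ} (hθ : 1 / 2 ≤ θ) (hθ1 : θ < 1)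
    (hZ : ∀ s : ℂ, θ < s.re → riemannZeta s ≠ 0) {σ : ℝ} (hσ : θ < σ) {η : ℝ} (hη : 0 < η) :
    ∃ C : ℝ, 0 ≤ C ∧ ∀ s : ℂ, σ ≤ s.re → s.re ≤ 2 → ‖Zld s‖ ≤ C * (1 + |s.im|) ^ η := by
  set σ₁ : ℝ := min σ 1 with hσ₁
  have hσ₁1 : σ₁ ≤ 1 := min_le_right _ _
  have hσ₁θ : θ < σ₁ := lt_min hσ hθ1
  set σ' : ℝ := (θ + σ₁) / 2 with hσ'
  have hσ'1 : σ' ≤ 1 := by rw [hσ']; linarith
  have hσ'θ : θ < σ' := by rw [hσ']; linarith
  have hσ'σ : σ' < σ₁ := by rw [hσ']; linarith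
  obtain ⟨K, a, hK, ha, ha1, hL⟩ := log_bound hθ hθ1 hZ hσ'θ hσ'1
  obtain ⟨T, hT2, hT⟩ := eventually_log_le (K := K) (a := a) hη ha1
  set r : ℝ := σ₁ - σ' with hr
  have hr0 : 0 < r := by rw [hr]; linarith
  have hcompact : IsCompact (Icc σ₁ 2 ×ℂ Icc (-T) T) := isCompact_Icc.reProdIm isCompact_Icc
  have hcont : ContinuousOn Zld (Icc σ₁ 2 ×ℂ Icc (-T) T) := by
    intro s hs
    have h1 : θ < s.re := lt_of_lt_of_le hσ₁θ (mem_reProdIm.mp hs).1.1
    exact (Zld_differentiableAt hZ h1).continuousAt.continuousWithinAt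
  obtain ⟨M, hM⟩ := hcompact.exists_bound_of_continuousOn hcont
  refine ⟨max M (1 / r + 1), le_trans (by positivity) (le_max_right _ _), fun s hs hs2 ↦ ?_⟩
  have hσs : σ₁ ≤ s.re := (min_le_left _ _).trans hs
  have hbase : (1 : ℝ) ≤ 1 + |s.im| := by linarith [abs_nonneg s.im]
  have hone : (1 : ℝ) ≤ (1 + |s.im|) ^ η := Real.one_le_rpow hbase hη.le
  rcases le_or_gt |s.im| T with hsm | hlg
  · have h1 := hM s (mem_reProdIm.mpr ⟨⟨hσs, hs2⟩, abs_le.mp hsm⟩)
    refine h1.trans ((le_max_left M (1 / r + 1)).trans ?_)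
    have h3 : 0 ≤ max M (1 / r + 1) := le_trans (by positivity) (le_max_right _ _)
    nlinarith
  · have ht2 : 2 ≤ |s.im| := by linarith
    have htpos : 0 < |s.im| := by linarith
    obtain ⟨L, hLd, hLe, hLb⟩ := hL s.im ht2
    obtain ⟨h1, h2⟩ := mem_ball_of_strip hσ₁θ hσs hs2
    have h4 := hT |s.im| hlg.le
    have hs1 : s ≠ 1 := by
      intro h
      rw [h, one_im, abs_zero] at ht2
      linarith
    have hmono : |s.im| ^ η ≤ (1 + |s.im|) ^ η :=
      Real.rpow_le_rpow (abs_nonneg _) (by linarith) hη.le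
    -- the logarithmic derivative
    have h9 : ‖deriv riemannZeta s / riemannZeta s‖ ≤ |s.im| ^ η / r := by
      rw [← (hLd s h2).deriv]
      have hsub : closedBall s r ⊆ closedBall (cen s.im) (2 - σ') := by
        intro z hz
        rw [mem_closedBall, dist_eq_norm] at hz ⊢
        have : z - cen s.im = (z - s) + (s - cen s.im) := by ring
        rw [this]
        refine (norm_add_le _ _).trans ?_
        rw [hr] at hz
        linarith
      have hsub2 : closedBall (cen s.im) (2 - σ') ⊆ ball (cen s.im) (2 - θ) :=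
        closedBall_subset_ball (by linarith)
      have hbig : ∀ z ∈ closedBall s r, ‖L z‖ ≤ |s.im| ^ η := by
        intro z hz
        have h10 := hsub hz
        rw [mem_closedBall, dist_eq_norm] at h10
        have h11 := hLb z h10
        have h12 : Real.log |s.im| ≤ |s.im| ^ η / η := Real.log_le_rpow_div htpos.le hη
        rw [le_div_iff₀ hη] at h12
        linarith
      refine Complex.norm_deriv_le_of_forall_mem_sphere_norm_le hr0 ?_
        (fun z hz ↦ hbig z (sphere_subset_closedBall hz))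
      refine DifferentiableOn.diffContOnCl ?_
      rw [closure_ball _ hr0.ne']
      exact fun z hz ↦ (hLd z (hsub2 (hsub hz))).differentiableAt.differentiableWithinAt
    have h10 : ‖1 / (s - 1)‖ ≤ 1 := by
      rw [norm_div, norm_one]
      rw [div_le_one]
      · have := abs_im_le_norm (s - 1)
        rw [sub_im, one_im, sub_zero] at this
        linarith
      · exact norm_pos_iff.mpr (sub_ne_zero.mpr hs1)
    rw [Zld_eq hs1 (hZ s (lt_of_lt_of_le hσ₁θ hσs))]
    calc ‖deriv riemannZeta s / riemannZeta s + 1 / (s - 1)‖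
        ≤ ‖deriv riemannZeta s / riemannZeta s‖ + ‖1 / (s - 1)‖ := norm_add_le _ _
      _ ≤ |s.im| ^ η / r + 1 := add_le_add h9 h10
      _ ≤ (1 + |s.im|) ^ η / r + (1 + |s.im|) ^ η := by gcongr
      _ = (1 / r + 1) * (1 + |s.im|) ^ η := by ring
      _ ≤ max M (1 / r + 1) * (1 + |s.im|) ^ η := by
          gcongr
          exact le_max_right _ _

/-- the pole part and the logarithmic derivative of zeta together -/
noncomputable def Lf (s : ℂ) : ℂ := 1 / s + Zld s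

lemma Lf_differentiableAt {θ : ℝ} (hθ : 1 / 2 ≤ θ)
    (hZ : ∀ s : ℂ, θ < s.re → riemannZeta s ≠ 0) {s : ℂ}
    (hs : θ < s.re) : DifferentiableAt ℂ Lf s := by
  have hs0 : s ≠ 0 := by intro h; rw [h, zero_re] at hs; linarith
  exact ((differentiableAt_const 1).div differentiableAt_id hs0).add (Zld_differentiableAt hZ hs)

lemma Lf_bound {θ : ℝ} (hθ : 1 / 2 ≤ θ) (hθ1 : θ < 1)
    (hZ : ∀ s : ℂ, θ < s.re → riemannZeta s ≠ 0) {σ : ℝ} (hσ : θ < σ) {η : ℝ} (hη : 0 < η) :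
    ∃ C : ℝ, 0 ≤ C ∧ ∀ s : ℂ, σ ≤ s.re → s.re ≤ 2 → ‖Lf s‖ ≤ C * (1 + |s.im|) ^ η := by
  obtain ⟨C, hC, h⟩ := Zld_bound hθ hθ1 hZ hσ hη
  refine ⟨C + 2, by positivity, fun s hs hs2 ↦ ?_⟩
  have h1 : ‖1 / s‖ ≤ 2 := by
    rw [norm_div, norm_one]
    have h2 : s.re ≤ ‖s‖ := re_le_norm s
    rw [div_le_iff₀ (by linarith)]
    linarith
  have hbase : (1 : ℝ) ≤ 1 + |s.im| := by linarith [abs_nonneg s.im]
  have hone : (1 : ℝ) ≤ (1 + |s.im|) ^ η := Real.one_le_rpow hbase hη.le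
  calc ‖Lf s‖ ≤ ‖1 / s‖ + ‖Zld s‖ := norm_add_le _ _
    _ ≤ 2 * (1 + |s.im|) ^ η + C * (1 + |s.im|) ^ η := by
        gcongr
        · linarith
        · exact h s hs hs2
    _ = (C + 2) * (1 + |s.im|) ^ η := by ring

lemma Zld_eq_tsum {s : ℂ} (hs : 1 < s.re) :
    Zld s = 1 / (s - 1) - LSeries (fun n ↦ ((Λ n : ℝ) : ℂ)) s := by
  have hs1 : s ≠ 1 := by intro h; rw [h, one_re] at hs; exact lt_irrefl _ hs
  have h4 : LSeries (fun n ↦ ((Λ n : ℝ) : ℂ)) s = - deriv riemannZeta s / riemannZeta s :=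
    ArithmeticFunction.LSeries_vonMangoldt_eq_deriv_riemannZeta_div hs
  rw [h4, Zld_eq hs1 (riemannZeta_ne_zero_of_one_lt_re hs)]
  ring

end Pool.Agent.H6.Weil
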