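import Pool.Agent.H6.Weil.DigRe
import Pool.Agent.H6.Weil.Zld
import Pool.Agent.H6.HalfJensen

/-!
`Re (ξ'/ξ)(s) ≥ 0` to the right of all zeros, without the Hadamard product: the Jensen type
inequality on large circles together with the functional equation.
-/

set_option autoImplicit false

open Complex Filter Topology MeasureTheory Set LSeries Metric
open scoped ArithmeticFunction.Moebius

namespace Pool.Agent.H6.Weil

open Pool.Agent.H6

/-- `s (s - 1) π^(-s/2) Γ(s/2) ζ(s)`, entire -/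
noncomputable def xi2 (s : ℂ) : ℂ := s * (s - 1) * completedRiemannZeta₀ s + 1

lemma xi2_differentiable : Differentiable ℂ xi2 := by
  unfold xi2
  have := differentiable_completedZeta₀
  fun_prop

lemma xi2_one_sub (s : ℂ) : xi2 (1 - s) = xi2 s := by
  rw [xi2, xi2, completedRiemannZeta₀_one_sub]
  ring

lemma Gammaℝ_one' : Gammaℝ 1 = 1 := Gammaℝ_one

lemma xi2_eq {s : ℂ} (hs : 0 < s.re) : xi2 s = s * zetaPole s * Gammaℝ s := by
  have hs0 : s ≠ 0 := by intro h; rw [h, zero_re] at hs; exact lt_irrefl _ hs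
  rcases eq_or_ne s 1 with rfl | h1
  · rw [xi2, zetaPole_one, Gammaℝ_one]
    ring
  · have h2 : (1 - s : ℂ) ≠ 0 := sub_ne_zero.mpr (Ne.symm h1)
    have h3 : Gammaℝ s ≠ 0 := Gammaℝ_ne_zero_of_re_pos hs
    rw [zetaPole_of_ne h1, riemannZeta_def_of_ne_zero hs0, completedRiemannZeta_eq, xi2]
    field_simp
    ring

lemma xi2_ne_zero {θ : ℝ} (hθ : 1 / 2 ≤ θ) (hZ : ∀ s : ℂ, θ < s.re → riemannZeta s ≠ 0) {s : ℂ}
    (hs : θ < s.re) : xi2 s ≠ 0 := by
  have hs' : 0 < s.re := by linarith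
  have hs0 : s ≠ 0 := by intro h; rw [h, zero_re] at hs'; exact lt_irrefl _ hs'
  rw [xi2_eq hs']
  exact mul_ne_zero (mul_ne_zero hs0 (zetaPole_ne_zero_of hZ s hs)) (Gammaℝ_ne_zero_of_re_pos hs')

lemma Gammaℝ_hasDerivAt {s : ℂ} (hs : 0 < s.re) :
    HasDerivAt Gammaℝ (Gammaℝ s * (-(Real.log Real.pi : ℂ) / 2 + digamma (s / 2) / 2)) s := by
  have hpi : (Real.pi : ℂ) ≠ 0 := by exact_mod_cast Real.pi_ne_zero
  have hs2 : 0 < (s / 2).re := by
    have : (s / 2).re = s.re / 2 := by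
      simp
    rw [this]; linarith
  have h1 : HasDerivAt (fun s : ℂ ↦ (Real.pi : ℂ) ^ (-s / 2))
      ((Real.pi : ℂ) ^ (-s / 2) * Complex.log Real.pi * (-1 / 2)) s := by
    have h2 : HasDerivAt (fun s : ℂ ↦ -s / 2) (-1 / 2) s := ((hasDerivAt_id s).neg).div_const 2
    exact h2.const_cpow (Or.inl hpi)
  have h3 : HasDerivAt Gamma (deriv Gamma (s / 2)) (s / 2) := by
    refine (differentiableAt_Gamma _ fun m h ↦ ?_).hasDerivAt
    rw [h] at hs2
    simp at hs2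
    have : (0 : ℝ) ≤ m := Nat.cast_nonneg m
    linarith
  have h4 : HasDerivAt (fun s : ℂ ↦ Gamma (s / 2)) (deriv Gamma (s / 2) * (1 / 2)) s :=
    h3.comp s ((hasDerivAt_id s).div_const 2)
  have h5 := h1.mul h4
  have h6 : (fun s : ℂ ↦ (Real.pi : ℂ) ^ (-s / 2) * Gamma (s / 2)) = Gammaℝ := by
    ext s
    rw [Gammaℝ_def]
  have h7 : Gamma (s / 2) ≠ 0 := Gamma_ne_zero_of_re_pos hs2
  change HasDerivAt (fun s : ℂ ↦ (Real.pi : ℂ) ^ (-s / 2) * Gamma (s / 2)) _ s at h5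
  rw [h6] at h5
  convert h5 using 1
  rw [digamma_def, logDeriv_apply, Gammaℝ_def, ← ofReal_log Real.pi_pos.le]
  field_simp

/-- the logarithmic derivative of `xi2` -/
lemma xi2_logDeriv {θ : ℝ} (hθ : 1 / 2 ≤ θ) (hZ : ∀ s : ℂ, θ < s.re → riemannZeta s ≠ 0) {s : ℂ}
    (hs : θ < s.re) : deriv xi2 s / xi2 s = Lf s - Real.log Real.pi / 2 + digamma (s / 2) / 2 := by
  have hs' : 0 < s.re := by linarith
  have hs0 : s ≠ 0 := by intro h; rw [h, zero_re] at hs'; exact lt_irrefl _ hs'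
  have h1 : xi2 =ᶠ[𝓝 s] fun s ↦ s * zetaPole s * Gammaℝ s := by
    filter_upwards [(isOpen_re_gt 0).mem_nhds hs'] with z hz
    exact xi2_eq hz
  have h2 : HasDerivAt (fun s ↦ s * zetaPole s * Gammaℝ s)
      ((1 * zetaPole s + s * deriv zetaPole s) * Gammaℝ s + s * zetaPole s *
        (Gammaℝ s * (-(Real.log Real.pi : ℂ) / 2 + digamma (s / 2) / 2))) s :=
    ((hasDerivAt_id s).mul (zetaPole_differentiable s).hasDerivAt).mul (Gammaℝ_hasDerivAt hs')
  rw [h1.deriv_eq, h2.deriv, xi2_eq hs', Lf, Zld]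
  have h3 := zetaPole_ne_zero_of hZ s hs
  have h4 : Gammaℝ s ≠ 0 := Gammaℝ_ne_zero_of_re_pos hs'
  field_simp
  ring

lemma norm_inv_zeta_le {s : ℂ} (hs : 2 ≤ s.re) : ‖(riemannZeta s)⁻¹‖ ≤ 2 := by
  have h1s : 1 < s.re := by linarith
  have h1 := ArithmeticFunction.LSeries_zeta_mul_Lseries_moebius h1s
  rw [ArithmeticFunction.LSeries_zeta_eq_riemannZeta h1s] at h1
  rw [inv_eq_of_mul_eq_one_right h1]
  have hsum : Summable fun n : ℕ ↦ 1 / (n : ℝ) ^ 2 := Real.summable_one_div_nat_pow.mpr (by norm_num)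
  have h2 : ∑' n : ℕ, 1 / (n : ℝ) ^ 2 ≤ 2 := by
    rw [hasSum_zeta_two.tsum_eq]
    nlinarith [Real.pi_lt_d2, Real.pi_pos]
  refine (tsum_of_norm_bounded hsum.hasSum fun n ↦ ?_).trans h2
  rcases eq_or_ne n 0 with rfl | hn
  · simp
  · have hn1 : (1 : ℝ) ≤ n := by exact_mod_cast Nat.one_le_iff_ne_zero.mpr hn
    rw [term_of_ne_zero hn, norm_div, norm_natCast_cpow_of_pos (Nat.pos_of_ne_zero hn)]
    have h3 : ‖((μ n : ℤ) : ℂ)‖ ≤ 1 := by
      rw [norm_intCast]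
      exact_mod_cast ArithmeticFunction.abs_moebius_le_one
    have h4 : (n : ℝ) ^ 2 ≤ (n : ℝ) ^ s.re := by
      rw [← Real.rpow_natCast]
      exact Real.rpow_le_rpow_of_exponent_le hn1 (by exact_mod_cast hs)
    have h5 : (0 : ℝ) < (n : ℝ) ^ 2 := by positivity
    gcongr

end Pool.Agent.H6.Weil
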