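import Pool.Agent.H6.Weil.Posit

/-!
Positivity of `Re (ξ'/ξ)` in a zero-free half-plane.
-/

set_option autoImplicit false

open Complex Filter Topology MeasureTheory Set LSeries Metric

namespace Pool.Agent.H6.Weil

open Pool.Agent.H6

lemma gamma_compare {c : ℂ} (hc : 1 / 2 < c.re) (hc1 : c.re < 1) : ∃ K : ℝ, 0 ≤ K ∧ ∀ w : ℂ,
    0 ≤ w.re → ‖Gamma ((1 - c + w) / 2)‖ ≤
      ‖Gamma ((c + w) / 2)‖ * Real.exp (K * (1 + ‖w‖) ^ (1 / 2 : ℝ)) := by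
  set δ : ℝ := (1 - c.re) / 2 with hδ
  have hδ0 : 0 < δ := by rw [hδ]; linarith
  obtain ⟨C, hC, hb⟩ := digamma_growth hδ0 (η := 1 / 2) (by norm_num)
  set A : ℝ := 1 + ‖c‖ + ‖1 - 2 * c‖ with hA
  have hA0 : 0 ≤ A := by positivity
  refine ⟨C * A ^ (1 / 2 : ℝ) * (‖1 - 2 * c‖ / 2), by positivity, fun w hw ↦ ?_⟩
  set γ : ℝ → ℂ := fun x ↦ ((c + w) + x * (1 - 2 * c)) / 2 with hγ
  have hγre : ∀ x ∈ Icc (0 : ℝ) 1, δ ≤ (γ x).re := by
    intro x hx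
    have h1 : (γ x).re = (c.re + w.re + x * (1 - 2 * c.re)) / 2 := by
      simp [hγ]
    rw [h1, hδ]
    have h2 : (1 - 2 * c.re) ≤ x * (1 - 2 * c.re) := by nlinarith [hx.1, hx.2]
    linarith
  have hγn : ∀ x ∈ Icc (0 : ℝ) 1, 1 + ‖γ x‖ ≤ A * (1 + ‖w‖) := by
    intro x hx
    have h1 : ‖γ x‖ ≤ ‖c‖ + ‖w‖ + ‖1 - 2 * c‖ := by
      rw [hγ]
      simp only [norm_div, RCLike.norm_ofNat]
      have h2 : ‖c + w + x * (1 - 2 * c)‖ ≤ ‖c‖ + ‖w‖ + ‖1 - 2 * c‖ := by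
        refine (norm_add_le _ _).trans ?_
        refine add_le_add (norm_add_le _ _) ?_
        rw [norm_mul, norm_real, Real.norm_of_nonneg hx.1]
        nlinarith [norm_nonneg (1 - 2 * c), hx.2]
      have h3 := norm_nonneg (c + w + x * (1 - 2 * c))
      linarith
    rw [hA]
    nlinarith [norm_nonneg c, norm_nonneg w, norm_nonneg (1 - 2 * c)]
  have hγd : ∀ x : ℝ, HasDerivAt γ ((1 - 2 * c) / 2) x := by
    intro x
    have h1 : HasDerivAt (fun x : ℝ ↦ (x : ℂ)) 1 x := (hasDerivAt_id x).ofReal_comp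
    have h2 := ((h1.mul_const (1 - 2 * c)).const_add (c + w)).div_const 2
    simpa using h2
  have hG : ∀ x ∈ Icc (0 : ℝ) 1, HasDerivAt (fun x ↦ Gamma (γ x))
      (Gamma (γ x) * digamma (γ x) * ((1 - 2 * c) / 2)) x := by
    intro x hx
    have h1 : 0 < (γ x).re := lt_of_lt_of_le hδ0 (hγre x hx)
    have h2 : HasDerivAt Gamma (deriv Gamma (γ x)) (γ x) := by
      refine (differentiableAt_Gamma _ fun m h ↦ ?_).hasDerivAt
      rw [h] at h1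
      simp at h1
      have : (0 : ℝ) ≤ m := Nat.cast_nonneg m
      linarith
    have h3 : HasDerivAt (fun x ↦ Gamma (γ x)) (deriv Gamma (γ x) * ((1 - 2 * c) / 2)) x :=
      HasDerivAt.comp x h2 (hγd x)
    convert h3 using 2
    rw [digamma_def, logDeriv_apply]
    have := Gamma_ne_zero_of_re_pos h1
    field_simp
  have key := norm_le_gronwallBound_of_norm_deriv_right_le (f := fun x ↦ Gamma (γ x))
    (f' := fun x ↦ Gamma (γ x) * digamma (γ x) * ((1 - 2 * c) / 2))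
    (δ := ‖Gamma (γ 0)‖) (K := C * A ^ (1 / 2 : ℝ) * (‖1 - 2 * c‖ / 2) * (1 + ‖w‖) ^ (1 / 2 : ℝ))
    (ε := 0) (a := 0) (b := 1) (fun x hx ↦ (hG x hx).continuousAt.continuousWithinAt)
    (fun x hx ↦ (hG x ⟨hx.1, hx.2.le⟩).hasDerivWithinAt) le_rfl ?_ 1 (by simp)
  · rw [gronwallBound_ε0] at key
    have e0 : γ 0 = (c + w) / 2 := by simp [hγ]
    have e1 : γ 1 = (1 - c + w) / 2 := by
      simp only [hγ, ofReal_one]
      ring
    rw [e0, e1] at key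
    simpa using key
  · intro x hx
    have hx' : x ∈ Icc (0 : ℝ) 1 := ⟨hx.1, hx.2.le⟩
    rw [norm_mul, norm_mul, norm_div, RCLike.norm_ofNat, add_zero]
    have h1 := hb (γ x) (hγre x hx')
    have h2 : (1 + ‖γ x‖) ^ (1 / 2 : ℝ) ≤ A ^ (1 / 2 : ℝ) * (1 + ‖w‖) ^ (1 / 2 : ℝ) := by
      rw [← Real.mul_rpow hA0 (by positivity)]
      exact Real.rpow_le_rpow (by positivity) (hγn x hx') (by norm_num)
    calc ‖Gamma (γ x)‖ * ‖digamma (γ x)‖ * (‖1 - 2 * c‖ / 2)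
        ≤ ‖Gamma (γ x)‖ * (C * (A ^ (1 / 2 : ℝ) * (1 + ‖w‖) ^ (1 / 2 : ℝ))) *
          (‖1 - 2 * c‖ / 2) := by
          gcongr
          refine h1.trans ?_
          gcongr
      _ = _ := by ring

lemma inv_zetaPole_le {θ : ℝ} (hθ : 1 / 2 ≤ θ) (hθ1 : θ < 1)
    (hZ : ∀ s : ℂ, θ < s.re → riemannZeta s ≠ 0) {σ : ℝ} (hσ : θ < σ) :
    ∃ B : ℝ, 0 < B ∧ ∀ s : ℂ, σ ≤ s.re → ‖(zetaPole s)⁻¹‖ ≤ B := by
  obtain ⟨C, hC, hb⟩ := inv_zetaPole_bound hθ hθ1 hZ hσ (η := 1) one_pos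
  refine ⟨C + 2, by positivity, fun s hs ↦ ?_⟩
  rcases le_or_gt s.re 2 with h | h
  · have := hb s hs h
    rw [sub_self, Real.rpow_zero, mul_one] at this
    linarith
  · have hs1 : s ≠ 1 := by intro h1; rw [h1, one_re] at h; linarith
    rw [zetaPole_of_ne hs1, mul_inv, norm_mul]
    have h1 := norm_inv_zeta_le h.le
    have h2 : ‖(s - 1)⁻¹‖ ≤ 1 := by
      rw [norm_inv]
      refine inv_le_one_of_one_le₀ ?_
      have := re_le_norm (s - 1)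
      rw [sub_re, one_re] at this
      linarith
    have h3 := norm_nonneg (s - 1)⁻¹
    have h4 := norm_nonneg (riemannZeta s)⁻¹
    nlinarith

lemma norm_zetaPole_le' {s : ℂ} {κ : ℝ} (hκ : 0 < κ) (hs : κ ≤ s.re) :
    ‖zetaPole s‖ ≤ (1 + 1 / κ) * (1 + ‖s‖) ^ 2 := by
  have hs0 : 0 < s.re := by linarith
  rw [zetaPole_eq hs0]
  have h2 : ‖frMellin s‖ ≤ 1 / κ := (norm_frMellin_le hs0).trans (by gcongr)
  have h3 : ‖s - 1‖ ≤ ‖s‖ + 1 := by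
    refine (norm_sub_le _ _).trans ?_
    simp
  have h0 := norm_nonneg s
  have hk : 0 < 1 / κ := by positivity
  calc ‖s - s * (s - 1) * frMellin s‖ ≤ ‖s‖ + ‖s * (s - 1) * frMellin s‖ := norm_sub_le _ _
    _ = ‖s‖ + ‖s‖ * ‖s - 1‖ * ‖frMellin s‖ := by rw [norm_mul, norm_mul]
    _ ≤ ‖s‖ + ‖s‖ * (‖s‖ + 1) * (1 / κ) := by gcongr
    _ ≤ (1 + 1 / κ) * (1 + ‖s‖) ^ 2 := by nlinarith [mul_nonneg h0 hk.le, mul_nonneg (mul_nonneg h0 h0) hk.le]

lemma norm_Gammaℝ (s : ℂ) : ‖Gammaℝ s‖ = Real.pi ^ (-s.re / 2) * ‖Gamma (s / 2)‖ := by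
  rw [Gammaℝ_def, norm_mul, norm_cpow_eq_rpow_re_of_pos Real.pi_pos]
  congr 2
  simp

/-- comparison of `log |xi2|` at the two points -/
lemma xi2_compare {θ : ℝ} (hθ : 1 / 2 ≤ θ) (hZ : ∀ s : ℂ, θ < s.re → riemannZeta s ≠ 0) {c : ℂ}
    (hc : θ < c.re) (hc1 : c.re < 1) : ∃ K : ℝ, 0 ≤ K ∧ ∀ w : ℂ, 0 ≤ w.re → xi2 (1 - c + w) ≠ 0 →
      Real.log ‖xi2 (1 - c + w)‖ ≤ Real.log ‖xi2 (c + w)‖ + K * (1 + ‖w‖) ^ (1 / 2 : ℝ) := by
  have hθ1 : θ < 1 := by linarith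
  obtain ⟨K, hK, hgam⟩ := gamma_compare (c := c) (by linarith) hc1
  obtain ⟨B, hB, hinv⟩ := inv_zetaPole_le hθ hθ1 hZ hc
  set κ : ℝ := 1 - c.re with hκ
  have hκ0 : 0 < κ := by rw [hκ]; linarith
  set A : ℝ := 1 + ‖1 - c‖ with hA
  have hA0 : 0 < A := by positivity
  have hA1 : 1 ≤ A := by rw [hA]; linarith [norm_nonneg (1 - c)]
  -- the constant
  set D : ℝ := A * ((1 + 1 / κ) * A ^ 2) * (4 * (2 * B)) with hD
  have hD0 : 0 < D := by positivity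
  refine ⟨|Real.log D| + 6 + K, by positivity, fun w hw hne ↦ ?_⟩
  have hs1 : θ < (c + w).re := by rw [add_re]; linarith
  have hs2 : κ ≤ (1 - c + w).re := by
    rw [add_re, sub_re, one_re]
    linarith
  have hw1 : (1 : ℝ) ≤ 1 + ‖w‖ := by linarith [norm_nonneg w]
  have hn2 : 1 + ‖1 - c + w‖ ≤ A * (1 + ‖w‖) := by
    have := norm_add_le (1 - c) w
    rw [hA]
    nlinarith [norm_nonneg (1 - c), norm_nonneg w]
  have hx1 : xi2 (c + w) ≠ 0 := xi2_ne_zero hθ hZ hs1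
  have hzp1 := zetaPole_ne_zero_of hZ (c + w) hs1
  -- lower bound at the first point
  have h1 : ‖Gammaℝ (c + w)‖ ≤ 2 * B * ‖xi2 (c + w)‖ := by
    rw [xi2_eq (by linarith), norm_mul, norm_mul]
    have h2 : 1 / 2 ≤ ‖c + w‖ := by
      have := re_le_norm (c + w)
      linarith
    have h3 : 1 ≤ B * ‖zetaPole (c + w)‖ := by
      have h4 := hinv (c + w) (by rw [add_re]; linarith)
      rw [norm_inv] at h4
      have h5 : 0 < ‖zetaPole (c + w)‖ := norm_pos_iff.mpr hzp1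
      rwa [inv_le_iff_one_le_mul₀ h5] at h4
    have h6 := norm_nonneg (Gammaℝ (c + w))
    have h7 : 1 ≤ 2 * B * (‖c + w‖ * ‖zetaPole (c + w)‖) := by
      have : 0 ≤ B * ‖zetaPole (c + w)‖ := by linarith
      nlinarith
    calc ‖Gammaℝ (c + w)‖ = 1 * ‖Gammaℝ (c + w)‖ := (one_mul _).symm
      _ ≤ 2 * B * (‖c + w‖ * ‖zetaPole (c + w)‖) * ‖Gammaℝ (c + w)‖ := by gcongr
      _ = _ := by ring
  -- comparison of the gamma factors
  have h2 : ‖Gammaℝ (1 - c + w)‖ ≤ 4 * ‖Gammaℝ (c + w)‖ *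
      Real.exp (K * (1 + ‖w‖) ^ (1 / 2 : ℝ)) := by
    rw [norm_Gammaℝ, norm_Gammaℝ]
    have h3 := hgam w hw
    have h4 : Real.pi ^ (-(1 - c + w).re / 2) ≤ 4 * Real.pi ^ (-(c + w).re / 2) := by
      have h5 : -(1 - c + w).re / 2 = -(c + w).re / 2 + (c.re - 1 / 2) := by
        simp only [add_re, sub_re, one_re]
        ring
      rw [h5, Real.rpow_add Real.pi_pos, mul_comm]
      gcongr
      calc Real.pi ^ (c.re - 1 / 2) ≤ Real.pi ^ (1 : ℝ) :=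
            Real.rpow_le_rpow_of_exponent_le (by linarith [Real.pi_gt_three]) (by linarith)
        _ ≤ 4 := by rw [Real.rpow_one]; exact Real.pi_le_four
    calc Real.pi ^ (-(1 - c + w).re / 2) * ‖Gamma ((1 - c + w) / 2)‖
        ≤ (4 * Real.pi ^ (-(c + w).re / 2)) *
          (‖Gamma ((c + w) / 2)‖ * Real.exp (K * (1 + ‖w‖) ^ (1 / 2 : ℝ))) := by gcongr
      _ = _ := by ring
  -- the main inequality
  have h3 : ‖xi2 (1 - c + w)‖ ≤ D * (1 + ‖w‖) ^ 3 * Real.exp (K * (1 + ‖w‖) ^ (1 / 2 : ℝ)) *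
      ‖xi2 (c + w)‖ := by
    rw [xi2_eq (s := 1 - c + w) (by linarith), norm_mul, norm_mul]
    have h4 := norm_zetaPole_le' hκ0 hs2
    calc ‖1 - c + w‖ * ‖zetaPole (1 - c + w)‖ * ‖Gammaℝ (1 - c + w)‖
        ≤ (A * (1 + ‖w‖)) * ((1 + 1 / κ) * (A * (1 + ‖w‖)) ^ 2) *
          (4 * (2 * B * ‖xi2 (c + w)‖) * Real.exp (K * (1 + ‖w‖) ^ (1 / 2 : ℝ))) := by
          gcongr
          · linarith
          · refine h4.trans ?_
            gcongr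
          · refine h2.trans ?_
            gcongr
      _ = _ := by rw [hD]; ring
  have h4 := Real.log_le_log (norm_pos_iff.mpr hne) h3
  rw [Real.log_mul (by positivity) (norm_ne_zero_iff.mpr hx1), Real.log_mul (by positivity)
    (by positivity), Real.log_mul (by positivity) (by positivity), Real.log_exp, Real.log_pow] at h4
  have h5 : Real.log (1 + ‖w‖) ≤ (1 + ‖w‖) ^ (1 / 2 : ℝ) / (1 / 2) :=
    Real.log_le_rpow_div (by positivity) (by norm_num)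
  have h6 : (1 : ℝ) ≤ (1 + ‖w‖) ^ (1 / 2 : ℝ) := Real.one_le_rpow hw1 (by norm_num)
  have h7 : Real.log D ≤ |Real.log D| * (1 + ‖w‖) ^ (1 / 2 : ℝ) := by
    have := le_abs_self (Real.log D)
    nlinarith [abs_nonneg (Real.log D)]
  push_cast at h4
  nlinarith

end Pool.Agent.H6.Weil
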