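import Pool.Agent.H6.Weil.Posit2

/-!
Positivity of `Re (ξ'/ξ)` in a zero-free half-plane: conclusion.
-/

set_option autoImplicit false

open Complex Filter Topology MeasureTheory Set LSeries Metric

namespace Pool.Agent.H6.Weil

open Pool.Agent.H6

lemma circle_lower {G : ℝ → ℝ} (hG : Continuous G) (hper : Function.Periodic G (2 * Real.pi))
    {B : ℝ} (hB : ∀ φ ∈ Icc (-(Real.pi / 2)) (Real.pi / 2), G (φ + Real.pi) ≤ G φ + B) :
    -(2 * B) ≤ ∫ φ in (0 : ℝ)..(2 * Real.pi), Real.cos φ * G φ := by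
  have hpi := Real.pi_pos
  have hper' : Function.Periodic (fun φ ↦ Real.cos φ * G φ) (2 * Real.pi) := by
    intro φ
    simp only
    rw [hper φ, Real.cos_add_two_pi]
  have hcont : Continuous fun φ ↦ Real.cos φ * G φ := by fun_prop
  have h1 : ∫ φ in (0 : ℝ)..(2 * Real.pi), Real.cos φ * G φ =
      ∫ φ in (-(Real.pi / 2))..(-(Real.pi / 2) + 2 * Real.pi), Real.cos φ * G φ := by
    have := hper'.intervalIntegral_add_eq 0 (-(Real.pi / 2))
    rwa [zero_add] at this
  have h2 : ∫ φ in (-(Real.pi / 2))..(-(Real.pi / 2) + 2 * Real.pi), Real.cos φ * G φ =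
      (∫ φ in (-(Real.pi / 2))..(Real.pi / 2), Real.cos φ * G φ) +
      ∫ φ in (Real.pi / 2)..(-(Real.pi / 2) + 2 * Real.pi), Real.cos φ * G φ :=
    (intervalIntegral.integral_add_adjacent_intervals (hcont.intervalIntegrable _ _)
      (hcont.intervalIntegrable _ _)).symm
  have h3 : ∫ φ in (Real.pi / 2)..(-(Real.pi / 2) + 2 * Real.pi), Real.cos φ * G φ =
      ∫ φ in (-(Real.pi / 2))..(Real.pi / 2), Real.cos (φ + Real.pi) * G (φ + Real.pi) := by
    rw [intervalIntegral.integral_comp_add_right (fun φ ↦ Real.cos φ * G φ)]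
    congr 1 <;> ring
  have h4 : (∫ φ in (-(Real.pi / 2))..(Real.pi / 2), Real.cos φ * G φ) +
      ∫ φ in (-(Real.pi / 2))..(Real.pi / 2), Real.cos (φ + Real.pi) * G (φ + Real.pi) =
      ∫ φ in (-(Real.pi / 2))..(Real.pi / 2), Real.cos φ * (G φ - G (φ + Real.pi)) := by
    rw [← intervalIntegral.integral_add (hcont.intervalIntegrable _ _)
      ((by fun_prop : Continuous fun φ ↦ Real.cos (φ + Real.pi) * G (φ + Real.pi)).intervalIntegrable
        _ _)]
    refine intervalIntegral.integral_congr fun φ _ ↦ ?_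
    simp only [Real.cos_add_pi]
    ring
  have h5 : ∫ φ in (-(Real.pi / 2))..(Real.pi / 2), Real.cos φ * (-B) ≤
      ∫ φ in (-(Real.pi / 2))..(Real.pi / 2), Real.cos φ * (G φ - G (φ + Real.pi)) := by
    refine intervalIntegral.integral_mono_on (by linarith)
      ((by fun_prop : Continuous fun φ ↦ Real.cos φ * (-B)).intervalIntegrable _ _)
      ((by fun_prop : Continuous fun φ ↦ Real.cos φ * (G φ - G (φ + Real.pi))).intervalIntegrable
        _ _) fun φ hφ ↦ ?_
    have h6 := hB φ hφ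
    have h7 := Real.cos_nonneg_of_mem_Icc hφ
    nlinarith
  rw [intervalIntegral.integral_mul_const, integral_cos, Real.sin_neg, Real.sin_pi_div_two] at h5
  rw [h1, h2, h3, h4]
  linarith

/-- `Re (ξ'/ξ) ≥ 0` to the right of all zeros. -/
theorem re_xi2_logDeriv_nonneg {θ : ℝ} (hθ : 1 / 2 ≤ θ)
    (hZ : ∀ s : ℂ, θ < s.re → riemannZeta s ≠ 0) {c : ℂ} (hc : θ < c.re) (hc1 : c.re < 1) :
    0 ≤ (deriv xi2 c / xi2 c).re := by
  obtain ⟨K, hK, hcomp⟩ := xi2_compare hθ hZ hc hc1
  have hxc : xi2 c ≠ 0 := xi2_ne_zero hθ hZ hc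
  have han : ∀ r, AnalyticOnNhd ℂ xi2 (closedBall c r) := fun r z _ ↦
    xi2_differentiable.analyticAt z
  -- the estimate for good radii
  have key : ∀ r : ℝ, 1 ≤ r → (∀ z, ‖z - c‖ = r → xi2 z ≠ 0) →
      -(2 * K / Real.pi * (1 + r) ^ (1 / 2 : ℝ) / r) ≤ (deriv xi2 c / xi2 c).re := by
    intro r hr hsph
    have hr0 : 0 < r := by linarith
    have h1 := re_logDeriv_ge hr0 (han r) hxc hsph (by
      intro z _ hz0
      by_contra h
      rw [not_le] at h
      exact xi2_ne_zero hθ hZ (hc.trans h) hz0)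
    refine le_trans ?_ h1
    set G : ℝ → ℝ := fun φ ↦ Real.log ‖xi2 (circleMap c r φ)‖ with hG
    have hne : ∀ φ, xi2 (circleMap c r φ) ≠ 0 := by
      intro φ
      apply hsph
      rw [circleMap_sub_center, norm_circleMap_zero, abs_of_pos hr0]
    have hGc : Continuous G := by
      refine Continuous.log ?_ fun φ ↦ norm_ne_zero_iff.mpr (hne φ)
      exact (xi2_differentiable.continuous.comp (continuous_circleMap c r)).norm
    have hGp : Function.Periodic G (2 * Real.pi) := by
      intro φ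
      simp only [hG]
      rw [periodic_circleMap c r φ]
    have hGB : ∀ φ ∈ Icc (-(Real.pi / 2)) (Real.pi / 2),
        G (φ + Real.pi) ≤ G φ + K * (1 + r) ^ (1 / 2 : ℝ) := by
      intro φ hφ
      set w : ℂ := r * cexp (φ * I) with hw
      have hwn : ‖w‖ = r := by
        rw [hw, norm_mul, norm_exp_ofReal_mul_I, mul_one, norm_real, Real.norm_of_nonneg hr0.le]
      have hwre : 0 ≤ w.re := by
        rw [hw, re_ofReal_mul, exp_ofReal_mul_I_re]
        exact mul_nonneg hr0.le (Real.cos_nonneg_of_mem_Icc hφ)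
      have e1 : circleMap c r φ = c + w := by
        rw [circleMap, hw]
      have e2 : circleMap c r (φ + Real.pi) = c - w := by
        rw [circleMap, hw]
        push_cast
        rw [add_mul, Complex.exp_add, exp_pi_mul_I]
        ring
      have e3 : xi2 (c - w) = xi2 (1 - c + w) := by
        rw [← xi2_one_sub]
        congr 1
        ring
      simp only [hG]
      rw [e1, e2, e3, ← hwn]
      refine hcomp w hwre ?_
      rw [← e3, ← e2]
      exact hne _
    have h2 := circle_lower hGc hGp hGB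
    have h3 : Real.circleAverage (fun z => (z - c).re * Real.log ‖xi2 z‖) c r =
        r * ((2 * Real.pi)⁻¹ * ∫ φ in (0 : ℝ)..(2 * Real.pi), Real.cos φ * G φ) := by
      rw [Real.circleAverage, smul_eq_mul]
      have h4 : ∀ φ : ℝ, (circleMap c r φ - c).re * Real.log ‖xi2 (circleMap c r φ)‖ =
          r * (Real.cos φ * G φ) := by
        intro φ
        rw [circleMap_sub_center, circleMap, zero_add, re_ofReal_mul, exp_ofReal_mul_I_re]
        simp only [hG]
        ring
      simp_rw [h4]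
      rw [intervalIntegral.integral_const_mul]
      ring
    rw [h3]
    have hpi := Real.pi_pos
    have h5 : 2 / r ^ 2 * (r * ((2 * Real.pi)⁻¹ * ∫ φ in (0 : ℝ)..(2 * Real.pi),
        Real.cos φ * G φ)) = (1 / (r * Real.pi)) * ∫ φ in (0 : ℝ)..(2 * Real.pi),
        Real.cos φ * G φ := by
      field_simp
    rw [h5]
    have h6 : -(2 * K / Real.pi * (1 + r) ^ (1 / 2 : ℝ) / r) =
        (1 / (r * Real.pi)) * (-(2 * (K * (1 + r) ^ (1 / 2 : ℝ)))) := by
      field_simp
    rw [h6]
    gcongr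
  -- good radii exist
  have hgood : ∀ R : ℝ, 1 ≤ R → ∃ r : ℝ, R < r ∧ ∀ z, ‖z - c‖ = r → xi2 z ≠ 0 := by
    intro R hR
    obtain ⟨S, n, g, -, hgne, hS, hfac⟩ := exists_factor (r := R + 1) (by linarith) (han (R + 1)) hxc
    obtain ⟨r, hr, hrS⟩ : ∃ r ∈ Ioo R (R + 1), r ∉ S.image (fun u => ‖u - c‖) :=
      (Ioo_infinite (by linarith : R < R + 1)).exists_notMem_finset _
    refine ⟨r, hr.1, fun z hz h0 ↦ ?_⟩
    have hzc : z ∈ closedBall c (R + 1) := by
      rw [mem_closedBall, dist_eq_norm, hz]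
      exact hr.2.le
    rw [hfac z hzc] at h0
    rcases mul_eq_zero.1 h0 with h | h
    · rw [Finset.prod_eq_zero_iff] at h
      obtain ⟨u, hu, hu0⟩ := h
      have h1 : z - u = 0 := by
        by_contra hne
        exact pow_ne_zero _ hne hu0
      apply hrS
      rw [Finset.mem_image]
      refine ⟨u, hu, ?_⟩
      rw [← sub_eq_zero.mp h1, hz]
    · exact hgne z hzc h
  -- the limit
  have hlim : Tendsto (fun r : ℝ ↦ 2 * K / Real.pi * (1 + r) ^ (1 / 2 : ℝ) / r) atTop (𝓝 0) := by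
    have h1 : Tendsto (fun r : ℝ ↦ 2 * K / Real.pi * 2 ^ (1 / 2 : ℝ) * r ^ (-(1 / 2) : ℝ)) atTop
        (𝓝 (2 * K / Real.pi * 2 ^ (1 / 2 : ℝ) * 0)) :=
      (tendsto_rpow_neg_atTop (by norm_num)).const_mul _
    rw [mul_zero] at h1
    refine squeeze_zero' ?_ ?_ h1
    · filter_upwards [eventually_ge_atTop 1] with r hr
      have : 0 < r := by linarith
      have := Real.pi_pos
      positivity
    · filter_upwards [eventually_ge_atTop 1] with r hr
      have hr0 : 0 < r := by linarith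
      have h2 : (1 + r) ^ (1 / 2 : ℝ) ≤ 2 ^ (1 / 2 : ℝ) * r ^ (1 / 2 : ℝ) := by
        rw [← Real.mul_rpow (by norm_num) hr0.le]
        exact Real.rpow_le_rpow (by linarith) (by linarith) (by norm_num)
      have h3 : r ^ (-(1 / 2) : ℝ) = r ^ (1 / 2 : ℝ) / r := by
        rw [show (-(1 / 2) : ℝ) = 1 / 2 - 1 by norm_num, Real.rpow_sub hr0, Real.rpow_one]
      rw [h3]
      have := Real.pi_pos
      calc 2 * K / Real.pi * (1 + r) ^ (1 / 2 : ℝ) / r
          ≤ 2 * K / Real.pi * (2 ^ (1 / 2 : ℝ) * r ^ (1 / 2 : ℝ)) / r := by gcongr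
        _ = _ := by ring
  by_contra hneg
  rw [not_le] at hneg
  have h1 : ∀ᶠ r : ℝ in atTop, 2 * K / Real.pi * (1 + r) ^ (1 / 2 : ℝ) / r <
      -(deriv xi2 c / xi2 c).re := hlim.eventually_lt_const (by linarith)
  obtain ⟨R, hR⟩ := eventually_atTop.mp h1
  obtain ⟨r, hr, hsph⟩ := hgood (max R 1) (le_max_right _ _)
  have h2 := key r ((le_max_right R 1).trans hr.le) hsph
  have h3 := hR r ((le_max_left R 1).trans hr.le)
  linarith

end Pool.Agent.H6.Weil
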